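import Pool.Agent.MP_2e9a04_lc.H93.Tri

set_option autoImplicit false

namespace Pool.Agent.MP_2e9a04_lc.H93

variable {P : Set Pt} {T : Set (Sym2 Pt)}

theorem IsPlane.finite (hfin : P.Finite) (hP : IsPlane P T) : T.Finite := by
  refine ((hfin.prod hfin).image fun x => s(x.1, x.2)).subset fun e he => ?_
  induction e using Sym2.ind with
  | h a b => exact ⟨(a, b), ⟨hP.left he, hP.right he⟩, rfl⟩

/-- edges that cross the segment `p w` outside `P` -/
def crs (P : Set Pt) (T : Set (Sym2 Pt)) (p w : Pt) : Set (Sym2 Pt) :=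
  {e ∈ T | ∃ y, y ∈ seg e ∧ y ∈ segment ℝ p w ∧ y ∉ P}

theorem half_step (hfin : P.Finite) (hT : IsTriangulation P T) {φ : Pt → ℝ} (hφ : IsAff φ)
    {p w g h y : Pt} (hp : p ∈ P) (hφp : φ p = 0) (hw : w ∈ P) (hφw : 0 < φ w)
    (hprim : Prim P p w) (hno : ∀ u, s(p, u) ∈ T → 0 < φ u → False)
    (he : s(g, h) ∈ T) (hy : y ∈ segment ℝ p w) (hy' : y ∈ segment ℝ g h) (hyP : y ∉ P)
    (ho : ori p w g ≠ 0) (hg : 0 < φ g) :
    ∃ w', w' ∈ P ∧ 0 < φ w' ∧ Prim P p w' ∧ crs P T p w' ⊂ crs P T p w := by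
  have hP := hT.prop
  obtain ⟨t, t0, t1, ht⟩ := param_strict hp hw hy hyP
  have hD : ori p y g ≠ 0 := by
    have : ori p y g = t * ori p w g := by rw [ht]; simp only [ori, lerp_fst, lerp_snd]; ring
    rw [this]; exact mul_ne_zero t0.ne' ho
  have hφy : 0 < φ y := by rw [ht, hφ, hφp]; nlinarith
  have hsub : segment ℝ p y ⊆ segment ℝ p w := seg_sub (left_mem_segment _ _ _) hy
  have hsub' : segment ℝ y g ⊆ segment ℝ g h := seg_sub hy' (left_mem_segment _ _ _)
  have hwB : 1 < bB p y g w := by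
    have e := isAff_bB (p := p) (q := y) (r := g) p w t
    rw [← ht, bB_q hD, bB_p] at e
    by_contra hh; push Not at hh; nlinarith
  have hwC : bC p y g w = 0 := by
    have e := isAff_bC (p := p) (q := y) (r := g) p w t
    rw [← ht, bC_q, bC_p] at e
    have : t * bC p y g w = 0 := by linarith
    exact (mul_eq_zero.1 this).resolve_left t0.ne'
  set W : Set Pt := {z ∈ P | 0 ≤ bA p y g z ∧ 0 ≤ bB p y g z ∧ 0 ≤ bC p y g z ∧ z ≠ p} with hW
  have hWC : ∀ z ∈ W, 0 < bC p y g z := by
    rintro z ⟨zP, zA, zB, zC, zp⟩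
    refine lt_of_le_of_ne zC fun e => ?_
    rcases hprim z zP (hsub (mem_pq hD zA zB e.symm)) with e' | e'
    · exact zp e'
    · have := bary_sum hD w
      rw [e'] at zA; linarith
  have hgW : g ∈ W := ⟨hP.left he, by rw [bA_r], by rw [bB_r], by rw [bC_r hD]; norm_num,
    by rintro rfl; linarith⟩
  obtain ⟨w0, hw0, hmax⟩ := Set.exists_max_image W (fun z => bB p y g z / bC p y g z)
    (hfin.subset fun _ h => h.1) ⟨g, hgW⟩
  have w0C := hWC w0 hw0
  obtain ⟨w0P, w0A, w0B, -, w0p⟩ := hw0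
  obtain ⟨s, s0, s1, hsP, hsprim⟩ := exists_prim hfin w0P w0p
  set w' := lerp p w0 s with hw'
  have w0s := bary_sum hD w0
  have eA : bA p y g w' = 1 - s * (bB p y g w0 + bC p y g w0) := by
    rw [hw', isAff_bA, bA_p hD]
    have : bA p y g w0 = 1 - (bB p y g w0 + bC p y g w0) := by linarith
    rw [this]; ring
  have eB : bB p y g w' = s * bB p y g w0 := by rw [hw', isAff_bB, bB_p]; ring
  have eC : bC p y g w' = s * bC p y g w0 := by rw [hw', isAff_bC, bC_p]; ring
  have hA' : 0 ≤ bA p y g w' := by rw [eA]; nlinarith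
  have hB' : 0 ≤ bB p y g w' := by rw [eB]; positivity
  have hC' : 0 < bC p y g w' := by rw [eC]; positivity
  have hφ' : 0 < φ w' := by
    rw [hφ.bary hD w', hφp]
    have := mul_nonneg hB' hφy.le
    have := mul_pos hC' hg
    linarith
  have hpw' : p ≠ w' := by rintro e; rw [← e, hφp] at hφ'; exact lt_irrefl _ hφ'
  -- the affine function vanishing on the line p w'
  set ψ : Pt → ℝ := fun z => bC p y g z * bB p y g w0 - bB p y g z * bC p y g w0 with hψ
  have ψaff : IsAff ψ := by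
    intro a b u; simp only [hψ, isAff_bB a b u, isAff_bC a b u]; ring
  have ψp : ψ p = 0 := by simp only [hψ, bB_p, bC_p]; ring
  have ψw : ψ w' = 0 := by simp only [hψ, eB, eC]; ring
  have ψW : ∀ z ∈ W, 0 ≤ ψ z := by
    intro z hz
    have h1 := hmax z hz
    have h2 := hWC z hz
    rw [div_le_div_iff₀ h2 w0C] at h1
    simp only [hψ]; linarith
  have ψB : ∀ z, ψ z < 0 → 0 ≤ bC p y g z → 0 < bB p y g z := by
    intro z h1 h2
    simp only [hψ] at h1
    by_contra hh; push Not at hh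
    have := mul_nonneg h2 w0B
    nlinarith
  have ψori : ∀ z, ψ z = 0 → ori p w' z = 0 := by
    intro z hz
    have e := (isAff_ori p w').bary hD z
    have e' := (isAff_ori p w').bary hD w'
    have z1 : ori p w' p = 0 := by unfold ori; ring
    have z2 : ori p w' w' = 0 := by unfold ori; ring
    rw [z1] at e e'
    rw [z2, eB, eC] at e'
    simp only [hψ] at hz
    have e2 : bB p y g w0 * ori p w' y + bC p y g w0 * ori p w' g = 0 := by
      have : s * (bB p y g w0 * ori p w' y + bC p y g w0 * ori p w' g) = 0 := by linarith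
      exact (mul_eq_zero.1 this).resolve_left s0.ne'
    have : bC p y g w0 * ori p w' z = 0 := by
      rw [e]; linear_combination bC p y g z * e2 - ori p w' y * hz
    exact (mul_eq_zero.1 this).resolve_left w0C.ne'
  have hAgh : ∀ z ∈ segment ℝ g h, bA p y g z = 0 := by
    intro z hz
    obtain ⟨u, u0, u1, hu⟩ := param_strict (hP.left he) (hP.right he) hy' hyP
    have e := isAff_bA (p := p) (q := y) (r := g) g h u
    rw [← hu, bA_q, bA_r] at e
    have : u * bA p y g h = 0 := by linarith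
    exact isAff_bA.eq_of_seg hz bA_r ((mul_eq_zero.1 this).resolve_left u0.ne')
  -- points of the open segment p w'
  have hopen : ∀ y' ∈ segment ℝ p w', y' ∉ P →
      0 < bA p y g y' ∧ 0 < bC p y g y' ∧ ψ y' = 0 := by
    intro y' h1 h2
    refine ⟨?_, ?_, ψaff.eq_of_seg h1 ψp ψw⟩
    · obtain ⟨u, u0, u1, rfl⟩ := param_strict hp hsP h1 h2
      rw [isAff_bA, bA_p hD]; nlinarith
    · obtain ⟨u, u0, u1, rfl⟩ := param_strict hp hsP h1 h2
      rw [isAff_bC, bC_p]; nlinarith
  have main : ∀ a b y', s(a, b) ∈ T → y' ∈ segment ℝ a b → y' ∈ segment ℝ p w' → y' ∉ P →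
      ψ a < 0 → s(a, b) ∈ crs P T p w := by
    intro a b y' hab h1 h2 h3 ha
    obtain ⟨c1, c2, c3⟩ := hopen y' h2 h3
    have hout : ∀ z ∈ P, ψ z < 0 → 0 ≤ bA p y g z → 0 ≤ bC p y g z → False := by
      intro z zP z1 z2 z3
      have := ψW z ⟨zP, z2, (ψB z z1 z3).le, z3, by rintro rfl; linarith⟩
      linarith
    have h4 : bA p y g a < 0 ∨ bC p y g a < 0 := by
      by_contra hh; push Not at hh
      exact hout a (hP.left hab) ha hh.1 hh.2
    obtain ⟨u, u0, u1, z1, z2, z3⟩ := exit_two isAff_bA isAff_bC c1 c2 h4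
    have hz : lerp y' a u ∈ segment ℝ a b :=
      seg_sub h1 (left_mem_segment _ _ _) (lerp_mem u0.le u1)
    have zψ : ψ (lerp y' a u) < 0 := by rw [ψaff, c3]; nlinarith
    have zP : lerp y' a u ∉ P := fun zP => hout _ zP zψ z1 z2
    have zB := ψB _ zψ z2
    rcases z3 with z3 | z3
    · have e := hP.eq_of_meet hab he hz (hsub' (mem_qr hD z3 zB.le z2)) zP
      have : y' ∈ segment ℝ g h := by rw [← seg_mk, ← e]; exact h1
      have := hAgh y' this
      linarith
    · exact ⟨hab, _, hz, hsub (mem_pq hD z1 zB.le z3), zP⟩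
  refine ⟨w', hsP, hφ', hsprim, ?_, ?_⟩
  · rintro e ⟨heT, y', h1, h2, h3⟩
    induction e using Sym2.ind with
    | h a b =>
      obtain ⟨c1, c2, c3⟩ := hopen y' h2 h3
      obtain ⟨u, u0, u1, hu⟩ := param_strict (hP.left heT) (hP.right heT) h1 h3
      have e := ψaff a b u
      rw [← hu, c3] at e
      rcases lt_trichotomy (ψ a) 0 with ha | ha | ha
      · exact main a b y' heT h1 h2 h3 ha
      · have hb : ψ b = 0 := by
          rw [ha] at e
          have : u * ψ b = 0 := by linarith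
          exact (mul_eq_zero.1 this).resolve_left u0.ne'
        have := col hpw' hp hsP (hP.left heT) (hP.right heT) hsprim (hP.prim' heT) h2 h1 h3
          (ψori a ha) (ψori b hb)
        exact (hno w' (this ▸ heT) hφ').elim
      · rw [Sym2.eq_swap]
        exact main b a y' (swap_mem heT) (by rw [segment_symm]; exact h1) h2 h3 (by nlinarith)
  · intro hc
    obtain ⟨-, y', h1, h2, h3⟩ := hc (show s(g, h) ∈ crs P T p w from ⟨he, y, hy', hy, hyP⟩)
    have := hAgh y' h1
    have := (hopen y' h2 h3).1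
    linarith

/-- A vertex has a neighbour in every open half plane through it that contains a point of `P`. -/
theorem half_nbr (hfin : P.Finite) (hT : IsTriangulation P T) {φ : Pt → ℝ} (hφ : IsAff φ)
    {p w : Pt} (hp : p ∈ P) (hφp : φ p = 0) (hw : w ∈ P) (hφw : 0 < φ w) :
    ∃ u, s(p, u) ∈ T ∧ 0 < φ u := by
  have hP := hT.prop
  by_contra hno
  push Not at hno
  have hno' : ∀ u, s(p, u) ∈ T → 0 < φ u → False := fun u h1 h2 => by
    have := hno u h1; linarith
  have hne : ∀ z, 0 < φ z → z ≠ p := by rintro z hz rfl; linarith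
  obtain ⟨s, s0, s1, hsP, hsprim⟩ := exists_prim hfin hw (hne w hφw)
  obtain ⟨u, ⟨uP, uφ, uprim⟩, hmin⟩ := Set.exists_min_image
    {z ∈ P | 0 < φ z ∧ Prim P p z} (fun z => (crs P T p z).ncard) (hfin.subset fun _ h => h.1)
    ⟨_, hsP, by rw [hφ, hφp]; nlinarith, hsprim⟩
  obtain ⟨g, h, y, he, hy, hy', hyP, o1, o2⟩ :=
    blocked hT (hne u uφ).symm hp uP uprim fun e => hno' u e uφ
  have hφy : 0 < φ y := by
    obtain ⟨t, t0, t1, rfl⟩ := param_strict hp uP hy hyP
    rw [hφ, hφp]; nlinarith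
  have key : ∃ w', w' ∈ P ∧ 0 < φ w' ∧ Prim P p w' ∧ crs P T p w' ⊂ crs P T p u := by
    rcases hφ.le_or_le hy' with h1 | h1
    · exact half_step hfin hT hφ hp hφp uP uφ uprim hno' he hy hy' hyP o1.ne' (by linarith)
    · exact half_step hfin hT hφ hp hφp uP uφ uprim hno' (swap_mem he) hy
        (by rwa [segment_symm]) hyP o2.ne (by linarith)
  obtain ⟨w', h1, h2, h3, h4⟩ := key
  have := hmin w' ⟨h1, h2, h3⟩
  have := Set.ncard_lt_ncard h4 ((hP.finite hfin).subset fun _ h => h.1)
  omega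

/-- `r` is the third vertex of the triangle of `T` on the right of the edge from `q` to `p`. -/
structure Apex (T : Set (Sym2 Pt)) (q p r : Pt) : Prop where
  qr : s(q, r) ∈ T
  pr : s(p, r) ∈ T
  right : ori q p r < 0
  empty : ∀ g h y, s(g, h) ∈ T → y ∈ segment ℝ g h → 0 < bA p q r y → 0 < bB p q r y →
    0 < bC p q r y → False

theorem exists_apex (hfin : P.Finite) (hT : IsTriangulation P T) {q p w : Pt}
    (he : s(q, p) ∈ T) (hw : w ∈ P) (hr : ori q p w < 0) : ∃ r, Apex T q p r := by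
  have hP := hT.prop
  obtain ⟨u, hu1, hu2⟩ := half_nbr hfin hT (isAff_ori q p).neg (hP.right he)
    (by unfold ori; ring) hw (by linarith)
  obtain ⟨r, ⟨hr1, hr2⟩, hmax⟩ := Set.exists_max_image {z | s(p, z) ∈ T ∧ ori q p z < 0}
    (fun z => ((z.1 - p.1) * (q.1 - p.1) + (z.2 - p.2) * (q.2 - p.2)) / (- ori q p z))
    (hfin.subset fun _ h => hP.right h.1) ⟨u, hu1, by linarith⟩
  have hD' : ori p q r = - ori q p r := by unfold ori; ring
  have hD : ori p q r ≠ 0 := by rw [hD']; linarith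
  have hw : ∀ w, s(p, w) ∈ T → 0 < bB p q r w → 0 < bC p q r w → False := by
    intro z hz zB zC
    have e1 := (isAff_ori q p).bary hD z
    have z1 : ori q p p = 0 := by unfold ori; ring
    have z2 : ori q p q = 0 := by unfold ori; ring
    rw [z1, z2] at e1
    have e2 : ori q p z = bC p q r z * ori q p r := by linarith
    have hz2 : ori q p z < 0 := by rw [e2]; exact mul_neg_of_pos_of_neg zC hr2
    have h1 := hmax z ⟨hz, hz2⟩
    have s := bary_sum hD z
    have f1 := bary_fst hD z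
    have f2 := bary_snd hD z
    have hA : bA p q r z = 1 - bB p q r z - bC p q r z := by linarith
    rw [hA] at f1 f2
    have g1 : z.1 - p.1 = bB p q r z * (q.1 - p.1) + bC p q r z * (r.1 - p.1) := by linarith
    have g2 : z.2 - p.2 = bB p q r z * (q.2 - p.2) + bC p q r z * (r.2 - p.2) := by linarith
    rw [div_le_div_iff₀ (by linarith) (by linarith), g1, g2, e2] at h1
    have hpos : 0 < (q.1 - p.1) ^ 2 + (q.2 - p.2) ^ 2 := by
      by_contra hh
      push Not at hh
      have a1 : q.1 - p.1 = 0 := by nlinarith [sq_nonneg (q.1 - p.1), sq_nonneg (q.2 - p.2)]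
      have a2 : q.2 - p.2 = 0 := by nlinarith [sq_nonneg (q.1 - p.1), sq_nonneg (q.2 - p.2)]
      exact hP.ne he (by ext <;> linarith)
    have := mul_pos (mul_pos zB hpos) (show 0 < - ori q p r by linarith)
    nlinarith
  obtain ⟨a1, a2⟩ := wedge hfin hT hD (swap_mem he) hr1 hw
  exact ⟨r, a1, hr1, hr2, a2⟩

end Pool.Agent.MP_2e9a04_lc.H93
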