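import Pool.Agent.MP_2e9a04_lc.H93.Defs

set_option autoImplicit false

namespace Pool.Agent.MP_2e9a04_lc.H93

/-- twice the signed area of the triangle `a b c` -/
def ori (a b c : Pt) : ℝ := (b.1 - a.1) * (c.2 - a.2) - (b.2 - a.2) * (c.1 - a.1)

/-- the point with parameter `t` on the line from `a` to `b` -/
def lerp (a b : Pt) (t : ℝ) : Pt := (a.1 + t * (b.1 - a.1), a.2 + t * (b.2 - a.2))

@[simp] theorem lerp_fst (a b : Pt) (t : ℝ) : (lerp a b t).1 = a.1 + t * (b.1 - a.1) := rfl
@[simp] theorem lerp_snd (a b : Pt) (t : ℝ) : (lerp a b t).2 = a.2 + t * (b.2 - a.2) := rfl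
@[simp] theorem lerp_zero (a b : Pt) : lerp a b 0 = a := by ext <;> simp
@[simp] theorem lerp_one (a b : Pt) : lerp a b 1 = b := by ext <;> simp

theorem mem_seg_iff {a b z : Pt} :
    z ∈ segment ℝ a b ↔ ∃ t : ℝ, 0 ≤ t ∧ t ≤ 1 ∧ z = lerp a b t := by
  rw [segment_eq_image']
  constructor
  · rintro ⟨t, ⟨h0, h1⟩, rfl⟩
    exact ⟨t, h0, h1, by ext <;> simp⟩
  · rintro ⟨t, h0, h1, rfl⟩
    exact ⟨t, ⟨h0, h1⟩, by ext <;> simp⟩

theorem lerp_mem {a b : Pt} {t : ℝ} (h0 : 0 ≤ t) (h1 : t ≤ 1) : lerp a b t ∈ segment ℝ a b :=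
  mem_seg_iff.2 ⟨t, h0, h1, rfl⟩

theorem seg_sub {a b y z : Pt} (hy : y ∈ segment ℝ a b) (hz : z ∈ segment ℝ a b) :
    segment ℝ y z ⊆ segment ℝ a b :=
  (convex_segment a b).segment_subset hy hz

/-- affine functions on the plane -/
def IsAff (f : Pt → ℝ) : Prop := ∀ a b t, f (lerp a b t) = f a + t * (f b - f a)

theorem isAff_ori (a b : Pt) : IsAff (ori a b) := by
  intro c d t; simp only [ori, lerp_fst, lerp_snd]; ring

theorem isAff_fst : IsAff fun z => z.1 := fun _ _ _ => rfl
theorem isAff_snd : IsAff fun z => z.2 := fun _ _ _ => rfl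

theorem IsAff.le_or_le {f : Pt → ℝ} (hf : IsAff f) {g h y : Pt} (hy : y ∈ segment ℝ g h) :
    f y ≤ f g ∨ f y ≤ f h := by
  obtain ⟨t, h0, h1, rfl⟩ := mem_seg_iff.1 hy
  rw [hf]
  rcases le_total (f g) (f h) with h | h
  · right; nlinarith
  · left; nlinarith

theorem IsAff.neg {f : Pt → ℝ} (hf : IsAff f) : IsAff fun z => - f z := by
  intro a b t; simp only [hf a b t]; ring

theorem IsAff.eq_of_seg {f : Pt → ℝ} (hf : IsAff f) {g h y : Pt} {c : ℝ}
    (hy : y ∈ segment ℝ g h) (hg : f g = c) (hh : f h = c) : f y = c := by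
  obtain ⟨t, -, -, rfl⟩ := mem_seg_iff.1 hy
  rw [hf, hg, hh]; ring

theorem IsAff.nonneg_of_seg {f : Pt → ℝ} (hf : IsAff f) {g h y : Pt}
    (hy : y ∈ segment ℝ g h) (hg : 0 ≤ f g) (hh : 0 ≤ f h) : 0 ≤ f y := by
  obtain ⟨t, h0, h1, rfl⟩ := mem_seg_iff.1 hy
  rw [hf]; nlinarith

/-- Leaving the region where two affine functions are positive. -/
theorem exit_two {f g : Pt → ℝ} (hf : IsAff f) (hg : IsAff g) {y a : Pt} (h1 : 0 < f y)
    (h2 : 0 < g y) (h3 : f a < 0 ∨ g a < 0) :
    ∃ t, 0 < t ∧ t ≤ 1 ∧ 0 ≤ f (lerp y a t) ∧ 0 ≤ g (lerp y a t) ∧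
      (f (lerp y a t) = 0 ∨ g (lerp y a t) = 0) := by
  have hc : ContinuousOn (fun t : ℝ => min (f y + t * (f a - f y)) (g y + t * (g a - g y)))
      (Set.Icc 0 1) := by fun_prop
  have h0 : (0 : ℝ) ∈ Set.Icc (min (f y + 1 * (f a - f y)) (g y + 1 * (g a - g y)))
      (min (f y + 0 * (f a - f y)) (g y + 0 * (g a - g y))) := by
    constructor
    · rcases h3 with h | h
      · exact (min_le_left _ _).trans (by linarith)
      · exact (min_le_right _ _).trans (by linarith)
    · exact le_min (by linarith) (by linarith)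
  obtain ⟨t, ⟨ht0, ht1⟩, ht⟩ := intermediate_value_Icc' zero_le_one hc h0
  simp only at ht
  have e1 := min_le_left (f y + t * (f a - f y)) (g y + t * (g a - g y))
  have e2 := min_le_right (f y + t * (f a - f y)) (g y + t * (g a - g y))
  refine ⟨t, lt_of_le_of_ne ht0 ?_, ht1, ?_, ?_, ?_⟩
  · rintro rfl
    have := lt_min h1 h2
    simp only [zero_mul, add_zero] at ht
    linarith
  · rw [hf]; linarith
  · rw [hg]; linarith
  · rw [hf, hg]
    rcases min_choice (f y + t * (f a - f y)) (g y + t * (g a - g y)) with h | h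
    · left; linarith
    · right; linarith

/-- barycentric coordinate of `z` at the vertex `p` of the triangle `p q r` -/
noncomputable def bA (p q r z : Pt) : ℝ := ori q r z / ori p q r
/-- barycentric coordinate at `q` -/
noncomputable def bB (p q r z : Pt) : ℝ := ori r p z / ori p q r
/-- barycentric coordinate at `r` -/
noncomputable def bC (p q r z : Pt) : ℝ := ori p q z / ori p q r

section Bary

variable {p q r : Pt}

theorem isAff_bA : IsAff (bA p q r) := by
  intro a b t; simp only [bA, isAff_ori q r a b t]; ring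
theorem isAff_bB : IsAff (bB p q r) := by
  intro a b t; simp only [bB, isAff_ori r p a b t]; ring
theorem isAff_bC : IsAff (bC p q r) := by
  intro a b t; simp only [bC, isAff_ori p q a b t]; ring

theorem bary_sum (h : ori p q r ≠ 0) (z : Pt) : bA p q r z + bB p q r z + bC p q r z = 1 := by
  unfold bA bB bC; field_simp; unfold ori; ring

theorem bary_fst (h : ori p q r ≠ 0) (z : Pt) :
    z.1 = bA p q r z * p.1 + bB p q r z * q.1 + bC p q r z * r.1 := by
  unfold bA bB bC; field_simp; unfold ori; ring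

theorem bary_snd (h : ori p q r ≠ 0) (z : Pt) :
    z.2 = bA p q r z * p.2 + bB p q r z * q.2 + bC p q r z * r.2 := by
  unfold bA bB bC; field_simp; unfold ori; ring

theorem bA_p (h : ori p q r ≠ 0) : bA p q r p = 1 := by
  unfold bA; rw [div_eq_one_iff_eq h]; unfold ori; ring
theorem bB_q (h : ori p q r ≠ 0) : bB p q r q = 1 := by
  unfold bB; rw [div_eq_one_iff_eq h]; unfold ori; ring
theorem bC_r (h : ori p q r ≠ 0) : bC p q r r = 1 := by
  unfold bC; rw [div_eq_one_iff_eq h]
theorem bA_q : bA p q r q = 0 := by simp [bA, ori]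
theorem bA_r : bA p q r r = 0 := by
  have : ori q r r = 0 := by unfold ori; ring
  simp [bA, this]
theorem bB_p : bB p q r p = 0 := by
  have : ori r p p = 0 := by unfold ori; ring
  simp [bB, this]
theorem bB_r : bB p q r r = 0 := by simp [bB, ori]
theorem bC_p : bC p q r p = 0 := by simp [bC, ori]
theorem bC_q : bC p q r q = 0 := by
  have : ori p q q = 0 := by unfold ori; ring
  simp [bC, this]

theorem mem_pq (h : ori p q r ≠ 0) {z : Pt} (hA : 0 ≤ bA p q r z) (hB : 0 ≤ bB p q r z)
    (hC : bC p q r z = 0) : z ∈ segment ℝ p q := by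
  have s := bary_sum h z
  have e1 := bary_fst h z
  have e2 := bary_snd h z
  refine mem_seg_iff.2 ⟨bB p q r z, hB, by linarith, ?_⟩
  have hA' : bA p q r z = 1 - bB p q r z := by linarith
  rw [hC, hA'] at e1 e2
  ext
  · simp only [lerp_fst]; linarith
  · simp only [lerp_snd]; linarith

theorem mem_pr (h : ori p q r ≠ 0) {z : Pt} (hA : 0 ≤ bA p q r z) (hB : bB p q r z = 0)
    (hC : 0 ≤ bC p q r z) : z ∈ segment ℝ p r := by
  have s := bary_sum h z
  have e1 := bary_fst h z
  have e2 := bary_snd h z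
  refine mem_seg_iff.2 ⟨bC p q r z, hC, by linarith, ?_⟩
  have hA' : bA p q r z = 1 - bC p q r z := by linarith
  rw [hB, hA'] at e1 e2
  ext
  · simp only [lerp_fst]; linarith
  · simp only [lerp_snd]; linarith

theorem mem_qr (h : ori p q r ≠ 0) {z : Pt} (hA : bA p q r z = 0) (hB : 0 ≤ bB p q r z)
    (hC : 0 ≤ bC p q r z) : z ∈ segment ℝ q r := by
  have s := bary_sum h z
  have e1 := bary_fst h z
  have e2 := bary_snd h z
  refine mem_seg_iff.2 ⟨bC p q r z, hC, by linarith, ?_⟩
  have hA' : bB p q r z = 1 - bC p q r z := by linarith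
  rw [hA, hA'] at e1 e2
  ext
  · simp only [lerp_fst]; linarith
  · simp only [lerp_snd]; linarith

/-- an affine function in barycentric coordinates -/
theorem IsAff.bary {f : Pt → ℝ} (hf : IsAff f) (h : ori p q r ≠ 0) (z : Pt) :
    f z = bA p q r z * f p + bB p q r z * f q + bC p q r z * f r := by
  have s := bary_sum h z
  have e1 := bary_fst h z
  have e2 := bary_snd h z
  set a := bA p q r z
  set b := bB p q r z
  set c := bC p q r z
  -- z is the midpoint of lerp p q (2b) and lerp p r (2c)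
  have hz : z = lerp (lerp p q (2 * b)) (lerp p r (2 * c)) (1 / 2) := by
    have ha : a = 1 - b - c := by linarith
    rw [ha] at e1 e2
    ext
    · simp only [lerp_fst]; linarith
    · simp only [lerp_snd]; linarith
  have ha : a = 1 - b - c := by linarith
  conv_lhs => rw [hz]
  rw [hf, hf, hf, ha]; ring

end Bary

/-- No point of `P` lies on the segment except its endpoints. -/
def Prim (P : Set Pt) (a b : Pt) : Prop := ∀ z ∈ P, z ∈ segment ℝ a b → z = a ∨ z = b

theorem Prim.symm {P : Set Pt} {a b : Pt} (h : Prim P a b) : Prim P b a :=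
  fun z hz hs => (h z hz (by rwa [segment_symm])).symm

theorem param_of_ori {a b g : Pt} (hab : a ≠ b) (h : ori a b g = 0) : ∃ t, g = lerp a b t := by
  unfold ori at h
  by_cases h1 : b.1 - a.1 = 0
  · have h2 : b.2 - a.2 ≠ 0 := by
      intro h2; exact hab (by ext <;> linarith)
    refine ⟨(g.2 - a.2) / (b.2 - a.2), ?_⟩
    rw [h1] at h
    have h3 : g.1 - a.1 = 0 := by
      rcases mul_eq_zero.1 (show (b.2 - a.2) * (g.1 - a.1) = 0 by linarith) with h | h
      · exact absurd h h2
      · exact h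
    ext
    · simp only [lerp_fst, h1]; linarith
    · simp only [lerp_snd]; field_simp; ring
  · refine ⟨(g.1 - a.1) / (b.1 - a.1), ?_⟩
    ext
    · simp only [lerp_fst]; field_simp; ring
    · simp only [lerp_snd]; field_simp; linarith

theorem lerp_inj {a b : Pt} (hab : a ≠ b) {s t : ℝ} (h : lerp a b s = lerp a b t) : s = t := by
  by_contra hst
  have h1 := congrArg Prod.fst h
  have h2 := congrArg Prod.snd h
  simp only [lerp_fst, lerp_snd] at h1 h2
  have hne : s - t ≠ 0 := sub_ne_zero.2 hst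
  apply hab
  ext
  · have : (s - t) * (b.1 - a.1) = 0 := by linarith
    rcases mul_eq_zero.1 this with h | h
    · exact absurd h hne
    · linarith
  · have : (s - t) * (b.2 - a.2) = 0 := by linarith
    rcases mul_eq_zero.1 this with h | h
    · exact absurd h hne
    · linarith

theorem lerp_lerp (a b : Pt) (s t u : ℝ) :
    lerp (lerp a b s) (lerp a b t) u = lerp a b (s + u * (t - s)) := by
  ext <;> simp only [lerp_fst, lerp_snd] <;> ring

theorem lerp_mem_lerp (a b : Pt) {s t u : ℝ} (h1 : s ≤ u) (h2 : u ≤ t) :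
    lerp a b u ∈ segment ℝ (lerp a b s) (lerp a b t) := by
  rcases eq_or_lt_of_le (h1.trans h2) with h | h
  · have : u = s := by linarith
    rw [this]; exact left_mem_segment _ _ _
  · refine mem_seg_iff.2 ⟨(u - s) / (t - s), div_nonneg (by linarith) (by linarith),
      (div_le_one (by linarith)).2 (by linarith), ?_⟩
    rw [lerp_lerp]; congr 1; have : t - s ≠ 0 := by linarith
    field_simp; ring

theorem col_aux {P : Set Pt} {a b : Pt} (hab : a ≠ b) (ha : a ∈ P) (hb : b ∈ P)
    (hp : Prim P a b) {s t u : ℝ} (hg : lerp a b s ∈ P) (hh : lerp a b t ∈ P)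
    (hp' : Prim P (lerp a b s) (lerp a b t)) (h0 : 0 < u) (h1 : u < 1) (hs : s < u)
    (ht : u < t) : s = 0 ∧ t = 1 := by
  constructor
  · rcases lt_trichotomy s 0 with h | h | h
    · have : a ∈ segment ℝ (lerp a b s) (lerp a b t) := by
        have := lerp_mem_lerp a b (u := 0) h.le (by linarith)
        rwa [lerp_zero] at this
      rcases hp' a ha this with e | e
      · have := lerp_inj hab (s := 0) (t := s) (by rw [lerp_zero]; exact e); linarith
      · have := lerp_inj hab (s := 0) (t := t) (by rw [lerp_zero]; exact e); linarith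
    · exact h
    · rcases hp _ hg (lerp_mem h.le (by linarith)) with e | e
      · have := lerp_inj hab (s := s) (t := 0) (by rw [lerp_zero]; exact e); linarith
      · have := lerp_inj hab (s := s) (t := 1) (by rw [lerp_one]; exact e); linarith
  · rcases lt_trichotomy t 1 with h | h | h
    · rcases hp _ hh (lerp_mem (by linarith) h.le) with e | e
      · have := lerp_inj hab (s := t) (t := 0) (by rw [lerp_zero]; exact e); linarith
      · have := lerp_inj hab (s := t) (t := 1) (by rw [lerp_one]; exact e); linarith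
    · exact h
    · have : b ∈ segment ℝ (lerp a b s) (lerp a b t) := by
        have := lerp_mem_lerp a b (u := 1) (s := s) (by linarith) h.le
        rwa [lerp_one] at this
      rcases hp' b hb this with e | e
      · have := lerp_inj hab (s := 1) (t := s) (by rw [lerp_one]; exact e); linarith
      · have := lerp_inj hab (s := 1) (t := t) (by rw [lerp_one]; exact e); linarith

/-- a point of a segment that is not in `P` has a parameter strictly between 0 and 1 -/
theorem param_strict {P : Set Pt} {a b y : Pt} (ha : a ∈ P) (hb : b ∈ P)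
    (hy : y ∈ segment ℝ a b) (hyP : y ∉ P) : ∃ t, 0 < t ∧ t < 1 ∧ y = lerp a b t := by
  obtain ⟨t, h0, h1, rfl⟩ := mem_seg_iff.1 hy
  refine ⟨t, lt_of_le_of_ne h0 ?_, lt_of_le_of_ne h1 ?_, rfl⟩
  · rintro rfl; exact hyP (by simpa using ha)
  · rintro rfl; exact hyP (by simpa using hb)

/-- Two collinear primitive segments with a common point outside `P` coincide. -/
theorem col {P : Set Pt} {a b g h y : Pt} (hab : a ≠ b) (ha : a ∈ P) (hb : b ∈ P)
    (hg : g ∈ P) (hh : h ∈ P) (hp : Prim P a b) (hp' : Prim P g h) (hy : y ∈ segment ℝ a b)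
    (hy' : y ∈ segment ℝ g h) (hyP : y ∉ P) (o1 : ori a b g = 0) (o2 : ori a b h = 0) :
    s(g, h) = s(a, b) := by
  obtain ⟨s, rfl⟩ := param_of_ori hab o1
  obtain ⟨t, rfl⟩ := param_of_ori hab o2
  obtain ⟨u, u0, u1, rfl⟩ := param_strict ha hb hy hyP
  obtain ⟨v, v0, v1, e⟩ := param_strict hg hh hy' hyP
  rw [lerp_lerp] at e
  have e' := lerp_inj hab e
  rcases lt_trichotomy s t with hst | hst | hst
  · obtain ⟨rfl, rfl⟩ := col_aux hab ha hb hp hg hh hp' u0 u1 (by nlinarith) (by nlinarith)
    simp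
  · subst hst
    have : u = s := by linarith
    subst this; exact absurd hg hyP
  · obtain ⟨rfl, rfl⟩ := col_aux hab ha hb hp hh hg hp'.symm u0 u1 (by nlinarith) (by nlinarith)
    simp [Sym2.eq_swap]

end Pool.Agent.MP_2e9a04_lc.H93
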