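import Pool.Agent.MP_2e9a04_lc.H93.Strip

set_option autoImplicit false

namespace Pool.Agent.MP_2e9a04_lc.H93

variable {P : Set Pt} {T : Set (Sym2 Pt)}

/-- the row at height `h` consists of the points with abscissae `x 0, …, x (N-1)` -/
structure FullRow (P : Set Pt) (N : ℕ) (x : ℕ → ℝ) (h : ℝ) : Prop where
  mem : ∀ i < N, (x i, h) ∈ P
  only : ∀ a, (a, h) ∈ P → ∃ i, a = x i

/-- the row at height `h` has isolated holes, none of them bridged by an edge of `T` -/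
structure HoleRow (P : Set Pt) (T : Set (Sym2 Pt)) (N : ℕ) (x : ℕ → ℝ) (h : ℝ) : Prop where
  only : ∀ a, (a, h) ∈ P → ∃ i, a = x i
  zero : (x 0, h) ∈ P
  hole : ∀ k < N, (x k, h) ∉ P → ∃ k', k = k' + 1 ∧ (x k', h) ∈ P ∧ (x (k' + 2), h) ∈ P ∧
    s((x k', h), (x (k' + 2), h)) ∉ T

/-- edges whose right triangle has its third vertex below the strip -/
def Slow (T : Set (Sym2 Pt)) (y0 y1 : ℝ) : Set (Pt × Pt) :=
  {e ∈ Eup T y0 y1 | ∃ r, Apex T e.1 e.2 r ∧ r.2 ≤ y0}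

/-- edges whose right triangle has its third vertex above the strip -/
def Shigh (T : Set (Sym2 Pt)) (y0 y1 : ℝ) : Set (Pt × Pt) :=
  {e ∈ Eup T y0 y1 | ∃ r, Apex T e.1 e.2 r ∧ y1 ≤ r.2}

theorem tok_unique {N : ℕ} {x : ℕ → ℝ} (hx : StrictMono x) {h : ℝ} (R : HoleRow P T N x h)
    {i j : ℕ} (hi : i < N) (hj : j < N) {b : ℝ}
    (h1 : ((x i, h) ∈ P ∧ b = x i) ∨ ((x i, h) ∉ P ∧ x (i - 1) < b ∧ b < x (i + 1)))
    (h2 : ((x j, h) ∈ P ∧ b = x j) ∨ ((x j, h) ∉ P ∧ x (j - 1) < b ∧ b < x (j + 1))) :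
    i = j := by
  rcases h1 with ⟨a1, a2⟩ | ⟨a1, a2, a3⟩ <;> rcases h2 with ⟨b1, b2⟩ | ⟨b1, b2, b3⟩
  · exact hx.injective (a2.symm.trans b2)
  · obtain ⟨k, rfl, -⟩ := R.hole j hj b1
    rw [a2, hx.lt_iff_lt] at b2 b3; omega
  · obtain ⟨k, rfl, -⟩ := R.hole i hi a1
    rw [b2, hx.lt_iff_lt] at a2 a3; omega
  · obtain ⟨k, rfl, c1, c2, -⟩ := R.hole i hi a1
    obtain ⟨l, rfl, d1, d2, -⟩ := R.hole j hj b1
    have e1 := hx.lt_iff_lt.1 (a2.trans b3)
    have e2 := hx.lt_iff_lt.1 (b2.trans a3)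
    have : l = k ∨ l = k + 1 ∨ k = l + 1 := by omega
    rcases this with rfl | rfl | rfl
    · rfl
    · exact absurd c2 b1
    · exact absurd d2 a1

theorem HoleRow.between {N : ℕ} {x : ℕ → ℝ} (hx : StrictMono x) {h : ℝ} (R : HoleRow P T N x h)
    {k : ℕ} (hk : (x (k + 1), h) ∉ P) : ∀ c, x k < c → c < x (k + 2) → (c, h) ∉ P := by
  intro c c1 c2 hc
  obtain ⟨i, rfl⟩ := R.only c hc
  rw [hx.lt_iff_lt] at c1 c2
  have : i = k + 1 := by omega
  exact hk (this ▸ hc)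

theorem FullRow.between {N : ℕ} {x : ℕ → ℝ} (hx : StrictMono x) {h : ℝ} (R : FullRow P N x h)
    {k : ℕ} : ∀ c, x k < c → c < x (k + 1) → (c, h) ∉ P := by
  intro c c1 c2 hc
  obtain ⟨i, rfl⟩ := R.only c hc
  rw [hx.lt_iff_lt] at c1 c2
  omega

namespace IsStrip

variable {y0 y1 : ℝ} (H : IsStrip P T y0 y1) {N : ℕ} {x : ℕ → ℝ} (hx : StrictMono x)
include H hx

theorem count_high {b : ℝ} (hb : (b, y0) ∈ P) (R : HoleRow P T N x y1) :
    N ≤ (Eup T y0 y1 \ Slow T y0 y1).ncard := by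
  have hl := H.lt
  refine card_ge (H.finite.subset Set.sdiff_subset) N (fun k e =>
    ((x k, y1) ∈ P ∧ pos y1 e = x k) ∨
      ((x k, y1) ∉ P ∧ x (k - 1) < pos y1 e ∧ pos y1 e < x (k + 1))) (fun k hk => ?_)
    fun i hi j hj e h1 h2 => tok_unique hx R hi hj h1 h2
  by_cases hP : (x k, y1) ∈ P
  · obtain ⟨e0, h0, p0⟩ := H.edge_high hP hb
    obtain ⟨e, he, hA, ⟨-, m⟩, hn⟩ := H.last (fun e => pos y1 e ≤ x k) h0 p0.le
    have pe : pos y1 e = x k := le_antisymm hA (p0 ▸ m)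
    refine ⟨e, ⟨he, ?_⟩, Or.inl ⟨hP, pe⟩⟩
    rintro ⟨-, r, hr, r0⟩
    rcases H.next_of_apex he hr with ⟨-, n⟩ | ⟨r1, -⟩
    · exact hn _ n (H.pos_high n.1 (H.high_eq he hP pe)).le
    · linarith
  · obtain ⟨k', rfl, c1, c2, c3⟩ := R.hole k hk hP
    obtain ⟨e0, a1, a2, a3, a4, a5⟩ := blocked_horiz H.tri (hx (by omega)) c1 c2
      (R.between hx hP) c3
    have h0 : e0 ∈ Eup T y0 y1 :=
      ⟨a1, (H.gap _ (H.tri.prop.left a1)).resolve_right (by linarith), a3.le⟩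
    obtain ⟨e, he, hA, ⟨-, m⟩, hn⟩ := H.last (fun e => pos y1 e < x (k' + 2)) h0 a5
    refine ⟨e, ⟨he, ?_⟩, Or.inr ⟨hP, by simpa using a4.trans_le m, hA⟩⟩
    rintro ⟨-, r, hr, r0⟩
    rcases H.next_of_apex he hr with ⟨-, n⟩ | ⟨r1, -⟩
    · obtain ⟨e1, h1, p1⟩ := H.edge_high c2 hb
      have b1 := H.next_le_high he n h1 (p1 ▸ hA)
      have b2 := H.high_eq n.1 c2 (le_antisymm (p1 ▸ b1) (not_lt.1 (hn _ n)))
      have b3 := H.pos_high he b2
      linarith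
    · linarith

theorem count_low {b : ℝ} (hb : (b, y1) ∈ P) (R : HoleRow P T N x y0) :
    N ≤ (Eup T y0 y1 \ Shigh T y0 y1).ncard := by
  have hl := H.lt
  refine card_ge (H.finite.subset Set.sdiff_subset) N (fun k e =>
    ((x k, y0) ∈ P ∧ pos y0 e = x k) ∨
      ((x k, y0) ∉ P ∧ x (k - 1) < pos y0 e ∧ pos y0 e < x (k + 1))) (fun k hk => ?_)
    fun i hi j hj e h1 h2 => tok_unique hx R hi hj h1 h2
  by_cases hP : (x k, y0) ∈ P
  · obtain ⟨e0, h0, p0⟩ := H.edge_low hP hb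
    obtain ⟨e, he, hA, ⟨m, -⟩, hn⟩ := H.last (fun e => pos y0 e ≤ x k) h0 p0.le
    have pe : pos y0 e = x k := le_antisymm hA (p0 ▸ m)
    refine ⟨e, ⟨he, ?_⟩, Or.inl ⟨hP, pe⟩⟩
    rintro ⟨-, r, hr, r0⟩
    rcases H.next_of_apex he hr with ⟨r1, -⟩ | ⟨-, n⟩
    · linarith
    · exact hn _ n (H.pos_low n.1 (H.low_eq he hP pe)).le
  · obtain ⟨k', rfl, c1, c2, c3⟩ := R.hole k hk hP
    obtain ⟨e0, a1, a2, a3, a4, a5⟩ := blocked_horiz H.tri (hx (by omega)) c1 c2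
      (R.between hx hP) c3
    have h0 : e0 ∈ Eup T y0 y1 :=
      ⟨a1, a2.le, (H.gap _ (H.tri.prop.right a1)).resolve_left (by linarith)⟩
    obtain ⟨e, he, hA, ⟨m, -⟩, hn⟩ := H.last (fun e => pos y0 e < x (k' + 2)) h0 a5
    refine ⟨e, ⟨he, ?_⟩, Or.inr ⟨hP, by simpa using a4.trans_le m, hA⟩⟩
    rintro ⟨-, r, hr, r0⟩
    rcases H.next_of_apex he hr with ⟨r1, -⟩ | ⟨-, n⟩
    · linarith
    · obtain ⟨e1, h1, p1⟩ := H.edge_low c2 hb
      have b1 := H.next_le_low he n h1 (p1 ▸ hA)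
      have b2 := H.low_eq n.1 c2 (le_antisymm (p1 ▸ b1) (not_lt.1 (hn _ n)))
      have b3 := H.pos_low he b2
      linarith

theorem count_slow {b : ℝ} (hb : (b, y1) ∈ P) (R : FullRow P N x y0) :
    N - 1 ≤ {e ∈ Slow T y0 y1 | e.1.2 = y0}.ncard := by
  refine card_ge (H.finite.subset fun _ h => h.1.1) (N - 1) (fun i e => pos y0 e = x i)
    (fun i hi => ?_) fun i _ j _ e h1 h2 => hx.injective (h1.symm.trans h2)
  have hP := R.mem i (by omega)
  obtain ⟨e0, h0, p0⟩ := H.edge_low hP hb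
  obtain ⟨e, he, hA, ⟨m, -⟩, hn⟩ := H.last (fun e => pos y0 e ≤ x i) h0 p0.le
  have pe : pos y0 e = x i := le_antisymm hA (p0 ▸ m)
  have e1 := H.low_eq he hP pe
  obtain ⟨r, hr⟩ := H.apex_of he (R.mem (i + 1) (by omega)) (pe ▸ hx (by omega))
  refine ⟨e, ⟨⟨he, r, hr, ?_⟩, by rw [e1]⟩, pe⟩
  rcases H.next_of_apex he hr with ⟨r1, -⟩ | ⟨-, n⟩
  · exact r1
  · exact absurd (H.pos_low n.1 e1).le (hn _ n)

theorem count_shigh {b : ℝ} (hb : (b, y0) ∈ P) (R : FullRow P N x y1) :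
    N - 1 ≤ {e ∈ Shigh T y0 y1 | e.2.2 = y1}.ncard := by
  refine card_ge (H.finite.subset fun _ h => h.1.1) (N - 1) (fun i e => pos y1 e = x i)
    (fun i hi => ?_) fun i _ j _ e h1 h2 => hx.injective (h1.symm.trans h2)
  have hP := R.mem i (by omega)
  obtain ⟨e0, h0, p0⟩ := H.edge_high hP hb
  obtain ⟨e, he, hA, ⟨-, m⟩, hn⟩ := H.last (fun e => pos y1 e ≤ x i) h0 p0.le
  have pe : pos y1 e = x i := le_antisymm hA (p0 ▸ m)
  have e1 := H.high_eq he hP pe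
  obtain ⟨r, hr⟩ := H.apex_of he (R.mem (i + 1) (by omega)) (pe ▸ hx (by omega))
  refine ⟨e, ⟨⟨he, r, hr, ?_⟩, by rw [e1]⟩, pe⟩
  rcases H.next_of_apex he hr with ⟨-, n⟩ | ⟨r1, -⟩
  · exact absurd (H.pos_high n.1 e1).le (hn _ n)
  · exact r1

theorem count_walls {b : ℝ} (hb : (b, y1) ∈ P) (R : FullRow P N x y0) :
    N - 1 ≤ ({e : Pt × Pt | s(e.1, e.2) ∈ T ∧ e.1.2 = y0 ∧ e.2.2 = y0 ∧ e.1.1 < e.2.1} ∪
      {e ∈ Eup T y0 y1 | e.1.2 < y0 ∧ ∃ r, Apex T e.1 e.2 r ∧ r.2 = y0}).ncard := by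
  refine card_ge (Set.Finite.union ((H.fin.prod H.fin).subset fun _ he =>
      ⟨H.tri.prop.left he.1, H.tri.prop.right he.1⟩) (H.finite.subset fun _ h => h.1)) (N - 1)
    (fun i e => x i ≤ pos y0 e ∧ pos y0 e < x (i + 1)) (fun i hi => ?_)
    fun i _ j _ e h1 h2 => ?_
  · have c1 := R.mem i (by omega)
    have c2 := R.mem (i + 1) (by omega)
    have hlt : x i < x (i + 1) := hx (by omega)
    by_cases hw : s((x i, y0), (x (i + 1), y0)) ∈ T
    · exact ⟨((x i, y0), (x (i + 1), y0)), Or.inl ⟨hw, rfl, rfl, hlt⟩, by simp [pos], by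
        simpa [pos] using hlt⟩
    · obtain ⟨e0, a1, a2, a3, a4, a5⟩ := blocked_horiz H.tri hlt c1 c2 (R.between hx) hw
      have h0 : e0 ∈ Eup T y0 y1 :=
        ⟨a1, a2.le, (H.gap _ (H.tri.prop.right a1)).resolve_left (by linarith)⟩
      obtain ⟨e, he, hA, ⟨m, -⟩, hn⟩ := H.last (fun e => pos y0 e < x (i + 1)) h0 a5
      have l1 : x i < pos y0 e := a4.trans_le m
      have l2 : e.1.2 < y0 := by
        refine lt_of_le_of_ne he.2.1 fun h => ?_
        have e1 : e.1 = (e.1.1, y0) := by rw [← h]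
        have e2 := H.pos_low he e1
        refine R.between hx _ l1 hA ?_
        rw [e2, ← e1]; exact H.tri.prop.left he.1
      obtain ⟨r, hr⟩ := H.apex_of he c2 hA
      refine ⟨e, Or.inr ⟨he, l2, r, hr, ?_⟩, l1.le, hA⟩
      obtain ⟨e1, h1, p1⟩ := H.edge_low c2 hb
      have key : ∀ e', Next T y0 y1 e e' → e'.1 = (x (i + 1), y0) := fun e' n =>
        H.low_eq n.1 c2 (le_antisymm (p1 ▸ H.next_le_low he n h1 (p1 ▸ hA))
          (not_lt.1 (hn _ n)))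
      rcases H.next_of_apex he hr with ⟨-, n⟩ | ⟨-, n⟩
      · have := key _ n
        simp only at this; rw [this]
      · have := key _ n
        simp only at this; rw [this] at l2; exact absurd l2 (lt_irrefl _)
  · have e1 := hx.lt_iff_lt.1 (h1.1.trans_lt h2.2)
    have e2 := hx.lt_iff_lt.1 (h2.1.trans_lt h1.2)
    omega

end IsStrip

/-- KEY LEMMA: a full row whose neighbouring rows have no bridged hole is met by at least
`5 N - 3` edges. -/
theorem key_row {ym y0 yp : ℝ} (Hm : IsStrip P T ym y0) (Hp : IsStrip P T y0 yp) {N : ℕ}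
    {x : ℕ → ℝ} (hx : StrictMono x) (hN : 1 ≤ N) (hb : ∀ z ∈ P, z.1 ≤ x (N - 1))
    (R0 : FullRow P N x y0) (Rm : HoleRow P T N x ym) (Rp : HoleRow P T N x yp) :
    5 * N - 3 ≤ (stabbed T 0 1 y0).ncard := by
  have hP := Hp.tri.prop
  have lm := Hm.lt
  have lp := Hp.lt
  set A := Eup T y0 yp with hA
  set B := Eup T ym y0 with hB
  set SA := Slow T y0 yp with hSA
  set SB := Shigh T ym y0 with hSB
  set W := {e : Pt × Pt | s(e.1, e.2) ∈ T ∧ e.1.2 = y0 ∧ e.2.2 = y0 ∧ e.1.1 < e.2.1} with hW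
  set X := A ∩ B with hX
  have fA : A.Finite := Hp.finite
  have fB : B.Finite := Hm.finite
  have fW : W.Finite := (Hp.fin.prod Hp.fin).subset fun _ he => ⟨hP.left he.1, hP.right he.1⟩
  have v0 := R0.mem 0 (by omega)
  have c1 : N ≤ (A \ SA).ncard := Hp.count_high hx v0 Rp
  have c2 : N ≤ (B \ SB).ncard := Hm.count_low hx v0 Rm
  have c3 : N - 1 ≤ (SA \ X).ncard := (Hp.count_slow hx Rp.zero R0).trans
    (Set.ncard_le_ncard (by
      rintro e ⟨h1, h2⟩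
      refine ⟨h1, fun h3 => ?_⟩
      have := h3.2.2.1; linarith) (fA.subset fun _ h => h.1.1))
  have c4 : N - 1 ≤ (SB \ X).ncard := (Hm.count_shigh hx Rm.zero R0).trans
    (Set.ncard_le_ncard (by
      rintro e ⟨h1, h2⟩
      refine ⟨h1, fun h3 => ?_⟩
      have := h3.1.2.2; linarith) (fB.subset fun _ h => h.1.1))
  have hXmem : ∀ e ∈ A, e.1.2 < y0 → e ∈ X := fun e he h =>
    ⟨he, he.1, (Hm.gap _ (hP.left he.1)).resolve_right (by linarith), by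
      have := he.2.2; linarith⟩
  have c5 : N - 1 ≤ W.ncard + (SA ∩ X ∩ (SB ∩ X)).ncard := by
    refine (Hp.count_walls hx Rp.zero R0).trans ((Set.ncard_union_le _ _).trans ?_)
    refine Nat.add_le_add_left (Set.ncard_le_ncard ?_ (fA.subset fun _ h => h.1.1.1)) _
    rintro e ⟨h1, h2, r, hr, r0⟩
    have := hXmem e h1 h2
    exact ⟨⟨⟨h1, r, hr, r0.le⟩, this⟩, ⟨this.2, r, hr, r0.ge⟩, this⟩
  have c6 : X ⊆ SA ∩ X ∪ SB ∩ X := by
    intro e he
    have l1 : e.1.2 < y0 := by have := he.2.2.1; linarith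
    have vN := R0.mem (N - 1) (by omega)
    have m1 := pos_mem (h := y0) (Hp.up he.1) l1.le (by linarith [he.1.2.2])
    have l2 : pos y0 e ≤ x (N - 1) := by
      rcases isAff_fst.le_or_le m1 with h | h
      · exact h.trans (hb _ (hP.left he.1.1))
      · exact h.trans (hb _ (hP.right he.1.1))
    have l3 : pos y0 e < x (N - 1) := by
      refine lt_of_le_of_ne l2 fun h => ?_
      have := Hp.low_eq he.1 vN h
      rw [this] at l1; exact lt_irrefl _ l1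
    obtain ⟨r, hr⟩ := Hp.apex_of he.1 vN l3
    rcases le_total r.2 y0 with h | h
    · exact Or.inl ⟨⟨he.1, r, hr, h⟩, he⟩
    · exact Or.inr ⟨⟨he.2, r, hr, h⟩, he⟩
  have sA : SA ⊆ A := fun _ h => h.1
  have sB : SB ⊆ B := fun _ h => h.1
  have d1 := Set.ncard_sdiff_add_ncard_of_subset sA fA
  have d2 := Set.ncard_sdiff_add_ncard_of_subset sB fB
  have d3 := Set.ncard_inter_add_ncard_sdiff_eq_ncard SA X (fA.subset sA)
  have d4 := Set.ncard_inter_add_ncard_sdiff_eq_ncard SB X (fB.subset sB)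
  have d5 := Set.ncard_union_add_ncard_inter (SA ∩ X) (SB ∩ X) (fA.subset fun _ h => h.1.1)
    (fB.subset fun _ h => h.1.1)
  have d6 := Set.ncard_le_ncard c6 ((fA.subset fun _ h => h.1.1).union
    (fB.subset fun _ h => h.1.1))
  have d7 := Set.ncard_union_add_ncard_inter A B fA fB
  have d8 : (W ∪ (A ∪ B)).ncard = W.ncard + (A ∪ B).ncard := by
    refine Set.ncard_union_eq ?_ fW (fA.union fB)
    rw [Set.disjoint_left]
    rintro e ⟨-, h1, h2, -⟩ (h | h)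
    · have := h.2.2; linarith
    · have := h.2.1; linarith
  have d9 : (W ∪ (A ∪ B)).ncard ≤ (stabbed T 0 1 y0).ncard := by
    have hor : ∀ e ∈ W ∪ (A ∪ B), e.1.2 < e.2.2 ∨ (e.1.2 = e.2.2 ∧ e.1.1 < e.2.1) := by
      rintro e (h | h | h)
      · exact Or.inr ⟨h.2.1.trans h.2.2.1.symm, h.2.2.2⟩
      · exact Or.inl (Hp.up h)
      · exact Or.inl (Hm.up h)
    refine Set.ncard_le_ncard_of_injOn (fun e => s(e.1, e.2)) ?_ ?_
      ((hP.finite Hp.fin).subset fun _ h => h.1)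
    · rintro e (h | h | h)
      · exact ⟨h.1, e.1, left_mem_segment _ _ _, by simp [h.2.1]⟩
      · exact ⟨h.1, _, pos_mem (h := y0) (Hp.up h) h.2.1 (by linarith [h.2.2]), by simp⟩
      · exact ⟨h.1, _, pos_mem (h := y0) (Hm.up h) (by linarith [h.2.1]) h.2.2, by simp⟩
    · intro e he e' he' h
      rcases Sym2.eq_iff.1 h with ⟨a, b⟩ | ⟨a, b⟩
      · exact Prod.ext a b
      · have h1 := hor e he
        have h2 := hor e' he'
        rw [a, b] at h1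
        rcases h1 with h1 | ⟨h1, h1'⟩ <;> rcases h2 with h2 | ⟨h2, h2'⟩ <;> linarith
  rw [← hX] at d7
  omega

end Pool.Agent.MP_2e9a04_lc.H93
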