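import Mathlib

/-!
Triangulations of a planar point set as maximal non-crossing sets of segments, and their
stabbing number.
-/

set_option autoImplicit false

namespace Pool.Agent.MP_2e9a04_lc.H93

/-- Points of the real plane. -/
abbrev Pt : Type := ℝ × ℝ

/-- The closed straight-line segment with the given unordered pair of endpoints. -/
def seg (e : Sym2 Pt) : Set Pt :=
  Sym2.lift ⟨fun a b => segment ℝ a b, fun a b => segment_symm ℝ a b⟩ e

/-- `T` is a set of segments with two distinct endpoints in `P` such that no segment contains a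
point of `P` other than its endpoints and two different segments meet only at a common
endpoint. -/
structure IsPlane (P : Set Pt) (T : Set (Sym2 Pt)) : Prop where
  ends : ∀ e ∈ T, ¬ e.IsDiag ∧ ∀ a ∈ e, a ∈ P
  prim : ∀ e ∈ T, ∀ z ∈ P, z ∈ seg e → z ∈ e
  cross : ∀ e ∈ T, ∀ e' ∈ T, e ≠ e' → ∀ z, z ∈ seg e → z ∈ seg e' → z ∈ e ∧ z ∈ e'

/-- A triangulation of `P`: an inclusion-maximal non-crossing set of segments. -/
def IsTriangulation (P : Set Pt) (T : Set (Sym2 Pt)) : Prop := Maximal (IsPlane P) T

/-- The segments of `T` that meet the line `a x + b y = c`. -/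
def stabbed (T : Set (Sym2 Pt)) (a b c : ℝ) : Set (Sym2 Pt) :=
  {e ∈ T | ∃ z ∈ seg e, a * z.1 + b * z.2 = c}

/-- The stabbing number of `T` is at most `k`: every line of the plane meets at most `k`
segments of `T`. -/
def StabLE (T : Set (Sym2 Pt)) (k : ℕ) : Prop :=
  ∀ a b c : ℝ, (a ≠ 0 ∨ b ≠ 0) → (stabbed T a b c).encard ≤ k

/-- The set of real points given by a list of rational points. -/
def pts (l : List (ℚ × ℚ)) : Set Pt := {z | ∃ q ∈ l, z = ((q.1 : ℝ), (q.2 : ℝ))}

/-- Well-formed inputs: at least three points, not all on one line. -/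
def ValidInput (I : List (ℚ × ℚ) × ℕ) : Prop :=
  I.1.Nodup ∧ 3 ≤ I.1.length ∧ ¬ Collinear ℝ (pts I.1)

/-- The yes-instances of MIN-STAB-TRI. -/
def MinStabTri (I : List (ℚ × ℚ) × ℕ) : Prop :=
  ∃ T, IsTriangulation (pts I.1) T ∧ StabLE T I.2

@[simp] theorem seg_mk (a b : Pt) : seg s(a, b) = segment ℝ a b := rfl

end Pool.Agent.MP_2e9a04_lc.H93
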