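import Pool.Agent.MP_2e9a04_lc.H93.Sound

set_option autoImplicit false

namespace Pool.Agent.MP_2e9a04_lc.H93

theorem seg_horiz {a b h : ℝ} (hab : a ≤ b) {z : Pt} :
    z ∈ segment ℝ (a, h) (b, h) ↔ z.2 = h ∧ a ≤ z.1 ∧ z.1 ≤ b := by
  rw [mem_seg_iff]
  constructor
  · rintro ⟨t, t0, t1, rfl⟩
    simp only [lerp_fst, lerp_snd]
    refine ⟨by ring, by nlinarith, by nlinarith⟩
  · rintro ⟨h1, h2, h3⟩
    rcases eq_or_lt_of_le hab with e | e
    · exact ⟨0, le_rfl, zero_le_one, by ext <;> simp <;> linarith⟩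
    · refine ⟨(z.1 - a) / (b - a), div_nonneg (by linarith) (by linarith),
        (div_le_one (by linarith)).2 (by linarith), ?_⟩
      have : b - a ≠ 0 := by linarith
      ext
      · simp only [lerp_fst]; field_simp; ring
      · simp [h1]

theorem seg_vert {a c d : ℝ} (hcd : c ≤ d) {z : Pt} :
    z ∈ segment ℝ (a, c) (a, d) ↔ z.1 = a ∧ c ≤ z.2 ∧ z.2 ≤ d := by
  rw [← swap_mem_seg]; exact seg_horiz hcd

theorem seg_cases {p q z : Pt} (hz : z ∈ segment ℝ p q) :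
    z = p ∨ z = q ∨ ∃ t, 0 < t ∧ t < 1 ∧ z = lerp p q t := by
  obtain ⟨t, t0, t1, rfl⟩ := mem_seg_iff.1 hz
  rcases eq_or_lt_of_le t0 with h | h
  · left; rw [← h]; simp
  · rcases eq_or_lt_of_le t1 with h' | h'
    · right; left; rw [h']; simp
    · exact Or.inr (Or.inr ⟨t, h, h', rfl⟩)

/-- the data of the construction -/
structure Cfg where
  N : ℕ
  x : ℕ → ℝ
  y : ℕ → ℝ
  hole : ℕ → ℕ → Prop
  τ : ℕ → ℕ → Bool
  hx : StrictMono x
  hy : StrictMono y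
  hh : GoodHoles N hole

namespace Cfg

variable (C : Cfg)

/-- the point set -/
def P : Set Pt := gridSet C.N C.x C.y C.hole

open Classical in
/-- next column in which row `j` has a point -/
noncomputable def nx (i j : ℕ) : ℕ := if C.hole (i + 1) j then i + 2 else i + 1

open Classical in
/-- next row in which column `i` has a point -/
noncomputable def ny (i j : ℕ) : ℕ := if C.hole i (j + 1) then j + 2 else j + 1

/-- there is a horizontal edge to the right from position `(i, j)` -/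
def HE (i j : ℕ) : Prop :=
  i + 1 < C.N ∧ j < C.N ∧ ¬ C.hole i j ∧ (C.hole (i + 1) j → C.τ (i + 1) j = true)

/-- there is a vertical edge upwards from position `(i, j)` -/
def VE (i j : ℕ) : Prop :=
  i < C.N ∧ j + 1 < C.N ∧ ¬ C.hole i j ∧ (C.hole i (j + 1) → C.τ i (j + 1) = false)

/-- horizontal edge -/
noncomputable def hE (i j : ℕ) : Sym2 Pt := s((C.x i, C.y j), (C.x (C.nx i j), C.y j))

/-- vertical edge -/
noncomputable def vE (i j : ℕ) : Sym2 Pt := s((C.x i, C.y j), (C.x i, C.y (C.ny i j)))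

/-- the diagonal of a cell that joins its two corners of odd parity -/
def dE (i j : ℕ) : Sym2 Pt :=
  if (i + j) % 2 = 1 then s((C.x i, C.y j), (C.x (i + 1), C.y (j + 1)))
  else s((C.x (i + 1), C.y j), (C.x i, C.y (j + 1)))

/-- the triangulation -/
def T : Set (Sym2 Pt) :=
  {e | (∃ i j, C.HE i j ∧ e = C.hE i j) ∨ (∃ i j, C.VE i j ∧ e = C.vE i j) ∨
    ∃ i j, i + 1 < C.N ∧ j + 1 < C.N ∧ e = C.dE i j}

variable {C}

theorem nx_spec (i j : ℕ) : (C.hole (i + 1) j ∧ C.nx i j = i + 2) ∨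
    (¬ C.hole (i + 1) j ∧ C.nx i j = i + 1) := by
  unfold nx; split_ifs with h <;> simp [h]

theorem ny_spec (i j : ℕ) : (C.hole i (j + 1) ∧ C.ny i j = j + 2) ∨
    (¬ C.hole i (j + 1) ∧ C.ny i j = j + 1) := by
  unfold ny; split_ifs with h <;> simp [h]

theorem memP {i j : ℕ} : (C.x i, C.y j) ∈ C.P ↔ i < C.N ∧ j < C.N ∧ ¬ C.hole i j :=
  mem_gridSet C.hx C.hy

theorem odd_mem {i j : ℕ} (hi : i < C.N) (hj : j < C.N) (h : (i + j) % 2 = 1) :
    (C.x i, C.y j) ∈ C.P := memP.2 ⟨hi, hj, fun hh => by have := C.hh.even _ _ hh; omega⟩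

theorem nx_mem {i j : ℕ} (hi : i + 1 < C.N) (hj : j < C.N) : (C.x (C.nx i j), C.y j) ∈ C.P := by
  rcases nx_spec (C := C) i j with ⟨h, e⟩ | ⟨h, e⟩ <;> rw [e]
  · have := C.hh.inner _ _ h; have := C.hh.even _ _ h
    exact odd_mem (by omega) hj (by omega)
  · exact memP.2 ⟨hi, hj, h⟩

theorem ny_mem {i j : ℕ} (hi : i < C.N) (hj : j + 1 < C.N) : (C.x i, C.y (C.ny i j)) ∈ C.P := by
  rcases ny_spec (C := C) i j with ⟨h, e⟩ | ⟨h, e⟩ <;> rw [e]
  · have := C.hh.inner _ _ h; have := C.hh.even _ _ h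
    exact odd_mem hi (by omega) (by omega)
  · exact memP.2 ⟨hi, hj, h⟩

theorem lt_nx (i j : ℕ) : C.x i < C.x (C.nx i j) :=
  C.hx (by rcases nx_spec (C := C) i j with ⟨-, e⟩ | ⟨-, e⟩ <;> omega)

theorem lt_ny (i j : ℕ) : C.y j < C.y (C.ny i j) :=
  C.hy (by rcases ny_spec (C := C) i j with ⟨-, e⟩ | ⟨-, e⟩ <;> omega)

theorem mem_hE {i j : ℕ} {z : Pt} :
    z ∈ seg (C.hE i j) ↔ z.2 = C.y j ∧ C.x i ≤ z.1 ∧ z.1 ≤ C.x (C.nx i j) :=
  seg_horiz (lt_nx i j).le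

theorem mem_vE {i j : ℕ} {z : Pt} :
    z ∈ seg (C.vE i j) ↔ z.1 = C.x i ∧ C.y j ≤ z.2 ∧ z.2 ≤ C.y (C.ny i j) :=
  seg_vert (lt_ny i j).le

theorem inner_dE {i j : ℕ} {z : Pt} (hz : z ∈ seg (C.dE i j)) : z ∈ C.dE i j ∨
    (C.x i < z.1 ∧ z.1 < C.x (i + 1) ∧ C.y j < z.2 ∧ z.2 < C.y (j + 1)) := by
  have h1 : C.x i < C.x (i + 1) := C.hx (by omega)
  have h2 : C.y j < C.y (j + 1) := C.hy (by omega)
  unfold dE at hz ⊢
  split_ifs at hz ⊢ with h <;> rcases seg_cases hz with rfl | rfl | ⟨t, t0, t1, rfl⟩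
  · simp
  · simp
  · right; simp only [lerp_fst, lerp_snd]
    refine ⟨by nlinarith, by nlinarith, by nlinarith, by nlinarith⟩
  · simp
  · simp
  · right; simp only [lerp_fst, lerp_snd]
    refine ⟨by nlinarith, by nlinarith, by nlinarith, by nlinarith⟩

theorem box_dE {i j : ℕ} {z : Pt} (hz : z ∈ seg (C.dE i j)) :
    C.x i ≤ z.1 ∧ z.1 ≤ C.x (i + 1) ∧ C.y j ≤ z.2 ∧ z.2 ≤ C.y (j + 1) := by
  have h1 : C.x i < C.x (i + 1) := C.hx (by omega)
  have h2 : C.y j < C.y (j + 1) := C.hy (by omega)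
  unfold dE at hz
  split_ifs at hz with h <;> obtain ⟨t, t0, t1, rfl⟩ := mem_seg_iff.1 hz <;>
    simp only [lerp_fst, lerp_snd] <;>
    exact ⟨by nlinarith, by nlinarith, by nlinarith, by nlinarith⟩

/-- relative interior points of the edges -/
theorem inner {e : Sym2 Pt} (he : e ∈ C.T) {z : Pt} (hz : z ∈ seg e) (hn : z ∉ e) :
    (∃ i j, C.HE i j ∧ e = C.hE i j ∧ z.2 = C.y j ∧ C.x i < z.1 ∧ z.1 < C.x (C.nx i j)) ∨
    (∃ i j, C.VE i j ∧ e = C.vE i j ∧ z.1 = C.x i ∧ C.y j < z.2 ∧ z.2 < C.y (C.ny i j)) ∨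
    ∃ i j, e = C.dE i j ∧ C.x i < z.1 ∧ z.1 < C.x (i + 1) ∧ C.y j < z.2 ∧ z.2 < C.y (j + 1) := by
  rcases he with ⟨i, j, h, rfl⟩ | ⟨i, j, h, rfl⟩ | ⟨i, j, h1, h2, rfl⟩
  · obtain ⟨a1, a2, a3⟩ := mem_hE.1 hz
    refine Or.inl ⟨i, j, h, rfl, a1, lt_of_le_of_ne a2 fun e => hn ?_,
      lt_of_le_of_ne a3 fun e => hn ?_⟩
    · have : z = (C.x i, C.y j) := Prod.ext e.symm a1
      rw [this]; simp [hE]
    · have : z = (C.x (C.nx i j), C.y j) := Prod.ext e a1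
      rw [this]; simp [hE]
  · obtain ⟨a1, a2, a3⟩ := mem_vE.1 hz
    refine Or.inr (Or.inl ⟨i, j, h, rfl, a1, lt_of_le_of_ne a2 fun e => hn ?_,
      lt_of_le_of_ne a3 fun e => hn ?_⟩)
    · have : z = (C.x i, C.y j) := Prod.ext a1 e.symm
      rw [this]; simp [vE]
    · have : z = (C.x i, C.y (C.ny i j)) := Prod.ext a1 e
      rw [this]; simp [vE]
  · exact Or.inr (Or.inr ⟨i, j, rfl, (inner_dE hz).resolve_left hn⟩)

theorem HE_unique {i k j : ℕ} (h1 : C.HE i j) (h2 : C.HE k j) (a : i < C.nx k j)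
    (b : k < C.nx i j) : i = k := by
  rcases nx_spec (C := C) i j with ⟨c, e⟩ | ⟨c, e⟩ <;>
    rcases nx_spec (C := C) k j with ⟨c', e'⟩ | ⟨c', e'⟩
  · have := C.hh.even _ _ c; have := C.hh.even _ _ c'; omega
  · by_contra hne
    have : k = i + 1 := by omega
    exact h2.2.2.1 (this ▸ c)
  · by_contra hne
    have : i = k + 1 := by omega
    exact h1.2.2.1 (this ▸ c')
  · omega

theorem VE_unique {i k j : ℕ} (h1 : C.VE i j) (h2 : C.VE i k) (a : j < C.ny i k)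
    (b : k < C.ny i j) : j = k := by
  rcases ny_spec (C := C) i j with ⟨c, e⟩ | ⟨c, e⟩ <;>
    rcases ny_spec (C := C) i k with ⟨c', e'⟩ | ⟨c', e'⟩
  · have := C.hh.even _ _ c; have := C.hh.even _ _ c'; omega
  · by_contra hne
    have : k = j + 1 := by omega
    exact h2.2.2.1 (this ▸ c)
  · by_contra hne
    have : j = k + 1 := by omega
    exact h1.2.2.1 (this ▸ c')
  · omega

theorem plane : IsPlane C.P C.T := by
  have ends : ∀ e ∈ C.T, ¬ e.IsDiag ∧ ∀ a ∈ e, a ∈ C.P := by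
    have aux : ∀ p q : Pt, p ≠ q → p ∈ C.P → q ∈ C.P →
        ¬ s(p, q).IsDiag ∧ ∀ a ∈ s(p, q), a ∈ C.P := fun p q h hp hq =>
      ⟨by simpa using h, fun a ha => by rcases Sym2.mem_iff.1 ha with rfl | rfl <;> assumption⟩
    rintro e (⟨i, j, h, rfl⟩ | ⟨i, j, h, rfl⟩ | ⟨i, j, h1, h2, rfl⟩)
    · exact aux _ _ (fun e => (lt_nx i j).ne (congrArg Prod.fst e))
        (memP.2 ⟨by have := h.1; omega, h.2.1, h.2.2.1⟩) (nx_mem h.1 h.2.1)
    · exact aux _ _ (fun e => (lt_ny i j).ne (congrArg Prod.snd e))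
        (memP.2 ⟨h.1, by have := h.2.1; omega, h.2.2.1⟩) (ny_mem h.1 h.2.1)
    · have h3 : C.y j < C.y (j + 1) := C.hy (by omega)
      unfold dE
      split_ifs with h
      · exact aux _ _ (fun e => h3.ne (congrArg Prod.snd e))
          (odd_mem (by omega) (by omega) h) (odd_mem h1 h2 (by omega))
      · exact aux _ _ (fun e => h3.ne (congrArg Prod.snd e))
          (odd_mem h1 (by omega) (by omega)) (odd_mem (by omega) h2 (by omega))
  have prim : ∀ e ∈ C.T, ∀ z ∈ C.P, z ∈ seg e → z ∈ e := by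
    rintro e he _ ⟨k, hk, l, hl, hh, rfl⟩ hz
    by_contra hn
    rcases inner he hz hn with ⟨i, j, h, -, a1, a2, a3⟩ | ⟨i, j, h, -, a1, a2, a3⟩ |
      ⟨i, j, -, a1, a2, -⟩
    · obtain rfl := C.hy.injective a1
      simp only [C.hx.lt_iff_lt] at a2 a3
      rcases nx_spec (C := C) i l with ⟨c, e⟩ | ⟨c, e⟩
      · exact hh ((show i + 1 = k by omega) ▸ c)
      · omega
    · obtain rfl := C.hx.injective a1
      simp only [C.hy.lt_iff_lt] at a2 a3
      rcases ny_spec (C := C) k j with ⟨c, e⟩ | ⟨c, e⟩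
      · exact hh ((show j + 1 = l by omega) ▸ c)
      · omega
    · simp only [C.hx.lt_iff_lt] at a1 a2; omega
  refine ⟨ends, prim, fun e he e' he' hne z hz hz' => ?_⟩
  by_cases h1 : z ∈ e
  · exact ⟨h1, prim e' he' z ((ends e he).2 z h1) hz'⟩
  by_cases h2 : z ∈ e'
  · exact ⟨prim e he z ((ends e' he').2 z h2) hz, h2⟩
  exfalso
  have HV : ∀ i j k l, C.HE i j → C.VE k l → C.x i < C.x k → C.x k < C.x (C.nx i j) →
      C.y l < C.y j → C.y j < C.y (C.ny k l) → False := by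
    intro i j k l a b c1 c2 c3 c4
    simp only [C.hx.lt_iff_lt, C.hy.lt_iff_lt] at c1 c2 c3 c4
    rcases nx_spec (C := C) i j with ⟨c, e⟩ | ⟨c, e⟩ <;>
      rcases ny_spec (C := C) k l with ⟨c', e'⟩ | ⟨c', e'⟩ <;> try omega
    obtain rfl : k = i + 1 := by omega
    obtain rfl : j = l + 1 := by omega
    have t1 := a.2.2.2 c
    have t2 := b.2.2.2 c'
    rw [t1] at t2; exact absurd t2 (by simp)
  rcases inner he hz h1 with ⟨i, j, h, rfl, a1, a2, a3⟩ | ⟨i, j, h, rfl, a1, a2, a3⟩ |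
      ⟨i, j, rfl, a1, a2, a3, a4⟩ <;>
    rcases inner he' hz' h2 with ⟨k, l, h', rfl, b1, b2, b3⟩ | ⟨k, l, h', rfl, b1, b2, b3⟩ |
      ⟨k, l, rfl, b1, b2, b3, b4⟩
  · obtain rfl := C.hy.injective (a1.symm.trans b1)
    obtain rfl := HE_unique h h' (C.hx.lt_iff_lt.1 (a2.trans b3)) (C.hx.lt_iff_lt.1 (b2.trans a3))
    exact hne rfl
  · exact HV i j k l h h' (b1 ▸ a2) (b1 ▸ a3) (a1 ▸ b2) (a1 ▸ b3)
  · rw [a1, C.hy.lt_iff_lt] at b3 b4; omega
  · exact HV k l i j h' h (a1 ▸ b2) (a1 ▸ b3) (b1 ▸ a2) (b1 ▸ a3)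
  · obtain rfl := C.hx.injective (a1.symm.trans b1)
    obtain rfl := VE_unique h h' (C.hy.lt_iff_lt.1 (a2.trans b3)) (C.hy.lt_iff_lt.1 (b2.trans a3))
    exact hne rfl
  · rw [a1, C.hx.lt_iff_lt] at b1 b2; omega
  · rw [b1, C.hy.lt_iff_lt] at a3 a4; omega
  · rw [b1, C.hx.lt_iff_lt] at a1 a2; omega
  · have c1 := C.hx.lt_iff_lt.1 (a1.trans b2)
    have c2 := C.hx.lt_iff_lt.1 (b1.trans a2)
    have c3 := C.hy.lt_iff_lt.1 (a3.trans b4)
    have c4 := C.hy.lt_iff_lt.1 (b3.trans a4)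
    obtain rfl : i = k := by omega
    obtain rfl : j = l := by omega
    exact hne rfl

end Cfg

end Pool.Agent.MP_2e9a04_lc.H93
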