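import Pool.Agent.MP_2e9a04_lc.H93.Spec

set_option autoImplicit false

namespace Pool.Agent.MP_2e9a04_lc.H93

section Logic

variable (t : ℕ) (v : ℕ → ℕ) (s : ℕ → Bool)

/-- `b` is the cyclically next occurrence after `a` of the same variable -/
def Nxt (a b : ℕ) : Prop :=
  v a = v b ∧ ((a < b ∧ ∀ k < t, a < k → k < b → v k ≠ v a) ∨
    (b ≤ a ∧ ∀ k < t, (a < k ∨ k < b) → v k ≠ v a))

/-- position of the positive node of an occurrence -/
def pP (o : ℕ) : ℕ := 6 * o + if s o then 5 else 3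

/-- position of the negative node of an occurrence -/
def pN (o : ℕ) : ℕ := 6 * o + if s o then 3 else 5

/-- the holes that encode a formula -/
def Hole (i j : ℕ) : Prop :=
  (i = j ∧ (i % 6 = 0 ∨ 6 * t < i) ∧ 0 < i ∧ i ≤ 6 * t + 8) ∨
  (∃ o < t, i = pP s o ∧ j = pN s o) ∨
  (∃ a < t, ∃ b < t, Nxt t v a b ∧ i = pN s a ∧ j = pP s b) ∨
  ∃ a < t, ∃ b < t, a / 3 = b / 3 ∧ (a % 3 = 1 ↔ b % 3 ≠ 1) ∧ i = 6 * a + 1 ∧ j = 6 * b + 1

variable {t v s}

theorem nxt_total {a : ℕ} (ha : a < t) : ∃ b < t, Nxt t v a b := by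
  classical
  by_cases h : ∃ k, k < t ∧ a < k ∧ v k = v a
  · refine ⟨Nat.find h, (Nat.find_spec h).1, (Nat.find_spec h).2.2.symm,
      Or.inl ⟨(Nat.find_spec h).2.1, fun k h1 h2 h3 h4 => Nat.find_min h h3 ⟨h1, h2, h4⟩⟩⟩
  · have h' : ∃ k, v k = v a := ⟨a, rfl⟩
    have hle : Nat.find h' ≤ a := Nat.find_min' h' rfl
    refine ⟨Nat.find h', by omega, (Nat.find_spec h').symm, Or.inr ⟨hle, fun k h1 h2 h3 => ?_⟩⟩
    rcases h2 with h2 | h2
    · exact h ⟨k, h1, h2, h3⟩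
    · exact Nat.find_min h' h2 h3

theorem exists_greatest {p : ℕ → Prop} {n a : ℕ} (ha : a < n) (hp : p a) :
    ∃ b < n, p b ∧ a ≤ b ∧ ∀ k < n, b < k → ¬ p k := by
  classical
  have h1 := Nat.le_findGreatest (P := p) (show a ≤ n - 1 by omega) hp
  have h2 := Nat.findGreatest_le (P := p) (n - 1)
  exact ⟨Nat.findGreatest p (n - 1), by omega, Nat.findGreatest_spec (show a ≤ n - 1 by omega) hp,
    h1, fun k hk hb => Nat.findGreatest_is_greatest hb (by omega)⟩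

theorem nxt_surj {b : ℕ} (hb : b < t) : ∃ a < t, Nxt t v a b := by
  by_cases h : ∃ k < b, v k = v b
  · obtain ⟨k, h1, h2⟩ := h
    obtain ⟨a, a1, a2, -, a4⟩ := exists_greatest (p := fun k => v k = v b) h1 h2
    exact ⟨a, by omega, a2, Or.inl ⟨a1, fun l _ l2 l3 l4 => a4 l l3 l2 (l4.trans a2)⟩⟩
  · obtain ⟨a, a1, a2, a3, a4⟩ := exists_greatest (p := fun k => v k = v b) hb rfl
    refine ⟨a, a1, a2, Or.inr ⟨a3, fun l l1 l2 l3 => ?_⟩⟩
    rcases l2 with l2 | l2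
    · exact a4 l l1 l2 (l3.trans a2)
    · exact h ⟨l, l2, l3.trans a2⟩

theorem nxt_fun {a b c : ℕ} (hb : b < t) (hc : c < t) (h1 : Nxt t v a b) (h2 : Nxt t v a c) :
    b = c := by
  have key : ∀ {b c : ℕ}, b < t → c < t → Nxt t v a b → Nxt t v a c → ¬ b < c := by
    rintro b c hb hc ⟨e1, h1 | h1⟩ ⟨e2, h2 | h2⟩ h
    · exact h2.2 b hb h1.1 h e1.symm
    · omega
    · exact h1.2 c hc (Or.inl h2.1) e2.symm
    · exact h2.2 b hb (Or.inr h) e1.symm
  have := key hb hc h1 h2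
  have := key hc hb h2 h1
  omega

theorem nxt_inj {a b c : ℕ} (ha : a < t) (hb : b < t) (h1 : Nxt t v a c) (h2 : Nxt t v b c) :
    a = b := by
  have key : ∀ {a b : ℕ}, a < t → b < t → Nxt t v a c → Nxt t v b c → ¬ a < b := by
    rintro a b ha hb ⟨e1, h1 | h1⟩ ⟨e2, h2 | h2⟩ h
    · exact h1.2 b hb h h2.1 (e2.trans e1.symm)
    · exact h2.2 a ha (Or.inr h1.1) (e1.trans e2.symm)
    · omega
    · exact h1.2 b hb (Or.inl h) (e2.trans e1.symm)
  have := key ha hb h1 h2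
  have := key hb ha h2 h1
  omega

theorem nxt_const {Y : ℕ → Prop} (hY : ∀ a < t, ∀ b < t, Nxt t v a b → Y a → Y b) {a b : ℕ}
    (ha : a < t) (hb : b < t) (e : v a = v b) (h : Y a) : Y b := by
  have up : ∀ b < t, ∀ a ≤ b, v a = v b → Y a → Y b := by
    intro b
    induction b using Nat.strong_induction_on with
    | _ b ih =>
      intro hb a hab e h
      rcases eq_or_lt_of_le hab with rfl | hab
      · exact h
      obtain ⟨c, c1, c2, c3, c4⟩ := exists_greatest (p := fun k => v k = v b) hab e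
      exact hY c (by omega) b hb ⟨c2, Or.inl ⟨c1, fun l _ l2 l3 l4 => c4 l l3 l2 (l4.trans c2)⟩⟩
        (ih c c1 (by omega) a c3 (e.trans c2.symm) h)
  obtain ⟨c, c1, c2, c3, c4⟩ := exists_greatest (p := fun k => v k = v a) ha rfl
  obtain ⟨d, d1, d2⟩ := nxt_total (v := v) c1
  have hd := hY c c1 d d1 d2 (up c c1 a c3 c2.symm h)
  refine up b hb d ?_ (d2.1.symm.trans (c2.trans e)) hd
  rcases d2.2 with d3 | d3
  · exact absurd (d2.1.symm.trans c2) (c4 d d1 d3.1)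
  · by_contra hc
    exact d3.2 b hb (Or.inr (by omega)) (e.symm.trans c2.symm)

theorem pPN (o : ℕ) : (s o = true ∧ pP s o = 6 * o + 5 ∧ pN s o = 6 * o + 3) ∨
    (s o = false ∧ pP s o = 6 * o + 3 ∧ pN s o = 6 * o + 5) := by
  unfold pP pN; cases s o <;> simp

theorem good_hole : GoodHoles (6 * t + 10) (Hole t v s) := by
  have : ∀ i j, Hole t v s i j → (0 < i ∧ i + 1 < 6 * t + 10 ∧ 0 < j ∧ j + 1 < 6 * t + 10) ∧
      (i + j) % 2 = 0 := by
    rintro i j (h | ⟨o, h, rfl, rfl⟩ | ⟨a, ha, b, hb, -, rfl, rfl⟩ |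
      ⟨a, ha, b, hb, -, -, rfl, rfl⟩)
    · omega
    · have := pPN (s := s) o; omega
    · have := pPN (s := s) a; have := pPN (s := s) b; omega
    · omega
  exact ⟨fun i j h => (this i j h).1, fun i j h => (this i j h).2⟩

theorem holeA {o : ℕ} (h : o < t) : Hole t v s (pP s o) (pN s o) :=
  Or.inr (Or.inl ⟨o, h, rfl, rfl⟩)

theorem holeB {a b : ℕ} (ha : a < t) (hb : b < t) (h : Nxt t v a b) :
    Hole t v s (pN s a) (pP s b) := Or.inr (Or.inr (Or.inl ⟨a, ha, b, hb, h, rfl, rfl⟩))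

theorem holeC {a b : ℕ} (ha : a < t) (hb : b < t) (h : a / 3 = b / 3)
    (h' : a % 3 = 1 ↔ b % 3 ≠ 1) : Hole t v s (6 * a + 1) (6 * b + 1) :=
  Or.inr (Or.inr (Or.inr ⟨a, ha, b, hb, h, h', rfl, rfl⟩))

theorem pP_inj {a b : ℕ} (h : pP s a = pP s b) : a = b := by
  have := pPN (s := s) a; have := pPN (s := s) b; omega

theorem pN_inj {a b : ℕ} (h : pN s a = pN s b) : a = b := by
  have := pPN (s := s) a; have := pPN (s := s) b; omega

theorem pP_ne_pN (a b : ℕ) : pP s a ≠ pN s b := by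
  intro h
  have h1 := pPN (s := s) a
  have h2 := pPN (s := s) b
  obtain rfl : a = b := by omega
  omega

theorem row_pN {o i : ℕ} (ho : o < t) (h : Hole t v s i (pN s o)) : i = pP s o := by
  have := pPN (s := s) o
  rcases h with h | ⟨a, -, rfl, e⟩ | ⟨a, -, b, -, -, -, e⟩ | ⟨a, -, b, -, -, -, -, e⟩
  · omega
  · rw [pN_inj e]
  · exact absurd e.symm (pP_ne_pN _ _)
  · omega

theorem col_pP {o j : ℕ} (ho : o < t) (h : Hole t v s (pP s o) j) : j = pN s o := by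
  have := pPN (s := s) o
  rcases h with h | ⟨a, -, e, rfl⟩ | ⟨a, -, b, -, -, e, -⟩ | ⟨a, -, b, -, -, -, e, -⟩
  · omega
  · rw [pP_inj e]
  · exact absurd e (pP_ne_pN _ _)
  · omega

theorem row_pP {a b i : ℕ} (ha : a < t) (hb : b < t) (hn : Nxt t v a b)
    (h : Hole t v s i (pP s b)) : i = pN s a := by
  have := pPN (s := s) b
  rcases h with h | ⟨c, -, -, e⟩ | ⟨c, hc, d, -, hn', rfl, e⟩ | ⟨c, -, d, -, -, -, -, e⟩
  · omega
  · exact absurd e (pP_ne_pN _ _)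
  · obtain rfl := pP_inj e
    rw [nxt_inj ha hc hn hn']
  · omega

theorem col_pN {a b j : ℕ} (ha : a < t) (hb : b < t) (hn : Nxt t v a b)
    (h : Hole t v s (pN s a) j) : j = pP s b := by
  have := pPN (s := s) a
  rcases h with h | ⟨c, -, e, -⟩ | ⟨c, hc, d, hd, hn', e, rfl⟩ | ⟨c, -, d, -, -, -, e, -⟩
  · omega
  · exact absurd e.symm (pP_ne_pN _ _)
  · obtain rfl := pN_inj e
    rw [nxt_fun hb hd hn hn']
  · omega

theorem row_lit {b i : ℕ} (hb : b < t) (h : Hole t v s i (6 * b + 1)) :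
    ∃ a, a / 3 = b / 3 ∧ (a % 3 = 1 ↔ b % 3 ≠ 1) ∧ i = 6 * a + 1 := by
  rcases h with h | ⟨c, -, -, e⟩ | ⟨c, -, d, -, -, -, e⟩ | ⟨c, -, d, -, h1, h2, rfl, e⟩
  · omega
  · have := pPN (s := s) c; omega
  · have := pPN (s := s) d; omega
  · obtain rfl : b = d := by omega
    exact ⟨c, h1, h2, rfl⟩

theorem col_lit {a j : ℕ} (ha : a < t) (h : Hole t v s (6 * a + 1) j) :
    ∃ b, a / 3 = b / 3 ∧ (a % 3 = 1 ↔ b % 3 ≠ 1) ∧ j = 6 * b + 1 := by
  rcases h with h | ⟨c, -, e, -⟩ | ⟨c, -, d, -, -, e, -⟩ | ⟨c, -, d, -, h1, h2, e, rfl⟩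
  · omega
  · have := pPN (s := s) c; omega
  · have := pPN (s := s) c; omega
  · obtain rfl : a = c := by omega
    exact ⟨d, h1, h2, rfl⟩

theorem free_line {o i j : ℕ} (ho : o < t) (h : Hole t v s i j) :
    i ≠ 6 * o + 2 ∧ i ≠ 6 * o + 4 ∧ j ≠ 6 * o + 2 ∧ j ≠ 6 * o + 4 := by
  rcases h with h | ⟨a, h, rfl, rfl⟩ | ⟨a, ha, b, hb, -, rfl, rfl⟩ |
      ⟨a, ha, b, hb, -, -, rfl, rfl⟩
  · omega
  · have := pPN (s := s) a; omega
  · have := pPN (s := s) a; have := pPN (s := s) b; omega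
  · omega

/-- satisfiability of the formula with clauses `(3 c, 3 c + 1, 3 c + 2)` -/
def Sat3 (m : ℕ) (v : ℕ → ℕ) (s : ℕ → Bool) : Prop :=
  ∃ ν : ℕ → Bool, ∀ c < m, ∃ k < 3, ν (v (3 * c + k)) = s (3 * c + k)

theorem sat_of_solves {m : ℕ} {τ : ℕ → ℕ → Bool}
    (h : Solves (6 * (3 * m) + 10) (Hole (3 * m) v s) τ) : Sat3 m v s := by
  classical
  set t := 3 * m with ht
  let Rc : ℕ → Prop := fun p => ∃ i, Hole t v s i p ∧ τ i p = true
  let Cc : ℕ → Prop := fun p => ∃ j, Hole t v s p j ∧ τ p j = false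
  have r1 : ∀ o < t, Rc (6 * o + 1) ∨ Rc (6 * o + 3) := fun o ho => by
    obtain ⟨i, h | h⟩ := h.1 (6 * o + 1) (by omega) fun i hi => (free_line ho hi).2.2.1 rfl
    exacts [Or.inl ⟨i, h⟩, Or.inr ⟨i, h⟩]
  have r2 : ∀ o < t, Rc (6 * o + 3) ∨ Rc (6 * o + 5) := fun o ho => by
    obtain ⟨i, h | h⟩ := h.1 (6 * o + 3) (by omega) fun i hi => (free_line ho hi).2.2.2 rfl
    exacts [Or.inl ⟨i, h⟩, Or.inr ⟨i, h⟩]
  have c1 : ∀ o < t, Cc (6 * o + 1) ∨ Cc (6 * o + 3) := fun o ho => by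
    obtain ⟨i, h | h⟩ := h.2 (6 * o + 1) (by omega) fun i hi => (free_line ho hi).1 rfl
    exacts [Or.inl ⟨i, h⟩, Or.inr ⟨i, h⟩]
  have c2 : ∀ o < t, Cc (6 * o + 3) ∨ Cc (6 * o + 5) := fun o ho => by
    obtain ⟨i, h | h⟩ := h.2 (6 * o + 3) (by omega) fun i hi => (free_line ho hi).2.1 rfl
    exacts [Or.inl ⟨i, h⟩, Or.inr ⟨i, h⟩]
  have r3 : ∀ o < t, Rc (pP s o) ∨ Rc (pN s o) := fun o ho => by
    rcases pPN (s := s) o with ⟨-, e1, e2⟩ | ⟨-, e1, e2⟩ <;> rw [e1, e2]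
    exacts [(r2 o ho).symm, r2 o ho]
  have c3 : ∀ o < t, Cc (pP s o) ∨ Cc (pN s o) := fun o ho => by
    rcases pPN (s := s) o with ⟨-, e1, e2⟩ | ⟨-, e1, e2⟩ <;> rw [e1, e2]
    exacts [(c2 o ho).symm, c2 o ho]
  have A : ∀ o < t, Rc (pN s o) → ¬ Cc (pP s o) := by
    rintro o ho ⟨i, h1, h2⟩ ⟨j, h3, h4⟩
    rw [row_pN ho h1] at h2
    rw [col_pP ho h3, h2] at h4
    exact absurd h4 (by simp)
  have B : ∀ a < t, ∀ b < t, Nxt t v a b → Cc (pN s a) → ¬ Rc (pP s b) := by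
    rintro a ha b hb hn ⟨j, h3, h4⟩ ⟨i, h1, h2⟩
    rw [row_pP ha hb hn h1] at h2
    rw [col_pN ha hb hn h3, h2] at h4
    exact absurd h4 (by simp)
  have XC : ∀ o < t, Rc (pN s o) → Cc (pN s o) := fun o ho h =>
    (c3 o ho).resolve_left (A o ho h)
  have CX : ∀ a < t, ∀ b < t, Nxt t v a b → Cc (pN s a) → Rc (pN s b) := fun a ha b hb hn h =>
    (r3 b hb).resolve_left (B a ha b hb hn h)
  have const : ∀ a < t, ∀ b < t, v a = v b → Rc (pN s a) → Rc (pN s b) :=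
    fun a ha b hb e h => nxt_const (Y := fun o => Rc (pN s o))
      (fun a ha b hb hn h => CX a ha b hb hn (XC a ha h)) ha hb e h
  let ν : ℕ → Bool := fun w => decide (∃ o < t, v o = w ∧ Rc (pN s o))
  have hν : ∀ o < t, (ν (v o) = true ↔ Rc (pN s o)) := fun o ho => by
    simp only [ν, decide_eq_true_eq]
    exact ⟨fun ⟨a, ha, e, h⟩ => const a ha o ho e h, fun h => ⟨o, ho, rfl, h⟩⟩
  have rowTrue : ∀ o < t, Rc (6 * o + 3) → ν (v o) = s o := fun o ho h => by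
    rcases pPN (s := s) o with ⟨e0, e1, e2⟩ | ⟨e0, e1, e2⟩ <;> rw [e0]
    · exact (hν o ho).2 (e2 ▸ h)
    · rw [← Bool.not_eq_true, hν o ho]
      intro h'
      obtain ⟨a, ha, hn⟩ := nxt_surj (v := v) ho
      exact B a ha o ho hn (XC a ha (const o ho a ha hn.1.symm h')) (e1 ▸ h)
  have colTrue : ∀ o < t, Cc (6 * o + 3) → ν (v o) = s o := fun o ho h => by
    rcases pPN (s := s) o with ⟨e0, e1, e2⟩ | ⟨e0, e1, e2⟩ <;> rw [e0]
    · obtain ⟨b, hb, hn⟩ := nxt_total (v := v) ho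
      exact (hν o ho).2 (const b hb o ho hn.1.symm (CX o ho b hb hn (e2 ▸ h)))
    · rw [← Bool.not_eq_true, hν o ho]
      exact fun h' => A o ho h' (e1 ▸ h)
  refine ⟨ν, fun c hc => ?_⟩
  rcases r1 (3 * c) (by omega) with ⟨i, h1, h2⟩ | h0
  swap
  · exact ⟨0, by omega, rowTrue _ (by omega) h0⟩
  rcases r1 (3 * c + 2) (by omega) with ⟨i', h3, h4⟩ | h0
  swap
  · exact ⟨2, by omega, rowTrue _ (by omega) h0⟩
  rcases c1 (3 * c + 1) (by omega) with ⟨j, h5, h6⟩ | h0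
  swap
  · exact ⟨1, by omega, colTrue _ (by omega) h0⟩
  exfalso
  obtain ⟨a, a1, a2, rfl⟩ := row_lit (by omega) h1
  obtain ⟨b, b1, b2, rfl⟩ := row_lit (by omega) h3
  obtain ⟨d, d1, d2, rfl⟩ := col_lit (by omega) h5
  obtain rfl : a = 3 * c + 1 := by omega
  obtain rfl : b = 3 * c + 1 := by omega
  have : d = 3 * c ∨ d = 3 * c + 2 := by omega
  rcases this with rfl | rfl
  · rw [h2] at h6; exact absurd h6 (by simp)
  · rw [h4] at h6; exact absurd h6 (by simp)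

theorem solves_of_sat {m : ℕ} (h : Sat3 m v s) :
    ∃ τ, Solves (6 * (3 * m) + 10) (Hole (3 * m) v s) τ := by
  obtain ⟨ν, hν⟩ := h
  set t := 3 * m with ht
  let τ : ℕ → ℕ → Bool := fun i j =>
    if i % 6 = 1 then
      (if (i / 6) % 3 = 1 then decide (ν (v (j / 6)) ≠ s (j / 6))
        else decide (ν (v (i / 6)) = s (i / 6)))
    else if i = pP s (i / 6) then ν (v (i / 6)) else !ν (v (i / 6))
  have τA : ∀ o j, τ (pP s o) j = ν (v o) := fun o j => by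
    have := pPN (s := s) o
    have e1 : ¬ pP s o % 6 = 1 := by omega
    have e2 : pP s o / 6 = o := by omega
    simp only [τ, e1, e2, if_false, if_true]
  have τB : ∀ o j, τ (pN s o) j = !ν (v o) := fun o j => by
    have := pPN (s := s) o
    have e1 : ¬ pN s o % 6 = 1 := by omega
    have e2 : pN s o / 6 = o := by omega
    simp only [τ, e1, e2, if_false, (pP_ne_pN o o).symm]
  have τC : ∀ a b, τ (6 * a + 1) (6 * b + 1) =
      if a % 3 = 1 then decide (ν (v b) ≠ s b) else decide (ν (v a) = s a) := fun a b => by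
    have e1 : (6 * a + 1) % 6 = 1 := by omega
    have e2 : (6 * a + 1) / 6 = a := by omega
    have e3 : (6 * b + 1) / 6 = b := by omega
    simp only [τ, e1, e2, e3, if_true]
  let Rc : ℕ → Prop := fun p => ∃ i, Hole t v s i p ∧ τ i p = true
  let Cc : ℕ → Prop := fun p => ∃ j, Hole t v s p j ∧ τ p j = false
  have T1 : ∀ o < t, ν (v o) = true → Rc (pN s o) ∧ Cc (pN s o) := fun o ho h => by
    obtain ⟨b, hb, hn⟩ := nxt_total (v := v) ho
    exact ⟨⟨_, holeA ho, by rw [τA, h]⟩, _, holeB ho hb hn, by rw [τB, h]; rfl⟩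
  have T2 : ∀ o < t, ν (v o) = false → Rc (pP s o) ∧ Cc (pP s o) := fun o ho h => by
    obtain ⟨a, ha, hn⟩ := nxt_surj (v := v) ho
    exact ⟨⟨_, holeB ha ho hn, by rw [τB, hn.1, h]; rfl⟩, _, holeA ho, by rw [τA, h]⟩
  have T3 : ∀ o < t, ν (v o) = s o → Rc (6 * o + 3) ∧ Cc (6 * o + 3) := fun o ho h => by
    rcases pPN (s := s) o with ⟨e0, e1, e2⟩ | ⟨e0, e1, e2⟩
    · exact e2 ▸ T1 o ho (h.trans e0)
    · exact e1 ▸ T2 o ho (h.trans e0)
  have T4 : ∀ o < t, ν (v o) ≠ s o → Rc (6 * o + 5) ∧ Cc (6 * o + 5) := fun o ho h => by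
    rcases pPN (s := s) o with ⟨e0, e1, e2⟩ | ⟨e0, e1, e2⟩
    · exact e1 ▸ T2 o ho (by simpa [e0] using h)
    · exact e2 ▸ T1 o ho (by simpa [e0] using h)
  have T5 : ∀ o < t, ν (v o) ≠ s o → Rc (6 * o + 1) ∧ Cc (6 * o + 1) := fun o ho h => by
    by_cases h1 : o % 3 = 1
    · obtain ⟨k, hk, hk'⟩ := hν (o / 3) (by omega)
      have h2 : (3 * (o / 3) + k) % 3 ≠ 1 := fun h2 =>
        h ((show 3 * (o / 3) + k = o by omega) ▸ hk')
      exact ⟨⟨_, holeC (a := 3 * (o / 3) + k) (by omega) ho (by omega) (by omega), by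
          rw [τC, if_neg h2]; simpa using hk'⟩,
        _, holeC (b := 3 * (o / 3) + k) ho (by omega) (by omega) (by omega), by
          rw [τC, if_pos h1]; simpa using hk'⟩
    · exact ⟨⟨_, holeC (a := 3 * (o / 3) + 1) (by omega) ho (by omega) (by omega), by
          rw [τC, if_pos (by omega)]; simpa using h⟩,
        _, holeC (b := 3 * (o / 3) + 1) ho (by omega) (by omega) (by omega), by
          rw [τC, if_neg h1]; simpa using h⟩
  have main : ∀ p, p + 2 < 6 * t + 10 → ((∀ i, ¬ Hole t v s i (p + 1)) ∨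
      ∀ j, ¬ Hole t v s (p + 1) j) → (Rc p ∧ Cc p) ∨ (Rc (p + 2) ∧ Cc (p + 2)) := by
    intro p hp hfree
    have hno : ∀ i j, Hole t v s i (p + 1) → Hole t v s (p + 1) j → False := fun i j h1 h2 =>
      hfree.elim (fun h => h i h1) fun h => h j h2
    have hd : ¬ ((p + 1) % 6 = 0 ∨ 6 * t < p + 1) := fun h =>
      have : Hole t v s (p + 1) (p + 1) := Or.inl ⟨rfl, h, by omega, by omega⟩
      hno _ _ this this
    obtain ⟨o, r, hr, e⟩ : ∃ o r, r < 6 ∧ p + 1 = 6 * o + r :=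
      ⟨(p + 1) / 6, (p + 1) % 6, by omega, by omega⟩
    have ho : o < t := by omega
    obtain ⟨b, hb, hn⟩ := nxt_total (v := v) ho
    obtain ⟨a, ha, hn'⟩ := nxt_surj (v := v) ho
    have nP : p + 1 ≠ pP s o := fun e => hno _ _ (e ▸ holeB ha ho hn') (e ▸ holeA ho)
    have nN : p + 1 ≠ pN s o := fun e => hno _ _ (e ▸ holeA ho) (e ▸ holeB ho hb hn)
    have nL : p + 1 ≠ 6 * o + 1 := fun e => by
      by_cases h1 : o % 3 = 1
      · exact hno _ _ (e ▸ holeC (a := o - 1) (by omega) ho (by omega) (by omega))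
          (e ▸ holeC (b := o - 1) ho (by omega) (by omega) (by omega))
      · exact hno _ _ (e ▸ holeC (a := 3 * (o / 3) + 1) (by omega) ho (by omega) (by omega))
          (e ▸ holeC (b := 3 * (o / 3) + 1) ho (by omega) (by omega) (by omega))
    have := pPN (s := s) o
    have : p = 6 * o + 1 ∨ p = 6 * o + 3 := by omega
    by_cases hv : ν (v o) = s o
    · rcases this with rfl | rfl
      · exact Or.inr (T3 o ho hv)
      · exact Or.inl (T3 o ho hv)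
    · rcases this with rfl | rfl
      · exact Or.inl (T5 o ho hv)
      · exact Or.inr (T4 o ho hv)
  refine ⟨τ, fun j hj h => ?_, fun i hi h => ?_⟩
  · rcases main j hj (Or.inl h) with ⟨⟨i, h⟩, -⟩ | ⟨⟨i, h⟩, -⟩
    exacts [⟨i, Or.inl h⟩, ⟨i, Or.inr h⟩]
  · rcases main i hi (Or.inr h) with ⟨-, j, h⟩ | ⟨-, j, h⟩
    exacts [⟨j, Or.inl h⟩, ⟨j, Or.inr h⟩]

end Logic

end Pool.Agent.MP_2e9a04_lc.H93
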