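import Pool.Agent.MP_2e9a04_lc.H93.Stab
import Pool.Agent.MP_2e9a04_lc.H93.Logic
import Pool.Agent.Shared.H27.CookLevin
import Pool.Agent.Shared.H56.More

set_option autoImplicit false

namespace Pool.Agent.MP_2e9a04_lc.H93

open Pool.Agent.Shared.H27 Pool.Agent.Shared.H56

/-- ordinate of row `j` in a grid of side `N` -/
def ord (N j : ℕ) : ℕ := j * (4 * N * N * N) + j * j

theorem strictMono_ord (N : ℕ) : StrictMono fun j => (ord N j : ℝ) := by
  intro i j h
  have h1 : i * (4 * N * N * N) ≤ j * (4 * N * N * N) := Nat.mul_le_mul_right _ h.le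
  have h2 : i * i < j * j := Nat.mul_self_lt_mul_self h
  simp only [Nat.cast_lt]; unfold ord; omega

theorem noThree (N : ℕ) : NoThree N (fun i => (i : ℝ)) fun j => (ord N j : ℝ) := by
  intro a b c ha hb
  set S := {p : ℕ × ℕ | p.1 < N ∧ p.2 < N ∧ a * (p.1 : ℝ) + b * (ord N p.2 : ℝ) = c} with hS
  have hfin : S.Finite :=
    ((Set.finite_Iio N).prod (Set.finite_Iio N)).subset fun p hp => ⟨hp.1, hp.2.1⟩
  rw [← hfin.cast_ncard_eq]
  by_contra hcon
  have h2 : 2 < S.ncard := by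
    by_contra h; exact hcon (by exact_mod_cast not_lt.1 h)
  obtain ⟨p, hp, q, hq, r, hr, pq, pr, qr⟩ := (Set.two_lt_ncard hfin).1 h2
  have hj : ∀ p ∈ S, ∀ q ∈ S, p ≠ q → p.2 ≠ q.2 ∧ p.1 ≠ q.1 := by
    intro p hp q hq h
    have h1 := hp.2.2
    have h2 := hq.2.2
    constructor
    · intro e
      rw [e] at h1
      have : (p.1 : ℝ) = q.1 := mul_left_cancel₀ ha (by linarith)
      exact h (Prod.ext (by exact_mod_cast this) e)
    · intro e
      rw [e] at h1
      have : (ord N p.2 : ℝ) = ord N q.2 := mul_left_cancel₀ hb (by linarith)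
      exact h (Prod.ext e ((strictMono_ord N).injective this))
  obtain ⟨i1, j1⟩ := p
  obtain ⟨i2, j2⟩ := q
  obtain ⟨i3, j3⟩ := r
  have n1 := hj _ hp _ hq pq
  have n2 := hj _ hp _ hr pr
  have n3 := hj _ hq _ hr qr
  obtain ⟨a1, b1, c1⟩ := hp
  obtain ⟨a2, b2, c2⟩ := hq
  obtain ⟨a3, b3, c3⟩ := hr
  simp only at *
  have e : ((i2 : ℝ) - i1) * ((ord N j3 : ℝ) - ord N j1) =
      ((i3 : ℝ) - i1) * ((ord N j2 : ℝ) - ord N j1) := by
    apply mul_left_cancel₀ hb
    linear_combination ((i2 : ℝ) - i1) * (c3 - c1) - ((i3 : ℝ) - i1) * (c2 - c1)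
  have e' : ((i2 : ℤ) - i1) * ((ord N j3 : ℤ) - ord N j1) =
      ((i3 : ℤ) - i1) * ((ord N j2 : ℤ) - ord N j1) := by exact_mod_cast e
  unfold ord at e'
  push_cast at e'
  set u : ℤ := ((i2 : ℤ) - i1) * ((j3 : ℤ) - j1) with hu
  set w : ℤ := ((i3 : ℤ) - i1) * ((j2 : ℤ) - j1) with hw
  have key : (4 * (N : ℤ) * N * N) * (u - w) = w * (j2 + j1) - u * (j3 + j1) := by
    rw [hu, hw]; linear_combination e'
  have bd : ∀ x y : ℤ, |x| < N → |y| < N → |x * y| < N * N := fun x y hx hy => by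
    rw [abs_mul]; exact mul_lt_mul'' hx hy (abs_nonneg _) (abs_nonneg _)
  have bu : |u| < N * N := bd _ _ (abs_lt.2 ⟨by omega, by omega⟩) (abs_lt.2 ⟨by omega, by omega⟩)
  have bw : |w| < N * N := bd _ _ (abs_lt.2 ⟨by omega, by omega⟩) (abs_lt.2 ⟨by omega, by omega⟩)
  have bd2 : ∀ x y : ℤ, |x| < N * N → |y| < 2 * N → |x * y| < N * N * (2 * N) :=
    fun x y hx hy => by rw [abs_mul]; exact mul_lt_mul'' hx hy (abs_nonneg _) (abs_nonneg _)
  have b4 := abs_lt.1 (bd2 w (j2 + j1) bw (abs_lt.2 ⟨by omega, by omega⟩))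
  have b5 := abs_lt.1 (bd2 u (j3 + j1) bu (abs_lt.2 ⟨by omega, by omega⟩))
  have hQ : (0 : ℤ) < 4 * N * N * N := by
    have : (0 : ℤ) < N := by omega
    positivity
  have huw : u - w = 0 := by
    by_contra h
    rcases lt_or_gt_of_ne h with h | h
    · have : u - w ≤ -1 := by omega
      nlinarith
    · have : 1 ≤ u - w := by omega
      nlinarith
  have : u * ((j2 : ℤ) - j3) = 0 := by
    have e1 : w = u := by linarith
    rw [huw, e1] at key; linarith
  rcases mul_eq_zero.1 this with h | h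
  · rcases mul_eq_zero.1 h with h | h <;> omega
  · omega

/-- variable of occurrence `o` -/
def vr (φ : CNF) (o : ℕ) : ℕ := ((φ.getD (o / 3) []).getD (o % 3) (0, false)).1

/-- sign of occurrence `o` -/
def sg (φ : CNF) (o : ℕ) : Bool := ((φ.getD (o / 3) []).getD (o % 3) (0, false)).2

theorem sat_iff {φ : CNF} (h : ∀ c ∈ φ, c.length = 3) :
    Sat φ ↔ Sat3 φ.length (vr φ) (sg φ) := by
  refine exists_congr fun ν => ?_
  have key : ∀ c (hc : c < φ.length) k (hk : k < φ[c].length), k < 3 →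
      (φ.getD ((3 * c + k) / 3) []).getD ((3 * c + k) % 3) (0, false) = φ[c][k] := by
    intro c hc k hk hk'
    rw [show (3 * c + k) / 3 = c by omega, show (3 * c + k) % 3 = k by omega,
      List.getD_eq_getElem _ _ hc, List.getD_eq_getElem _ _ hk]
  constructor
  · intro hs c hc
    obtain ⟨l, hl, e⟩ := hs _ (List.getElem_mem hc)
    obtain ⟨k, hk, rfl⟩ := List.getElem_of_mem hl
    have hk' : k < 3 := h _ (List.getElem_mem hc) ▸ hk
    exact ⟨k, hk', by unfold vr sg; rw [key c hc k hk hk']; exact e⟩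
  · intro hs d hd
    obtain ⟨c, hc, rfl⟩ := List.getElem_of_mem hd
    obtain ⟨k, hk', e⟩ := hs c hc
    have hk : k < φ[c].length := by rw [h _ hd]; exact hk'
    unfold vr sg at e
    rw [key c hc k hk hk'] at e
    exact ⟨_, List.getElem_mem hk, e⟩

/-- Boolean form of `Nxt` -/
def nxtB (φ : CNF) (R : List ℕ) (a b : ℕ) : Bool :=
  decide (vr φ a = vr φ b) &&
    ((decide (a < b) && R.all fun k =>
        !(decide (a < k) && decide (k < b) && decide (vr φ k = vr φ a))) ||
      (decide (b ≤ a) && R.all fun k =>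
        !((decide (a < k) || decide (k < b)) && decide (vr φ k = vr φ a))))

/-- Boolean form of `Hole` -/
def holeB' (φ : CNF) (R : List ℕ) (i j : ℕ) : Bool :=
  (decide (i = j) && (decide (i % 6 = 0) || decide (6 * R.length < i)) && decide (0 < i) &&
    decide (i ≤ 6 * R.length + 8)) ||
  (R.any fun o => decide (i = pP (sg φ) o) && decide (j = pN (sg φ) o)) ||
  (R.any fun a => R.any fun b =>
    nxtB φ R a b && decide (i = pN (sg φ) a) && decide (j = pP (sg φ) b)) ||
  R.any fun a => R.any fun b => decide (a / 3 = b / 3) &&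
    xor (decide (a % 3 = 1)) (decide (b % 3 = 1)) && decide (i = 6 * a + 1) &&
      decide (j = 6 * b + 1)

theorem nxtB_iff (φ : CNF) (t a b : ℕ) :
    nxtB φ (List.range t) a b = true ↔ Nxt t (vr φ) a b := by
  simp only [nxtB, Nxt, Bool.and_eq_true, Bool.or_eq_true, decide_eq_true_eq, List.all_eq_true,
    List.mem_range, Bool.not_eq_true', ← Bool.not_eq_true, not_and, and_imp, ne_eq]

theorem holeB'_iff (φ : CNF) (t i j : ℕ) :
    holeB' φ (List.range t) i j = true ↔ Hole t (vr φ) (sg φ) i j := by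
  have hx : ∀ a b : ℕ, xor (decide (a % 3 = 1)) (decide (b % 3 = 1)) = true ↔
      (a % 3 = 1 ↔ b % 3 ≠ 1) := fun a b => by
    by_cases h1 : a % 3 = 1 <;> by_cases h2 : b % 3 = 1 <;> simp [h1, h2]
  simp only [holeB', Hole, Bool.and_eq_true, Bool.or_eq_true, decide_eq_true_eq,
    List.any_eq_true, List.mem_range, List.length_range, nxtB_iff, hx, and_assoc, or_assoc]

/-- the list of points -/
def ptsOf (φ : CNF) (R G : List ℕ) : List (ℚ × ℚ) :=
  ((G ×ˢ G).filter fun p => !holeB' φ R p.1 p.2).map fun p =>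
    ((p.1 : ℚ), (ord G.length p.2 : ℚ))

/-- the reduction -/
def red (φ : CNF) : List (ℚ × ℚ) × ℕ :=
  (ptsOf φ (List.range (3 * φ.length)) (List.range (6 * (3 * φ.length) + 10)),
    5 * (6 * (3 * φ.length) + 10) - 4)

section PT

variable {α : Type} [N487b59b3 α]

@[fun_prop] theorem pt_vr {φ : α → CNF} {o : α → ℕ} (h1 : PT φ) (h2 : PT o) :
    PT fun a => vr (φ a) (o a) := by
  unfold vr; fun_prop

@[fun_prop] theorem pt_sg {φ : α → CNF} {o : α → ℕ} (h1 : PT φ) (h2 : PT o) :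
    PT fun a => sg (φ a) (o a) := by
  unfold sg; fun_prop

@[fun_prop] theorem pt_pP {φ : α → CNF} {o : α → ℕ} (h1 : PT φ) (h2 : PT o) :
    PT fun a => pP (sg (φ a)) (o a) :=
  (show PT fun a => 6 * o a + cond (sg (φ a) (o a)) 5 3 by fun_prop).congr fun a => by
    unfold pP; cases sg (φ a) (o a) <;> rfl

@[fun_prop] theorem pt_pN {φ : α → CNF} {o : α → ℕ} (h1 : PT φ) (h2 : PT o) :
    PT fun a => pN (sg (φ a)) (o a) :=
  (show PT fun a => 6 * o a + cond (sg (φ a) (o a)) 3 5 by fun_prop).congr fun a => by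
    unfold pN; cases sg (φ a) (o a) <;> rfl

@[fun_prop] theorem pt_nxtB {φ : α → CNF} {R : α → List ℕ} {f g : α → ℕ} (h1 : PT φ) (h2 : PT R)
    (h3 : PT f) (h4 : PT g) : PT fun a => nxtB (φ a) (R a) (f a) (g a) := by
  unfold nxtB; fun_prop

@[fun_prop] theorem pt_holeB' {φ : α → CNF} {R : α → List ℕ} {f g : α → ℕ} (h1 : PT φ)
    (h2 : PT R) (h3 : PT f) (h4 : PT g) : PT fun a => holeB' (φ a) (R a) (f a) (g a) := by
  unfold holeB'; fun_prop

@[fun_prop] theorem pt_ord {f g : α → ℕ} (h1 : PT f) (h2 : PT g) :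
    PT fun a => ord (f a) (g a) := by
  unfold ord; fun_prop

theorem pt_ptsOf {φ : α → CNF} {R G : α → List ℕ} (h1 : PT φ) (h2 : PT R) (h3 : PT G) :
    PT fun a => ptsOf (φ a) (R a) (G a) := by
  unfold ptsOf; fun_prop

theorem pt_red : PT red := by
  have h0 : PT fun φ : CNF => un φ.length := by fun_prop
  have h1 : PT fun φ : CNF => un (3 * φ.length) := PT.un_mul (PT.const _) h0
  have h2 : PT fun φ : CNF => un (6 * (3 * φ.length) + 10) :=
    PT.un_add (PT.un_mul (PT.const _) h1) (PT.const _)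
  exact PT.prodMk (pt_ptsOf PT.id' h1.range h2.range) (by fun_prop)

end PT

theorem pts_red (φ : CNF) : pts (red φ).1 = gridSet (6 * (3 * φ.length) + 10) (fun i => (i : ℝ))
    (fun j => (ord (6 * (3 * φ.length) + 10) j : ℝ)) (Hole (3 * φ.length) (vr φ) (sg φ)) := by
  ext z
  simp only [pts, red, ptsOf, gridSet, Set.mem_ofPred_eq, List.mem_map, List.mem_filter,
    Bool.not_eq_true', ← Bool.not_eq_true, holeB'_iff, List.length_range]
  constructor
  · rintro ⟨_, ⟨⟨i, j⟩, ⟨h1, h2⟩, rfl⟩, rfl⟩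
    rw [List.mem_product, List.mem_range, List.mem_range] at h1
    exact ⟨i, h1.1, j, h1.2, h2, by simp⟩
  · rintro ⟨i, hi, j, hj, h, rfl⟩
    exact ⟨_, ⟨(i, j), ⟨List.mem_product.2 ⟨List.mem_range.2 hi, List.mem_range.2 hj⟩, h⟩,
      rfl⟩, by simp⟩

theorem valid_red (φ : CNF) : ValidInput (red φ) := by
  have hx : StrictMono fun i : ℕ => (i : ℝ) := Nat.strictMono_cast
  have hy := strictMono_ord (6 * (3 * φ.length) + 10)
  have hg := good_hole (t := 3 * φ.length) (v := vr φ) (s := sg φ)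
  have hcol : ¬ Collinear ℝ (pts (red φ).1) := by
    rw [pts_red]
    intro h
    have m : ∀ i j, i < 2 → j < 2 → i * j = 0 → (((i : ℕ) : ℝ), (ord _ j : ℝ)) ∈
        gridSet (6 * (3 * φ.length) + 10) _ _ _ :=
      fun i j h1 h2 h3 => (mem_gridSet hx hy).2 ⟨by omega, by omega, fun hh => by
        have := hg.inner _ _ hh
        have : i = 1 ∧ j = 1 := by omega
        simp_all⟩
    obtain ⟨v, hv⟩ := (collinear_iff_of_mem (m 0 0 (by omega) (by omega) rfl)).1 h
    obtain ⟨r, hr⟩ := hv _ (m 1 0 (by omega) (by omega) rfl)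
    obtain ⟨s, hs⟩ := hv _ (m 0 1 (by omega) (by omega) rfl)
    have h0 := hy (show 0 < 1 by omega)
    simp only [Prod.ext_iff, vadd_eq_add, Prod.fst_add, Prod.snd_add, Prod.smul_fst,
      Prod.smul_snd, smul_eq_mul, Nat.cast_zero, Nat.cast_one] at hr hs h0
    have a1 : r * v.1 = 1 := by linarith [hr.1]
    have a2 : r * v.2 = 0 := by linarith [hr.2]
    have a3 : s * v.1 = 0 := by linarith [hs.1]
    have a4 : 0 < s * v.2 := by linarith [hs.2]
    have : (r * v.1) * (s * v.2) = (r * v.2) * (s * v.1) := by ring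
    rw [a1, a2, a3] at this; linarith
  refine ⟨?_, ?_, hcol⟩
  · refine List.Nodup.map ?_ ((List.nodup_range.product List.nodup_range).filter _)
    intro p q h
    obtain ⟨h1, h2⟩ := Prod.ext_iff.1 h
    simp only [Nat.cast_inj, List.length_range] at h1 h2
    exact Prod.ext h1 (hy.injective (by simp only [h2]))
  · by_contra h
    apply hcol
    generalize (red φ).1 = l at h
    match l, h with
    | [], _ => simpa [pts] using collinear_empty ℝ Pt
    | [a], _ => simpa [pts] using collinear_singleton ℝ _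
    | [a, b], _ =>
      refine (collinear_pair ℝ ((a.1 : ℝ), (a.2 : ℝ)) ((b.1 : ℝ), (b.2 : ℝ))).subset ?_
      rintro z ⟨q, hq, rfl⟩
      simp only [List.mem_cons, List.not_mem_nil, or_false] at hq
      rcases hq with rfl | rfl <;> simp
    | _ :: _ :: _ :: _, h => simp at h

theorem red_iff {φ : CNF} (h : ∀ c ∈ φ, c.length = 3) : Sat φ ↔ MinStabTri (red φ) := by
  have hx : StrictMono fun i : ℕ => (i : ℝ) := Nat.strictMono_cast
  have hy := strictMono_ord (6 * (3 * φ.length) + 10)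
  rw [sat_iff h, MinStabTri, pts_red]
  constructor
  · intro hs
    obtain ⟨τ, hτ⟩ := solves_of_sat hs
    exact complete _ _ _ _ τ (by omega) hx hy good_hole (noThree _) hτ
  · rintro ⟨T, h1, h2⟩
    obtain ⟨τ, hτ⟩ := sound _ _ _ _ T (by omega) hx hy good_hole h1 h2
    exact sat_of_solves hτ

theorem npHard (L : N68a2faeb.DecisionProblem) (hL : L ∈ N68a2faeb.NP) :
    ∃ f : List Bool → List (ℚ × ℚ) × ℕ, PT f ∧
      ∀ x, ValidInput (f x) ∧ (L x = true ↔ MinStabTri (f x)) := by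
  obtain ⟨f, h1, h2, h3⟩ := cookLevin3 L hL
  exact ⟨fun x => red (f x), pt_red.comp h1, fun x =>
    ⟨valid_red _, (h3 x).trans (red_iff (h2 x))⟩⟩

end Pool.Agent.MP_2e9a04_lc.H93
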