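import Pool.Agent.MP_2e9a04_lc.H93.Grid

set_option autoImplicit false

namespace Pool.Agent.MP_2e9a04_lc.H93

theorem antidiag {a b c d r1 r2 u v : ℝ} (h1 : 0 ≤ r1) (h2 : 0 ≤ r2) (h3 : r1 + r2 < 1)
    (hu : 1 ≤ u) (hv : 1 ≤ v) : ∃ s, 0 < s ∧ s < 1 ∧ lerp (b, c) (a, d) s ∈
      segment ℝ (a + r1 * (b - a), c + r2 * (d - c)) (a + u * (b - a), c + v * (d - c)) := by
  have hd : 0 < u + v - r1 - r2 := by linarith
  set t := (1 - r1 - r2) / (u + v - r1 - r2) with ht
  have t0 : 0 < t := div_pos (by linarith) hd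
  have t1 : t < 1 := (div_lt_one hd).2 (by linarith)
  have e : t * (u + v - r1 - r2) = 1 - r1 - r2 := by rw [ht]; field_simp
  refine ⟨r2 + t * (v - r2), by nlinarith, by nlinarith, mem_seg_iff.2 ⟨t, t0.le, t1.le, ?_⟩⟩
  ext
  · simp only [lerp_fst]; linear_combination (a - b) * e
  · simp only [lerp_snd]; ring

theorem oblique {P : Set Pt} {S T : Set (Sym2 Pt)} (hS : IsPlane P S) (hT : T ⊆ S)
    {a b c d u v : ℝ} (hab : a ≠ b) (hu : 1 ≤ u) (hv : 1 ≤ v)
    (he : s((a, c), (a + u * (b - a), c + v * (d - c))) ∈ S)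
    (hx : ∀ s t, 0 < s → s < 1 → (a + s * (b - a), t) ∉ P)
    (hy : ∀ s t, 0 < s → s < 1 → (t, c + s * (d - c)) ∉ P)
    (h : s((b, c), (a, d)) ∈ T ∨ (s((a, c), (b, d)) ∈ T ∧
      (1 < u → (∃ f ∈ T, segment ℝ (b, c) (b, d) ⊆ seg f) ∨
        ∃ b' u', 1 ≤ u' ∧ a + u * (b - a) = b + u' * (b' - b) ∧ s((b', c), (b, d)) ∈ T) ∧
      (1 < v → (∃ f ∈ T, segment ℝ (a, d) (b, d) ⊆ seg f) ∨
        ∃ d' v', 1 ≤ v' ∧ c + v * (d - c) = d + v' * (d' - d) ∧ s((b, d), (a, d')) ∈ T))) :
    s((a, c), (a + u * (b - a), c + v * (d - c))) ∈ T := by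
  have hit : ∀ f ∈ T, ∀ z, z ∈ segment ℝ (a, c) (a + u * (b - a), c + v * (d - c)) → z ∈ seg f →
      z ∉ P → s((a, c), (a + u * (b - a), c + v * (d - c))) ∈ T := by
    intro f hf z h1 h2 h3
    induction f using Sym2.ind with
    | h g k => rw [hS.eq_of_meet he (hT hf) h1 h2 h3]; exact hf
  rcases h with h | ⟨h0, hR, hU⟩
  · obtain ⟨s, s0, s1, hs⟩ := antidiag (a := a) (b := b) (c := c) (d := d) le_rfl le_rfl
      (by norm_num) hu hv
    simp only [zero_mul, add_zero] at hs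
    exact hit _ h _ hs (lerp_mem s0.le s1.le) (hy s _ s0 s1)
  rcases lt_trichotomy u v with huv | huv | huv
  · have v0 : 0 < v := by linarith
    have w0 : 0 < u / v := div_pos (by linarith) v0
    have w1 : u / v < 1 := (div_lt_one v0).2 huv
    have hr : (a + u / v * (b - a), d) ∈
        segment ℝ (a, c) (a + u * (b - a), c + v * (d - c)) := by
      refine mem_seg_iff.2 ⟨1 / v, by positivity, (div_le_one v0).2 hv, ?_⟩
      ext <;> simp only [lerp_fst, lerp_snd] <;> field_simp <;> ring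
    rcases hU (by linarith) with ⟨f, hf, hsub⟩ | ⟨d', v', h1, h2, h3⟩
    · refine hit f hf _ hr (hsub ?_) (hx _ _ w0 w1)
      exact mem_seg_iff.2 ⟨u / v, w0.le, w1.le, by ext <;> simp⟩
    · obtain ⟨s, s0, s1, hs⟩ := antidiag (a := a) (b := b) (c := d) (d := d') (r2 := 0) w0.le
        le_rfl (by linarith) hu h1
      simp only [zero_mul, add_zero] at hs
      rw [← h2] at hs
      refine hit _ h3 _ (seg_sub hr (right_mem_segment _ _ _) hs) (lerp_mem s0.le s1.le) ?_
      have : lerp (b, d) (a, d') s = (a + (1 - s) * (b - a), d + s * (d' - d)) := by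
        ext <;> simp only [lerp_fst, lerp_snd]; ring
      rw [this]; exact hx _ _ (by linarith) (by linarith)
  · subst huv
    have v0 : 0 < u := by linarith
    have hr : (b, d) ∈ segment ℝ (a, c) (a + u * (b - a), c + u * (d - c)) := by
      refine mem_seg_iff.2 ⟨1 / u, by positivity, (div_le_one v0).2 hv, ?_⟩
      ext <;> simp only [lerp_fst, lerp_snd] <;> field_simp <;> ring
    rcases hS.prim' he _ (hS.right (hT h0)) hr with e | e
    · exact absurd (congrArg Prod.fst e).symm hab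
    · rw [← e]; exact h0
  · have v0 : 0 < u := by linarith
    have w0 : 0 < v / u := div_pos (by linarith) v0
    have w1 : v / u < 1 := (div_lt_one v0).2 huv
    have hr : (b, c + v / u * (d - c)) ∈
        segment ℝ (a, c) (a + u * (b - a), c + v * (d - c)) := by
      refine mem_seg_iff.2 ⟨1 / u, by positivity, (div_le_one v0).2 hu, ?_⟩
      ext <;> simp only [lerp_fst, lerp_snd] <;> field_simp <;> ring
    rcases hR (by linarith) with ⟨f, hf, hsub⟩ | ⟨b', u', h1, h2, h3⟩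
    · refine hit f hf _ hr (hsub ?_) (hy _ _ w0 w1)
      exact mem_seg_iff.2 ⟨v / u, w0.le, w1.le, by ext <;> simp⟩
    · obtain ⟨s, s0, s1, hs⟩ := antidiag (a := b) (b := b') (c := c) (d := d) (r1 := 0) le_rfl
        w0.le (by linarith) h1 hv
      simp only [zero_mul, add_zero] at hs
      rw [← h2] at hs
      exact hit _ h3 _ (seg_sub hr (right_mem_segment _ _ _) hs) (lerp_mem s0.le s1.le)
        (hy s _ s0 s1)

theorem exists_ratio {a b q : ℝ} (h : (a < b ∧ b ≤ q) ∨ (b < a ∧ q ≤ b)) :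
    ∃ u, 1 ≤ u ∧ q = a + u * (b - a) := by
  rcases h with ⟨h1, h2⟩ | ⟨h1, h2⟩
  · have : b - a ≠ 0 := by linarith
    exact ⟨(q - a) / (b - a), (one_le_div (by linarith)).2 (by linarith), by field_simp; ring⟩
  · have : a - b ≠ 0 := by linarith
    exact ⟨(a - q) / (a - b), (one_le_div (by linarith)).2 (by linarith), by field_simp; ring⟩

namespace Cfg

variable {C : Cfg}

theorem hE_mem {i j : ℕ} (h : C.HE i j) : C.hE i j ∈ C.T := Or.inl ⟨i, j, h, rfl⟩
theorem vE_mem {i j : ℕ} (h : C.VE i j) : C.vE i j ∈ C.T := Or.inr (Or.inl ⟨i, j, h, rfl⟩)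

theorem dE_odd {i j : ℕ} (hi : i + 1 < C.N) (hj : j + 1 < C.N) (h : (i + j) % 2 = 1) :
    s((C.x i, C.y j), (C.x (i + 1), C.y (j + 1))) ∈ C.T :=
  Or.inr (Or.inr ⟨i, j, hi, hj, by simp [dE, h]⟩)

theorem dE_even {i j : ℕ} (hi : i + 1 < C.N) (hj : j + 1 < C.N) (h : (i + j) % 2 = 0) :
    s((C.x (i + 1), C.y j), (C.x i, C.y (j + 1))) ∈ C.T :=
  Or.inr (Or.inr ⟨i, j, hi, hj, by simp [dE, h]⟩)

theorem notMem_x {i : ℕ} {a t : ℝ} (h1 : C.x i < a) (h2 : a < C.x (i + 1)) : (a, t) ∉ C.P := by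
  rintro ⟨k, -, l, -, -, e⟩
  obtain rfl : a = C.x k := congrArg Prod.fst e
  rw [C.hx.lt_iff_lt] at h1 h2; omega

theorem notMem_y {j : ℕ} {a t : ℝ} (h1 : C.y j < a) (h2 : a < C.y (j + 1)) : (t, a) ∉ C.P := by
  rintro ⟨k, -, l, -, -, e⟩
  obtain rfl : a = C.y l := congrArg Prod.snd e
  rw [C.hy.lt_iff_lt] at h1 h2; omega

/-- a unit horizontal segment is covered by an edge unless an end is a vertically filled hole -/
theorem cover_h {i j : ℕ} (hi : i + 1 < C.N) (hj : j < C.N) (h1 : C.hole i j → C.τ i j = true)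
    (h2 : C.hole (i + 1) j → C.τ (i + 1) j = true) :
    ∃ f ∈ C.T, segment ℝ (C.x i, C.y j) (C.x (i + 1), C.y j) ⊆ seg f := by
  have hlt : C.x i < C.x (i + 1) := C.hx (by omega)
  by_cases h : C.hole i j
  · have a1 := C.hh.inner _ _ h
    have a2 := C.hh.even _ _ h
    obtain ⟨k, rfl⟩ : ∃ k, i = k + 1 := ⟨i - 1, by omega⟩
    refine ⟨_, hE_mem (i := k) (j := j) ⟨by omega, hj, fun h' => ?_, h1⟩, fun z hz => ?_⟩
    · have := C.hh.even _ _ h'; omega
    · obtain ⟨b1, b2, b3⟩ := (seg_horiz hlt.le).1 hz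
      have : C.nx k j = k + 2 := by simp [nx, h]
      exact mem_hE.2 ⟨b1, (C.hx.monotone (by omega)).trans b2, by rw [this]; exact b3⟩
  · refine ⟨_, hE_mem ⟨hi, hj, h, h2⟩, fun z hz => ?_⟩
    obtain ⟨b1, b2, b3⟩ := (seg_horiz hlt.le).1 hz
    refine mem_hE.2 ⟨b1, b2, b3.trans (C.hx.monotone ?_)⟩
    rcases nx_spec (C := C) i j with ⟨-, e⟩ | ⟨-, e⟩ <;> omega

theorem cover_v {i j : ℕ} (hi : i < C.N) (hj : j + 1 < C.N) (h1 : C.hole i j → C.τ i j = false)
    (h2 : C.hole i (j + 1) → C.τ i (j + 1) = false) :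
    ∃ f ∈ C.T, segment ℝ (C.x i, C.y j) (C.x i, C.y (j + 1)) ⊆ seg f := by
  have hlt : C.y j < C.y (j + 1) := C.hy (by omega)
  by_cases h : C.hole i j
  · have a1 := C.hh.inner _ _ h
    have a2 := C.hh.even _ _ h
    obtain ⟨k, rfl⟩ : ∃ k, j = k + 1 := ⟨j - 1, by omega⟩
    refine ⟨_, vE_mem (i := i) (j := k) ⟨hi, by omega, fun h' => ?_, h1⟩, fun z hz => ?_⟩
    · have := C.hh.even _ _ h'; omega
    · obtain ⟨b1, b2, b3⟩ := (seg_vert hlt.le).1 hz
      have : C.ny i k = k + 2 := by simp [ny, h]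
      exact mem_vE.2 ⟨b1, (C.hy.monotone (by omega)).trans b2, by rw [this]; exact b3⟩
  · refine ⟨_, vE_mem ⟨hi, hj, h, h2⟩, fun z hz => ?_⟩
    obtain ⟨b1, b2, b3⟩ := (seg_vert hlt.le).1 hz
    refine mem_vE.2 ⟨b1, b2, b3.trans (C.hy.monotone ?_)⟩
    rcases ny_spec (C := C) i j with ⟨-, e⟩ | ⟨-, e⟩ <;> omega

variable {S : Set (Sym2 Pt)} (hS : IsPlane C.P S) (hT : C.T ⊆ S)
include hS hT

theorem max_h {i i' j : ℕ} (hlt : i < i') (he : s((C.x i, C.y j), (C.x i', C.y j)) ∈ S) :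
    s((C.x i, C.y j), (C.x i', C.y j)) ∈ C.T := by
  obtain ⟨a1, a2, a3⟩ := memP.1 (hS.left he)
  obtain ⟨b1, -, b3⟩ := memP.1 (hS.right he)
  have hle : C.nx i j ≤ i' := by
    rcases nx_spec (C := C) i j with ⟨c, e⟩ | ⟨c, e⟩
    · by_contra hc
      exact b3 ((show i + 1 = i' by omega) ▸ c)
    · omega
  have hx := C.hx hlt
  have heq : C.nx i j = i' := by
    rcases hS.prim' he _ (nx_mem (show i + 1 < C.N by omega) a2)
      ((seg_horiz hx.le).2 ⟨rfl, (lt_nx i j).le, C.hx.monotone hle⟩) with e | e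
    · exact absurd (congrArg Prod.fst e) (lt_nx i j).ne'
    · exact C.hx.injective (congrArg Prod.fst e)
  by_cases h : C.hole (i + 1) j → C.τ (i + 1) j = true
  · rw [← heq]; exact hE_mem ⟨by omega, a2, a3, h⟩
  · push Not at h
    have c1 := C.hh.inner _ _ h.1
    have c2 := C.hh.even _ _ h.1
    obtain ⟨f, hf, hsub⟩ := cover_v (C := C) (i := i + 1) (j := j) (by omega) (by omega)
      (fun _ => by simpa using h.2) (fun h' => by have := C.hh.even _ _ h'; omega)
    induction f using Sym2.ind with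
    | h g k =>
      rw [hS.eq_of_meet he (hT hf) (y := (C.x (i + 1), C.y j))
        ((seg_horiz hx.le).2 ⟨rfl, C.hx.monotone (by omega), C.hx.monotone hlt⟩)
        (hsub (left_mem_segment _ _ _)) (fun hP => (memP.1 hP).2.2 h.1)]
      exact hf

theorem max_v {i j j' : ℕ} (hlt : j < j') (he : s((C.x i, C.y j), (C.x i, C.y j')) ∈ S) :
    s((C.x i, C.y j), (C.x i, C.y j')) ∈ C.T := by
  obtain ⟨a1, a2, a3⟩ := memP.1 (hS.left he)
  obtain ⟨-, b1, b3⟩ := memP.1 (hS.right he)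
  have hle : C.ny i j ≤ j' := by
    rcases ny_spec (C := C) i j with ⟨c, e⟩ | ⟨c, e⟩
    · by_contra hc
      exact b3 ((show j + 1 = j' by omega) ▸ c)
    · omega
  have hx := C.hy hlt
  have heq : C.ny i j = j' := by
    rcases hS.prim' he _ (ny_mem a1 (show j + 1 < C.N by omega))
      ((seg_vert hx.le).2 ⟨rfl, (lt_ny i j).le, C.hy.monotone hle⟩) with e | e
    · exact absurd (congrArg Prod.snd e) (lt_ny i j).ne'
    · exact C.hy.injective (congrArg Prod.snd e)
  by_cases h : C.hole i (j + 1) → C.τ i (j + 1) = false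
  · rw [← heq]; exact vE_mem ⟨a1, by omega, a3, h⟩
  · push Not at h
    have c1 := C.hh.inner _ _ h.1
    have c2 := C.hh.even _ _ h.1
    obtain ⟨f, hf, hsub⟩ := cover_h (C := C) (i := i) (j := j + 1) (by omega) (by omega)
      (fun _ => by simpa using h.2) (fun h' => by have := C.hh.even _ _ h'; omega)
    induction f using Sym2.ind with
    | h g k =>
      rw [hS.eq_of_meet he (hT hf) (y := (C.x i, C.y (j + 1)))
        ((seg_vert hx.le).2 ⟨rfl, C.hy.monotone (by omega), C.hy.monotone hlt⟩)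
        (hsub (left_mem_segment _ _ _)) (fun hP => (memP.1 hP).2.2 h.1)]
      exact hf

theorem max_ne {i i' j j' : ℕ} (hi : i < i') (hj : j < j')
    (he : s((C.x i, C.y j), (C.x i', C.y j')) ∈ S) :
    s((C.x i, C.y j), (C.x i', C.y j')) ∈ C.T := by
  obtain ⟨b1, b2, -⟩ := memP.1 (hS.right he)
  have x1 : C.x i < C.x (i + 1) := C.hx (by omega)
  have y1 : C.y j < C.y (j + 1) := C.hy (by omega)
  obtain ⟨u, hu, eu⟩ := exists_ratio (Or.inl ⟨x1, C.hx.monotone hi⟩)
  obtain ⟨v, hv, ev⟩ := exists_ratio (Or.inl ⟨y1, C.hy.monotone hj⟩)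
  rw [eu, ev] at he ⊢
  refine oblique hS hT x1.ne hu hv he
    (fun s t s0 s1 => notMem_x (i := i) (by nlinarith) (by nlinarith))
    (fun s t s0 s1 => notMem_y (j := j) (by nlinarith) (by nlinarith)) ?_
  rcases Nat.mod_two_eq_zero_or_one (i + j) with h | h
  · exact Or.inl (dE_even (by omega) (by omega) h)
  · refine Or.inr ⟨dE_odd (by omega) (by omega) h, fun u1 => ?_, fun v1 => ?_⟩
    · by_cases hh : C.hole (i + 1) j → C.τ (i + 1) j = false
      · exact Or.inl (cover_v (by omega) (by omega) hh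
          fun h' => by have := C.hh.even _ _ h'; omega)
      · push Not at hh
        have c1 := C.hh.inner _ _ hh.1
        have i2 : i + 1 < i' := C.hx.lt_iff_lt.1 (by nlinarith)
        obtain ⟨u', hu', eu'⟩ := exists_ratio (a := C.x (i + 1)) (b := C.x (i + 1 + 1))
          (Or.inl ⟨C.hx (by omega), C.hx.monotone i2⟩)
        exact Or.inr ⟨_, u', hu', eu.symm.trans eu', dE_even (by omega) (by omega) (by omega)⟩
    · by_cases hh : C.hole i (j + 1) → C.τ i (j + 1) = true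
      · exact Or.inl (cover_h (by omega) (by omega) hh
          fun h' => by have := C.hh.even _ _ h'; omega)
      · push Not at hh
        have c1 := C.hh.inner _ _ hh.1
        have i2 : j + 1 < j' := C.hy.lt_iff_lt.1 (by nlinarith)
        obtain ⟨u', hu', eu'⟩ := exists_ratio (a := C.y (j + 1)) (b := C.y (j + 1 + 1))
          (Or.inl ⟨C.hy (by omega), C.hy.monotone i2⟩)
        exact Or.inr ⟨_, u', hu', ev.symm.trans eu', dE_even (by omega) (by omega) (by omega)⟩

theorem max_se {i i' j j' : ℕ} (hi : i < i') (hj : j' ≤ j)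
    (he : s((C.x i, C.y (j + 1)), (C.x i', C.y j')) ∈ S) :
    s((C.x i, C.y (j + 1)), (C.x i', C.y j')) ∈ C.T := by
  obtain ⟨-, b2, -⟩ := memP.1 (hS.left he)
  obtain ⟨b1, -, -⟩ := memP.1 (hS.right he)
  have x1 : C.x i < C.x (i + 1) := C.hx (by omega)
  have y1 : C.y j < C.y (j + 1) := C.hy (by omega)
  obtain ⟨u, hu, eu⟩ := exists_ratio (Or.inl ⟨x1, C.hx.monotone hi⟩)
  obtain ⟨v, hv, ev⟩ := exists_ratio (Or.inr ⟨y1, C.hy.monotone hj⟩)
  rw [eu, ev] at he ⊢
  refine oblique hS hT x1.ne hu hv he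
    (fun s t s0 s1 => notMem_x (i := i) (by nlinarith) (by nlinarith))
    (fun s t s0 s1 => notMem_y (j := j) (by nlinarith) (by nlinarith)) ?_
  rcases Nat.mod_two_eq_zero_or_one (i + j) with h | h
  · refine Or.inr ⟨swap_mem (dE_even (by omega) (by omega) h), fun u1 => ?_, fun v1 => ?_⟩
    · by_cases hh : C.hole (i + 1) (j + 1) → C.τ (i + 1) (j + 1) = false
      · rw [segment_symm]
        exact Or.inl (cover_v (by omega) (by omega)
          (fun h' => by have := C.hh.even _ _ h'; omega) hh)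
      · push Not at hh
        have c1 := C.hh.inner _ _ hh.1
        have i2 : i + 1 < i' := C.hx.lt_iff_lt.1 (by nlinarith)
        obtain ⟨u', hu', eu'⟩ := exists_ratio (a := C.x (i + 1)) (b := C.x (i + 1 + 1))
          (Or.inl ⟨C.hx (by omega), C.hx.monotone i2⟩)
        exact Or.inr ⟨_, u', hu', eu.symm.trans eu',
          swap_mem (dE_odd (by omega) (by omega) (by omega))⟩
    · by_cases hh : C.hole i j → C.τ i j = true
      · exact Or.inl (cover_h (by omega) (by omega) hh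
          fun h' => by have := C.hh.even _ _ h'; omega)
      · push Not at hh
        have c1 := C.hh.inner _ _ hh.1
        have i2 : j' < j := C.hy.lt_iff_lt.1 (by nlinarith)
        obtain ⟨k, rfl⟩ : ∃ k, j = k + 1 := ⟨j - 1, by omega⟩
        obtain ⟨u', hu', eu'⟩ := exists_ratio (a := C.y (k + 1)) (b := C.y k) (q := C.y j')
          (Or.inr ⟨C.hy (by omega), C.hy.monotone (by omega)⟩)
        exact Or.inr ⟨_, u', hu', ev.symm.trans eu',
          swap_mem (dE_odd (by omega) (by omega) (by omega))⟩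
  · exact Or.inl (swap_mem (dE_odd (by omega) (by omega) h))

omit hS hT in
theorem triang : IsTriangulation C.P C.T := by
  refine ⟨plane, fun S hS hT e he => ?_⟩
  have key : ∀ i i' j j', i < i' → s((C.x i, C.y j), (C.x i', C.y j')) ∈ S →
      s((C.x i, C.y j), (C.x i', C.y j')) ∈ C.T := by
    intro i i' j j' hi h
    rcases lt_trichotomy j j' with hj | rfl | hj
    · exact max_ne hS hT hi hj h
    · exact max_h hS hT hi h
    · obtain ⟨k, rfl⟩ : ∃ k, j = k + 1 := ⟨j - 1, by omega⟩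
      exact max_se hS hT hi (by omega) h
  induction e using Sym2.ind with
  | h p q =>
    obtain ⟨i, -, j, -, -, rfl⟩ := hS.left he
    obtain ⟨i', -, j', -, -, rfl⟩ := hS.right he
    rcases lt_trichotomy i i' with hi | rfl | hi
    · exact key _ _ _ _ hi he
    · rcases lt_trichotomy j j' with hj | rfl | hj
      · exact max_v hS hT hj he
      · exact absurd rfl (hS.ne he)
      · exact swap_mem (max_v hS hT hj (swap_mem he))
    · exact swap_mem (key _ _ _ _ hi (swap_mem he))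

end Cfg

end Pool.Agent.MP_2e9a04_lc.H93
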