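import Pool.Agent.MP_2e9a04_lc.H93.Defs

set_option autoImplicit false

namespace Pool.Agent.MP_2e9a04_lc.H93

/-- the `N × N` grid with abscissae `x i`, ordinates `y j`, without the holes -/
def gridSet (N : ℕ) (x y : ℕ → ℝ) (hole : ℕ → ℕ → Prop) : Set Pt :=
  {z | ∃ i < N, ∃ j < N, ¬ hole i j ∧ z = (x i, y j)}

/-- holes are interior positions of even parity -/
structure GoodHoles (N : ℕ) (hole : ℕ → ℕ → Prop) : Prop where
  inner : ∀ i j, hole i j → 0 < i ∧ i + 1 < N ∧ 0 < j ∧ j + 1 < N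
  even : ∀ i j, hole i j → (i + j) % 2 = 0

/-- `τ i j = true`: the hole in column `i`, row `j` is filled horizontally.  Every interior row
without holes has a horizontally filled hole in a neighbouring row, every interior column without
holes has a vertically filled hole in a neighbouring column. -/
def Solves (N : ℕ) (hole : ℕ → ℕ → Prop) (τ : ℕ → ℕ → Bool) : Prop :=
  (∀ j, j + 2 < N → (∀ i, ¬ hole i (j + 1)) →
    ∃ i, (hole i j ∧ τ i j = true) ∨ (hole i (j + 2) ∧ τ i (j + 2) = true)) ∧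
  (∀ i, i + 2 < N → (∀ j, ¬ hole (i + 1) j) →
    ∃ j, (hole i j ∧ τ i j = false) ∨ (hole (i + 2) j ∧ τ (i + 2) j = false))

/-- an oblique line contains at most two grid positions -/
def NoThree (N : ℕ) (x y : ℕ → ℝ) : Prop :=
  ∀ a b c : ℝ, a ≠ 0 → b ≠ 0 →
    {p : ℕ × ℕ | p.1 < N ∧ p.2 < N ∧ a * x p.1 + b * y p.2 = c}.encard ≤ 2

/-- MODULE S (helper93) -/
def SpecSound : Prop :=
  ∀ (N : ℕ) (x y : ℕ → ℝ) (hole : ℕ → ℕ → Prop) (T : Set (Sym2 Pt)), 2 ≤ N → StrictMono x →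
    StrictMono y → GoodHoles N hole → IsTriangulation (gridSet N x y hole) T →
    StabLE T (5 * N - 4) → ∃ τ, Solves N hole τ

/-- MODULE C -/
def SpecComplete : Prop :=
  ∀ (N : ℕ) (x y : ℕ → ℝ) (hole : ℕ → ℕ → Prop) (τ : ℕ → ℕ → Bool), 10 ≤ N → StrictMono x →
    StrictMono y → GoodHoles N hole → NoThree N x y → Solves N hole τ →
    ∃ T, IsTriangulation (gridSet N x y hole) T ∧ StabLE T (5 * N - 4)

end Pool.Agent.MP_2e9a04_lc.H93
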