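import Pool.Agent.MP_2e9a04_lc.H93.Count
import Pool.Agent.MP_2e9a04_lc.H93.Spec

set_option autoImplicit false

namespace Pool.Agent.MP_2e9a04_lc.H93

variable {P : Set Pt} {T : Set (Sym2 Pt)}

theorem swap_mem_seg {a b z : Pt} : z.swap ∈ segment ℝ a.swap b.swap ↔ z ∈ segment ℝ a b := by
  simp only [mem_seg_iff]
  constructor
  · rintro ⟨t, h0, h1, h⟩
    exact ⟨t, h0, h1, Prod.ext (congrArg Prod.snd h) (congrArg Prod.fst h)⟩
  · rintro ⟨t, h0, h1, rfl⟩
    exact ⟨t, h0, h1, rfl⟩

/-- reflection of a set of segments in the diagonal -/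
def swapT (T : Set (Sym2 Pt)) : Set (Sym2 Pt) := Sym2.map Prod.swap ⁻¹' T

theorem map_swap_swap (e : Sym2 Pt) : Sym2.map Prod.swap (Sym2.map Prod.swap e) = e := by
  induction e using Sym2.ind with
  | h a b => simp

theorem map_swap_inj : Function.Injective (Sym2.map (Prod.swap : Pt → Pt)) :=
  Function.LeftInverse.injective map_swap_swap

theorem mem_seg_map {e : Sym2 Pt} {z : Pt} : z.swap ∈ seg (Sym2.map Prod.swap e) ↔ z ∈ seg e := by
  induction e using Sym2.ind with
  | h a b => exact swap_mem_seg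

theorem mem_map_swap {e : Sym2 Pt} {z : Pt} : z.swap ∈ Sym2.map Prod.swap e ↔ z ∈ e := by
  induction e using Sym2.ind with
  | h a b => simp [Prod.swap_inj]

theorem IsPlane.swap (h : IsPlane P T) : IsPlane (Prod.swap ⁻¹' P) (swapT T) := by
  refine ⟨fun e he => ⟨?_, fun a ha => (h.ends _ he).2 _ (mem_map_swap.2 ha)⟩,
    fun e he z hz hs => mem_map_swap.1 (h.prim _ he _ hz (mem_seg_map.2 hs)),
    fun e he e' he' hne z h1 h2 => ?_⟩
  · have := (h.ends _ he).1
    induction e using Sym2.ind with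
    | h a b => simpa [Prod.swap_inj] using this
  · have := h.cross _ he _ he' (fun e => hne (map_swap_inj e)) _ (mem_seg_map.2 h1)
      (mem_seg_map.2 h2)
    exact ⟨mem_map_swap.1 this.1, mem_map_swap.1 this.2⟩

theorem IsTriangulation.swap (h : IsTriangulation P T) :
    IsTriangulation (Prod.swap ⁻¹' P) (swapT T) := by
  refine ⟨h.prop.swap, fun S hS hle e he => ?_⟩
  have h1 : IsPlane P (swapT S) := hS.swap
  have h2 : T ⊆ swapT S := fun f hf => hle (show Sym2.map _ (Sym2.map _ f) ∈ T by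
    rwa [map_swap_swap])
  exact h.le_of_ge h1 h2 (show Sym2.map _ (Sym2.map _ e) ∈ S by rwa [map_swap_swap])

theorem stabbed_swap (a b c : ℝ) :
    stabbed (swapT T) a b c = Sym2.map Prod.swap ⁻¹' stabbed T b a c := by
  ext e
  simp only [stabbed, swapT, Set.mem_preimage, Set.mem_ofPred_eq]
  refine and_congr_right fun _ => ⟨?_, ?_⟩
  · rintro ⟨z, h1, h2⟩
    exact ⟨z.swap, mem_seg_map.2 h1, by simp only [Prod.fst_swap, Prod.snd_swap]; linarith⟩
  · rintro ⟨z, h1, h2⟩
    exact ⟨z.swap, mem_seg_map.1 (by simpa using h1), by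
      simp only [Prod.fst_swap, Prod.snd_swap]; linarith⟩

theorem encard_stabbed_swap (a b c : ℝ) :
    (stabbed (swapT T) a b c).encard = (stabbed T b a c).encard := by
  rw [stabbed_swap]
  exact Set.encard_preimage_of_bijective
    ⟨map_swap_inj, Function.RightInverse.surjective map_swap_swap⟩ _

theorem StabLE.swap {k : ℕ} (h : StabLE T k) : StabLE (swapT T) k := fun a b c hab => by
  rw [encard_stabbed_swap]; exact h b a c hab.symm

theorem gridSet_swap (N : ℕ) (x y : ℕ → ℝ) (hole : ℕ → ℕ → Prop) :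
    Prod.swap ⁻¹' gridSet N x y hole = gridSet N y x fun i j => hole j i := by
  ext z
  constructor
  · rintro ⟨i, hi, j, hj, h, e⟩
    exact ⟨j, hj, i, hi, h, Prod.ext (congrArg Prod.snd e) (congrArg Prod.fst e)⟩
  · rintro ⟨i, hi, j, hj, h, rfl⟩
    exact ⟨j, hj, i, hi, h, rfl⟩

theorem GoodHoles.swap {N : ℕ} {hole : ℕ → ℕ → Prop} (h : GoodHoles N hole) :
    GoodHoles N fun i j => hole j i :=
  ⟨fun i j hh => by have := h.inner j i hh; omega, fun i j hh => by have := h.even j i hh; omega⟩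

theorem gridSet_finite (N : ℕ) (x y : ℕ → ℝ) (hole : ℕ → ℕ → Prop) :
    (gridSet N x y hole).Finite := by
  refine (((Set.finite_Iio N).prod (Set.finite_Iio N)).image fun p => (x p.1, y p.2)).subset ?_
  rintro _ ⟨i, hi, j, hj, -, rfl⟩
  exact ⟨(i, j), ⟨hi, hj⟩, rfl⟩

theorem mem_gridSet {N : ℕ} {x y : ℕ → ℝ} {hole : ℕ → ℕ → Prop} (hx : StrictMono x)
    (hy : StrictMono y) {i j : ℕ} :
    (x i, y j) ∈ gridSet N x y hole ↔ i < N ∧ j < N ∧ ¬ hole i j := by
  constructor
  · rintro ⟨i', hi, j', hj, h, e⟩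
    obtain ⟨e1, e2⟩ := Prod.ext_iff.1 e
    obtain rfl := hx.injective e1
    obtain rfl := hy.injective e2
    exact ⟨hi, hj, h⟩
  · rintro ⟨hi, hj, h⟩
    exact ⟨i, hi, j, hj, h, rfl⟩

theorem sound_row {N : ℕ} {x y : ℕ → ℝ} {hole : ℕ → ℕ → Prop} (hx : StrictMono x)
    (hy : StrictMono y) (hh : GoodHoles N hole) (hT : IsTriangulation (gridSet N x y hole) T)
    (hs : StabLE T (5 * N - 4)) {j : ℕ} (hj : j + 2 < N) (hfree : ∀ i, ¬ hole i (j + 1)) :
    ∃ i, (hole i j ∧ s((x (i - 1), y j), (x (i + 1), y j)) ∈ T) ∨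
      (hole i (j + 2) ∧ s((x (i - 1), y (j + 2)), (x (i + 1), y (j + 2))) ∈ T) := by
  by_contra hcon
  push Not at hcon
  have hstrip : ∀ k, IsStrip (gridSet N x y hole) T (y k) (y (k + 1)) := fun k =>
    ⟨gridSet_finite _ _ _ _, hT, hy (by omega), by
      rintro _ ⟨i, -, l, -, -, rfl⟩
      simp only [hy.le_iff_le]; omega⟩
  have honly : ∀ k a, (a, y k) ∈ gridSet N x y hole → ∃ i, a = x i := by
    rintro k a ⟨i, -, l, -, -, e⟩
    exact ⟨i, congrArg Prod.fst e⟩
  have hrow : ∀ k < N, (∀ i, hole i k → s((x (i - 1), y k), (x (i + 1), y k)) ∉ T) →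
      HoleRow (gridSet N x y hole) T N x (y k) := by
    intro k hk h
    refine ⟨honly k, (mem_gridSet hx hy).2 ⟨by omega, hk, fun h0 => ?_⟩, fun i hi hP => ?_⟩
    · have := hh.inner _ _ h0; omega
    · have hi' : hole i k := by
        by_contra h0; exact hP ((mem_gridSet hx hy).2 ⟨hi, hk, h0⟩)
      have h1 := hh.inner _ _ hi'
      have h2 := hh.even _ _ hi'
      obtain ⟨i', rfl⟩ : ∃ i', i = i' + 1 := ⟨i - 1, by omega⟩
      refine ⟨i', rfl, (mem_gridSet hx hy).2 ⟨by omega, hk, fun h0 => ?_⟩,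
        (mem_gridSet hx hy).2 ⟨by omega, hk, fun h0 => ?_⟩, by simpa using h _ hi'⟩
      · have := hh.even _ _ h0; omega
      · have := hh.even _ _ h0; omega
  have key := key_row (hstrip j) (hstrip (j + 1)) (N := N) hx (by omega)
    (by rintro _ ⟨i, hi, l, -, -, rfl⟩; exact hx.monotone (by omega))
    ⟨fun i hi => (mem_gridSet hx hy).2 ⟨hi, by omega, hfree i⟩, honly _⟩
    (hrow j (by omega) fun i h => (hcon i).1 h) (hrow (j + 2) hj fun i h => (hcon i).2 h)
  have h1 := hs 0 1 (y (j + 1)) (Or.inr one_ne_zero)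
  have hfin : (stabbed T 0 1 (y (j + 1))).Finite :=
    (hT.prop.finite (gridSet_finite _ _ _ _)).subset fun _ h => h.1
  rw [← hfin.cast_ncard_eq, Nat.cast_le] at h1
  omega

theorem sound : SpecSound := by
  classical
  intro N x y hole T _ hx hy hh hT hs
  refine ⟨fun i j => decide (s((x (i - 1), y j), (x (i + 1), y j)) ∈ T), fun j hj hfree => ?_,
    fun i hi hfree => ?_⟩
  · simpa using sound_row hx hy hh hT hs hj hfree
  · have hT' := hT.swap
    rw [gridSet_swap] at hT'
    have key : ∀ i j, hole i j → s((y (j - 1), x i), (y (j + 1), x i)) ∈ swapT T →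
        s((x (i - 1), y j), (x (i + 1), y j)) ∉ T := by
      intro i j h h1 h2
      have h3 : s((x i, y (j - 1)), (x i, y (j + 1))) ∈ T := h1
      have hi := hh.inner _ _ h
      have a1 : x (i - 1) < x i := hx (by omega)
      have a2 : x i < x (i + 1) := hx (by omega)
      have b1 : y (j - 1) < y j := hy (by omega)
      have b2 : y j < y (j + 1) := hy (by omega)
      have m1 : (x i, y j) ∈ segment ℝ (x i, y (j - 1)) (x i, y (j + 1)) := by
        have := pos_mem (e := ((x i, y (j - 1)), (x i, y (j + 1)))) (h := y j) (b1.trans b2)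
          b1.le b2.le
        simpa [pos] using this
      have m2 : (x i, y j) ∈ segment ℝ (x (i - 1), y j) (x (i + 1), y j) := by
        have := pos_mem (e := ((y j, x (i - 1)), (y j, x (i + 1)))) (h := x i) (a1.trans a2)
          a1.le a2.le
        rw [← swap_mem_seg] at this
        simpa [pos] using this
      have := hT.prop.eq_of_meet h3 h2 m1 m2 fun hP => ((mem_gridSet hx hy).1 hP).2.2 h
      rcases Sym2.eq_iff.1 this with ⟨a, -⟩ | ⟨a, -⟩
      · have := congrArg Prod.fst a; simp only at this; linarith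
      · have := congrArg Prod.fst a; simp only at this; linarith
    obtain ⟨j, h⟩ := sound_row hy hx hh.swap hT' hs.swap hi hfree
    refine ⟨j, ?_⟩
    rcases h with ⟨h1, h2⟩ | ⟨h1, h2⟩
    · exact Or.inl ⟨h1, by simpa using key _ _ h1 h2⟩
    · exact Or.inr ⟨h1, by simpa using key _ _ h1 h2⟩

end Pool.Agent.MP_2e9a04_lc.H93
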