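import Pool.Agent.MP_2e9a04_lc.H93.Max

set_option autoImplicit false

namespace Pool.Agent.MP_2e9a04_lc.H93

theorem encard_le_of_inj {α : Type} (S : Set α) (f : α → ℕ) (n : ℕ) (h1 : ∀ a ∈ S, f a < n)
    (h2 : Set.InjOn f S) : S.encard ≤ n := by
  have := Set.encard_le_encard_of_injOn (t := (Finset.range n : Set ℕ)) (f := f)
    (fun a ha => by simpa using h1 a ha) h2
  rwa [Set.encard_coe_eq_coe_finsetCard, Finset.card_range] at this

theorem encard_le_of_inj' {α : Type} (S : Set α) (f : α → ℕ) (n k : ℕ) (hk : k < n)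
    (h1 : ∀ a ∈ S, f a < n) (h3 : ∀ a ∈ S, f a ≠ k) (h2 : Set.InjOn f S) :
    S.encard ≤ (n - 1 : ℕ) := by
  have := Set.encard_le_encard_of_injOn (t := ((Finset.range n).erase k : Set ℕ)) (f := f)
    (fun a ha => by simpa using ⟨h1 a ha, h3 a ha⟩) h2
  rw [Set.encard_coe_eq_coe_finsetCard, Finset.card_erase_of_mem (by simpa), Finset.card_range]
    at this
  exact this

theorem encard_split {α : Type} (S : Set α) (p : α → Prop) {m n : ℕ}
    (h1 : {a ∈ S | p a}.encard ≤ m) (h2 : {a ∈ S | ¬ p a}.encard ≤ n) :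
    S.encard ≤ (m + n : ℕ) := by
  have : S = {a ∈ S | p a} ∪ {a ∈ S | ¬ p a} := by
    ext a; by_cases h : p a <;> simp [h]
  rw [this, Nat.cast_add]
  exact (Set.encard_union_le _ _).trans (add_le_add h1 h2)

namespace Cfg

variable (C : Cfg) (a b c : ℝ)

/-- horizontal edges met by a line -/
def IH : Set (ℕ × ℕ) :=
  {p | C.HE p.1 p.2 ∧ ∃ s, C.x p.1 ≤ s ∧ s ≤ C.x (C.nx p.1 p.2) ∧ a * s + b * C.y p.2 = c}

/-- vertical edges met by a line -/
def IV : Set (ℕ × ℕ) :=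
  {p | C.VE p.1 p.2 ∧ ∃ s, C.y p.2 ≤ s ∧ s ≤ C.y (C.ny p.1 p.2) ∧ a * C.x p.1 + b * s = c}

/-- closed cells met by a line -/
def ID : Set (ℕ × ℕ) :=
  {p | p.1 + 1 < C.N ∧ p.2 + 1 < C.N ∧ ∃ s t, C.x p.1 ≤ s ∧ s ≤ C.x (p.1 + 1) ∧ C.y p.2 ≤ t ∧
    t ≤ C.y (p.2 + 1) ∧ a * s + b * t = c}

variable {C a b c}

theorem stab_le {l m n : ℕ} (h1 : (C.IH a b c).encard ≤ l) (h2 : (C.IV a b c).encard ≤ m)
    (h3 : (C.ID a b c).encard ≤ n) : (stabbed C.T a b c).encard ≤ (l + m + n : ℕ) := by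
  have : stabbed C.T a b c ⊆ ((fun p => C.hE p.1 p.2) '' C.IH a b c ∪
      (fun p => C.vE p.1 p.2) '' C.IV a b c) ∪ (fun p => C.dE p.1 p.2) '' C.ID a b c := by
    rintro e ⟨⟨i, j, h, rfl⟩ | ⟨i, j, h, rfl⟩ | ⟨i, j, h, h', rfl⟩, z, z1, z2⟩
    · obtain ⟨a1, a2, a3⟩ := mem_hE.1 z1
      exact Or.inl (Or.inl ⟨(i, j), ⟨h, z.1, a2, a3, by rw [← a1]; exact z2⟩, rfl⟩)
    · obtain ⟨a1, a2, a3⟩ := mem_vE.1 z1
      exact Or.inl (Or.inr ⟨(i, j), ⟨h, z.2, a2, a3, by rw [← a1]; exact z2⟩, rfl⟩)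
    · obtain ⟨a1, a2, a3, a4⟩ := box_dE z1
      exact Or.inr ⟨(i, j), ⟨h, h', z.1, z.2, a1, a2, a3, a4, z2⟩, rfl⟩
  refine (Set.encard_le_encard this).trans ((Set.encard_union_le _ _).trans ?_)
  rw [Nat.cast_add, Nat.cast_add]
  refine add_le_add ((Set.encard_union_le _ _).trans (add_le_add ?_ ?_)) ?_
  · exact (Set.encard_image_le _ _).trans h1
  · exact (Set.encard_image_le _ _).trans h2
  · exact (Set.encard_image_le _ _).trans h3

section Oblique

variable (h3 : NoThree C.N C.x C.y) (ha : a ≠ 0) (hb : b ≠ 0)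
include h3 ha hb

theorem corner_le (S : Set (ℕ × ℕ)) (f : ℕ × ℕ → ℕ × ℕ) (hf : Function.Injective f)
    (h : ∀ p ∈ S, (f p).1 < C.N ∧ (f p).2 < C.N ∧ a * C.x (f p).1 + b * C.y (f p).2 = c) :
    S.encard ≤ (2 : ℕ) :=
  (Set.encard_le_encard_of_injOn (s := S) (f := f)
    (t := {p : ℕ × ℕ | p.1 < C.N ∧ p.2 < C.N ∧ a * C.x p.1 + b * C.y p.2 = c})
    (fun p hp => h p hp) hf.injOn).trans (h3 a b c ha hb)

theorem IH_obl : (C.IH a b c).encard ≤ (2 + C.N : ℕ) := by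
  refine encard_split _ (fun p => a * C.x p.1 + b * C.y p.2 = c)
    (corner_le (c := c) h3 ha hb _ id Function.injective_id ?_)
    (encard_le_of_inj _ Prod.snd _ (fun p hp => hp.1.1.2.1) ?_)
  · rintro p ⟨⟨h, -⟩, h'⟩
    exact ⟨by have := h.1; simp only [id]; omega, h.2.1, h'⟩
  · rintro ⟨i, j⟩ ⟨⟨h, s, s1, s2, s3⟩, hs⟩ ⟨k, l⟩ ⟨⟨h', t, t1, t2, t3⟩, ht⟩ e
    obtain rfl : j = l := e
    simp only at *
    obtain rfl : s = t := mul_left_cancel₀ ha (by linarith)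
    have s1' : C.x i < s := lt_of_le_of_ne s1 (by rintro rfl; exact hs s3)
    have t1' : C.x k < s := lt_of_le_of_ne t1 (by rintro rfl; exact ht t3)
    rw [HE_unique h h' (C.hx.lt_iff_lt.1 (s1'.trans_le t2)) (C.hx.lt_iff_lt.1 (t1'.trans_le s2))]

theorem IV_obl : (C.IV a b c).encard ≤ (2 + C.N : ℕ) := by
  refine encard_split _ (fun p => a * C.x p.1 + b * C.y p.2 = c)
    (corner_le (c := c) h3 ha hb _ id Function.injective_id ?_)
    (encard_le_of_inj _ Prod.fst _ (fun p hp => hp.1.1.1) ?_)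
  · rintro p ⟨⟨h, -⟩, h'⟩
    exact ⟨h.1, by have := h.2.1; simp only [id]; omega, h'⟩
  · rintro ⟨i, j⟩ ⟨⟨h, s, s1, s2, s3⟩, hs⟩ ⟨k, l⟩ ⟨⟨h', t, t1, t2, t3⟩, ht⟩ e
    obtain rfl : i = k := e
    simp only at *
    obtain rfl : s = t := mul_left_cancel₀ hb (by linarith)
    have s1' : C.y j < s := lt_of_le_of_ne s1 (by rintro rfl; exact hs s3)
    have t1' : C.y l < s := lt_of_le_of_ne t1 (by rintro rfl; exact ht t3)
    rw [VE_unique h h' (C.hy.lt_iff_lt.1 (s1'.trans_le t2)) (C.hy.lt_iff_lt.1 (t1'.trans_le s2))]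

theorem ID_obl : (C.ID a b c).encard ≤ (2 + 2 * C.N : ℕ) := by
  rcases lt_or_gt_of_ne (mul_ne_zero ha hb) with hab | hab
  · refine encard_split _ (fun p => a * C.x (p.1 + 1) + b * C.y p.2 = c)
      (corner_le (c := c) h3 ha hb _ (fun p => (p.1 + 1, p.2))
        (fun p q h => by simpa [Prod.ext_iff] using h) ?_)
      (encard_le_of_inj _ (fun p => p.1 + p.2) _
        (fun p hp => by have := hp.1.1; have := hp.1.2.1; omega) ?_)
    · rintro p ⟨⟨h, h', -⟩, h''⟩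
      exact ⟨h, by simp only; omega, h''⟩
    · have key : ∀ p ∈ C.ID a b c, ∀ q ∈ C.ID a b c, p.1 < q.1 → q.2 < p.2 →
          a * C.x (p.1 + 1) + b * C.y p.2 = c := by
        rintro ⟨i, j⟩ ⟨-, -, s, t, a1, a2, a3, a4, a5⟩ ⟨k, l⟩ ⟨-, -, s', t', b1, b2, b3, b4, b5⟩
          h1 h2
        simp only at *
        have c1 : C.x (i + 1) ≤ C.x k := C.hx.monotone h1
        have c2 : C.y (l + 1) ≤ C.y j := C.hy.monotone h2
        have e : a * (s' - s) = b * (t - t') := by linarith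
        have e1 : s' - s = 0 := by
          have : a ^ 2 * (s' - s) = a * b * (t - t') := by linear_combination a * e
          have h4 : a * b * (t - t') ≤ 0 := mul_nonpos_of_nonpos_of_nonneg hab.le (by linarith)
          have h5 : 0 < a ^ 2 := by positivity
          nlinarith
        have e2 : t - t' = 0 := by
          rw [e1, mul_zero] at e; exact (mul_eq_zero.1 e.symm).resolve_left hb
        have : s = C.x (i + 1) := by linarith
        have : t = C.y j := by linarith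
        simp_all
      rintro p ⟨hp, hp'⟩ q ⟨hq, hq'⟩ e
      simp only at e
      rcases lt_trichotomy p.1 q.1 with h | h | h
      · exact absurd (key p hp q hq h (by omega)) hp'
      · exact Prod.ext h (by omega)
      · exact absurd (key q hq p hp h (by omega)) hq'
  · refine encard_split _ (fun p => a * C.x (p.1 + 1) + b * C.y (p.2 + 1) = c)
      (corner_le (c := c) h3 ha hb _ (fun p => (p.1 + 1, p.2 + 1))
        (fun p q h => by simpa [Prod.ext_iff] using h) ?_)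
      (encard_le_of_inj _ (fun p => p.1 + (C.N - p.2)) _
        (fun p hp => by have := hp.1.1; have := hp.1.2.1; omega) ?_)
    · rintro p ⟨⟨h, h', -⟩, h''⟩
      exact ⟨h, h', h''⟩
    · have key : ∀ p ∈ C.ID a b c, ∀ q ∈ C.ID a b c, p.1 < q.1 → p.2 < q.2 →
          a * C.x (p.1 + 1) + b * C.y (p.2 + 1) = c := by
        rintro ⟨i, j⟩ ⟨-, -, s, t, a1, a2, a3, a4, a5⟩ ⟨k, l⟩ ⟨-, -, s', t', b1, b2, b3, b4, b5⟩
          h1 h2
        simp only at *
        have c1 : C.x (i + 1) ≤ C.x k := C.hx.monotone h1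
        have c2 : C.y (j + 1) ≤ C.y l := C.hy.monotone h2
        have e : a * (s' - s) = b * (t - t') := by linarith
        have e1 : s' - s = 0 := by
          have : a ^ 2 * (s' - s) = a * b * (t - t') := by linear_combination a * e
          have h4 : a * b * (t - t') ≤ 0 := mul_nonpos_of_nonneg_of_nonpos hab.le (by linarith)
          have h5 : 0 < a ^ 2 := by positivity
          nlinarith
        have e2 : t - t' = 0 := by
          rw [e1, mul_zero] at e; exact (mul_eq_zero.1 e.symm).resolve_left hb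
        have : s = C.x (i + 1) := by linarith
        have : t = C.y (j + 1) := by linarith
        simp_all
      rintro p ⟨hp, hp'⟩ q ⟨hq, hq'⟩ e
      simp only at e
      have := hp.2.1
      have := hq.2.1
      rcases lt_trichotomy p.1 q.1 with h | h | h
      · exact absurd (key p hp q hq h (by omega)) hp'
      · exact Prod.ext h (by omega)
      · exact absurd (key q hq p hp h (by omega)) hq'

end Oblique

section Row

theorem stab_row (hN : 2 ≤ C.N)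
    (hs : ∀ j, j + 2 < C.N → (∀ i, ¬ C.hole i (j + 1)) →
      ∃ i, (C.hole i j ∧ C.τ i j = true) ∨ (C.hole i (j + 2) ∧ C.τ i (j + 2) = true))
    (hb : b ≠ 0) : (stabbed C.T 0 b c).encard ≤ (5 * C.N - 4 : ℕ) := by
  set h := c / b with hh
  have hc : ∀ s t : ℝ, 0 * s + b * t = c → t = h := fun s t e => by
    rw [hh, eq_div_iff hb]; linarith
  -- the five families
  have mH : ∀ p ∈ C.IH 0 b c, C.HE p.1 p.2 ∧ C.y p.2 = h := fun p hp =>
    ⟨hp.1, by obtain ⟨s, -, -, e⟩ := hp.2; exact hc _ _ e⟩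
  have iH : Set.InjOn Prod.fst (C.IH 0 b c) := fun p hp q hq e =>
    Prod.ext e (C.hy.injective ((mH p hp).2.trans (mH q hq).2.symm))
  set V1 := {p ∈ C.IV 0 b c | C.y p.2 = h} with hV1
  set V2 := {p ∈ C.IV 0 b c | ¬ C.y p.2 = h} with hV2
  have mV2 : ∀ p ∈ V2, C.VE p.1 p.2 ∧ C.y p.2 < h ∧ h ≤ C.y (C.ny p.1 p.2) := by
    rintro p ⟨⟨h1, s, s1, s2, s3⟩, h2⟩
    obtain rfl := hc _ _ s3
    exact ⟨h1, lt_of_le_of_ne s1 h2, s2⟩
  have iV1 : Set.InjOn Prod.fst V1 := fun p hp q hq e =>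
    Prod.ext e (C.hy.injective (hp.2.trans hq.2.symm))
  have iV2 : Set.InjOn Prod.fst V2 := by
    rintro ⟨i, j⟩ hp ⟨k, l⟩ hq e
    obtain rfl : i = k := e
    obtain ⟨a1, a2, a3⟩ := mV2 _ hp
    obtain ⟨b1, b2, b3⟩ := mV2 _ hq
    simp only at a1 a2 a3 b1 b2 b3
    rw [VE_unique a1 b1 (C.hy.lt_iff_lt.1 (a2.trans_le b3)) (C.hy.lt_iff_lt.1 (b2.trans_le a3))]
  have bD : (C.ID 0 b c).encard ≤ (C.N - 1 + (C.N - 1) : ℕ) := by
    refine encard_split _ (fun p => C.y p.2 = h)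
      (encard_le_of_inj _ Prod.fst _ (fun p hp => by have := hp.1.1; omega) fun p hp q hq e =>
        Prod.ext e (C.hy.injective (hp.2.trans hq.2.symm)))
      (encard_le_of_inj _ Prod.fst _ (fun p hp => by have := hp.1.1; omega) ?_)
    rintro p ⟨⟨-, -, s, t, -, -, a1, a2, a3⟩, a4⟩ q ⟨⟨-, -, s', t', -, -, b1, b2, b3⟩, b4⟩ e
    obtain rfl := hc _ _ a3
    obtain rfl := hc _ _ b3
    have c1 := C.hy.lt_iff_lt.1 ((lt_of_le_of_ne a1 a4).trans_le b2)
    have c2 := C.hy.lt_iff_lt.1 ((lt_of_le_of_ne b1 b4).trans_le a2)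
    exact Prod.ext e (by omega)
  have lH : ∀ p ∈ C.IH 0 b c, p.1 < C.N - 1 := fun p hp => by have := hp.1.1; omega
  have lV1 : ∀ p ∈ V1, p.1 < C.N := fun p hp => hp.1.1.1
  have lV2 : ∀ p ∈ V2, p.1 < C.N := fun p hp => hp.1.1.1
  have fin : ∀ l m n : ℕ, (C.IH 0 b c).encard ≤ l → V1.encard ≤ m → V2.encard ≤ n →
      l + m + n ≤ 3 * C.N - 2 → (stabbed C.T 0 b c).encard ≤ (5 * C.N - 4 : ℕ) := by
    intro l m n h1 h2 h3 h4
    refine (stab_le h1 (encard_split _ _ h2 h3) bD).trans (Nat.cast_le.2 (by omega))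
  have bH := encard_le_of_inj _ _ _ lH iH
  have bV1 := encard_le_of_inj _ _ _ lV1 iV1
  have bV2 := encard_le_of_inj _ _ _ lV2 iV2
  have sH : ∀ k < C.N - 1, (∀ p ∈ C.IH 0 b c, p.1 ≠ k) →
      (stabbed C.T 0 b c).encard ≤ (5 * C.N - 4 : ℕ) := fun k hk h =>
    fin _ _ _ (encard_le_of_inj' _ _ _ k hk lH h iH) bV1 bV2 (by omega)
  have sV1 : ∀ k < C.N, (∀ p ∈ V1, p.1 ≠ k) →
      (stabbed C.T 0 b c).encard ≤ (5 * C.N - 4 : ℕ) := fun k hk h =>
    fin _ _ _ bH (encard_le_of_inj' _ _ _ k hk lV1 h iV1) bV2 (by omega)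
  have sV2 : ∀ k < C.N, (∀ p ∈ V2, p.1 ≠ k) →
      (stabbed C.T 0 b c).encard ≤ (5 * C.N - 4 : ℕ) := fun k hk h =>
    fin _ _ _ bH bV1 (encard_le_of_inj' _ _ _ k hk lV2 h iV2) (by omega)
  by_cases hrow : ∃ j < C.N, C.y j = h
  swap
  · exact sH 0 (by omega) fun p hp _ => hrow ⟨p.2, (mH p hp).1.2.1, (mH p hp).2⟩
  obtain ⟨j, hj, e⟩ := hrow
  by_cases hhole : ∃ i, C.hole i j
  · obtain ⟨i, hi⟩ := hhole
    have := C.hh.inner _ _ hi
    refine sH i (by omega) fun p hp e' => (mH p hp).1.2.2.1 ?_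
    rw [e', C.hy.injective ((mH p hp).2.trans e.symm)]; exact hi
  push Not at hhole
  rcases j with _ | j
  · refine sV2 0 (by omega) fun p hp _ => ?_
    have := (mV2 p hp).2.1
    rw [← e, C.hy.lt_iff_lt] at this; omega
  by_cases hlast : j + 2 < C.N
  swap
  · refine sV1 0 (by omega) fun p hp _ => ?_
    have h1 := C.hy.injective (hp.2.trans e.symm)
    have h2 := hp.1.1.2.1
    omega
  obtain ⟨i, ⟨h1, h2⟩ | ⟨h1, h2⟩⟩ := hs j hlast hhole
  · have := C.hh.inner _ _ h1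
    refine sV2 i (by omega) ?_
    rintro ⟨k, l⟩ hp e'
    obtain rfl : k = i := e'
    obtain ⟨a1, a2, a3⟩ := mV2 _ hp
    rw [← e, C.hy.lt_iff_lt] at a2
    rw [← e, C.hy.le_iff_le] at a3
    simp only at a1 a2 a3
    by_cases hl : l = j
    · exact a1.2.2.1 (hl ▸ h1)
    · rcases ny_spec (C := C) k l with ⟨c1, c2⟩ | ⟨c1, c2⟩
      · obtain rfl : j = l + 1 := by omega
        rw [a1.2.2.2 c1] at h2; exact absurd h2 (by simp)
      · omega
  · have := C.hh.inner _ _ h1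
    refine sV1 i (by omega) ?_
    rintro ⟨k, l⟩ hp e'
    obtain rfl : k = i := e'
    obtain rfl : l = j + 1 := C.hy.injective (hp.2.trans e.symm)
    have := hp.1.1.2.2.2 h1
    rw [this] at h2; exact absurd h2 (by simp)

end Row

/-- the transposed configuration -/
def tr (C : Cfg) : Cfg where
  N := C.N
  x := C.y
  y := C.x
  hole i j := C.hole j i
  τ i j := !C.τ j i
  hx := C.hy
  hy := C.hx
  hh := C.hh.swap

theorem swapT_sub : swapT C.T ⊆ C.tr.T := by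
  intro e he
  have he' : e = Sym2.map Prod.swap (Sym2.map Prod.swap e) := (map_swap_swap e).symm
  rcases he with ⟨i, j, h, e1⟩ | ⟨i, j, h, e1⟩ | ⟨i, j, h, h', e1⟩ <;> rw [e1] at he'
  · exact Or.inr (Or.inl ⟨j, i, ⟨h.2.1, h.1, h.2.2.1, fun hh => by
      simpa [tr] using h.2.2.2 hh⟩, he'⟩)
  · exact Or.inl ⟨j, i, ⟨h.2.1, h.1, h.2.2.1, fun hh => by simpa [tr] using h.2.2.2 hh⟩, he'⟩
  · refine Or.inr (Or.inr ⟨j, i, h', h, ?_⟩)
    rw [he']
    unfold dE
    rw [add_comm j i]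
    split_ifs
    · rfl
    · exact Sym2.eq_swap

end Cfg

theorem complete : SpecComplete := by
  intro N x y hole τ hN hx hy hh h3 hs
  let C : Cfg := ⟨N, x, y, hole, τ, hx, hy, hh⟩
  refine ⟨C.T, Cfg.triang (C := C), fun a b c hab => ?_⟩
  by_cases ha : a = 0
  · subst ha
    exact Cfg.stab_row (C := C) (by simp only [C]; omega) hs.1 (by simpa using hab)
  by_cases hb : b = 0
  · subst hb
    rw [← encard_stabbed_swap]
    refine (Set.encard_le_encard (t := stabbed C.tr.T 0 a c)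
      (fun e he => ⟨Cfg.swapT_sub he.1, he.2⟩)).trans
      (Cfg.stab_row (C := C.tr) (by simp only [C, Cfg.tr]; omega) (fun j h1 h2 => ?_) ha)
    simpa [C, Cfg.tr] using hs.2 j h1 h2
  · refine (Cfg.stab_le (C := C) (Cfg.IH_obl h3 ha hb) (Cfg.IV_obl h3 ha hb)
      (Cfg.ID_obl h3 ha hb)).trans (Nat.cast_le.2 ?_)
    simp only [C]; omega

end Pool.Agent.MP_2e9a04_lc.H93
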