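import Pool.Agent.MP_2e9a04_lc.H93.Apex

set_option autoImplicit false

namespace Pool.Agent.MP_2e9a04_lc.H93

variable {P : Set Pt} {T : Set (Sym2 Pt)}

/-- abscissa at height `h` of the line through the two points -/
noncomputable def pos (h : ℝ) (e : Pt × Pt) : ℝ :=
  e.1.1 + (h - e.1.2) / (e.2.2 - e.1.2) * (e.2.1 - e.1.1)

/-- edges, oriented upwards, that cross the strip between the heights `y0` and `y1` -/
def Eup (T : Set (Sym2 Pt)) (y0 y1 : ℝ) : Set (Pt × Pt) :=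
  {e | s(e.1, e.2) ∈ T ∧ e.1.2 ≤ y0 ∧ y1 ≤ e.2.2}

theorem pos_mem {e : Pt × Pt} {h : ℝ} (h0 : e.1.2 < e.2.2) (h1 : e.1.2 ≤ h) (h2 : h ≤ e.2.2) :
    (pos h e, h) ∈ segment ℝ e.1 e.2 := by
  have hd : 0 < e.2.2 - e.1.2 := by linarith
  refine mem_seg_iff.2 ⟨(h - e.1.2) / (e.2.2 - e.1.2), div_nonneg (by linarith) hd.le,
    (div_le_one hd).2 (by linarith), ?_⟩
  ext
  · rfl
  · simp only [lerp_snd]; field_simp; ring

theorem ori_pos {e : Pt × Pt} (h0 : e.1.2 < e.2.2) (z : Pt) :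
    ori e.1 e.2 z = (e.2.2 - e.1.2) * (pos z.2 e - z.1) := by
  have hd : e.2.2 - e.1.2 ≠ 0 := by linarith
  unfold ori pos; field_simp; ring

theorem pos_of_mem {e : Pt × Pt} (h0 : e.1.2 < e.2.2) {z : Pt} (hz : z ∈ segment ℝ e.1 e.2) :
    pos z.2 e = z.1 := by
  have h1 : ori e.1 e.2 z = 0 :=
    (isAff_ori _ _).eq_of_seg hz (by unfold ori; ring) (by unfold ori; ring)
  rw [ori_pos h0] at h1
  have := (mul_eq_zero.1 h1).resolve_left (by linarith)
  linarith

theorem pos_interp (e : Pt × Pt) (y0 y1 s : ℝ) :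
    pos (y0 + s * (y1 - y0)) e = pos y0 e + s * (pos y1 e - pos y0 e) := by
  unfold pos; ring

theorem card_ge {α : Type} {S : Set α} (hS : S.Finite) (n : ℕ) (R : ℕ → α → Prop)
    (h1 : ∀ i < n, ∃ e ∈ S, R i e)
    (h2 : ∀ i < n, ∀ j < n, ∀ e, R i e → R j e → i = j) : n ≤ S.ncard := by
  choose f hf using h1
  have := Set.ncard_le_ncard_of_injOn (s := (Set.univ : Set (Fin n))) (t := S)
    (fun i => f i.1 i.2) (fun i _ => (hf i.1 i.2).1)
    (fun i _ j _ h => Fin.ext (h2 _ i.2 _ j.2 _ (hf i.1 i.2).2 (by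
      have := (hf j.1 j.2).2
      simp only at h
      rwa [← h] at this))) hS
  simpa using this

/-- the hypotheses about a strip without points -/
structure IsStrip (P : Set Pt) (T : Set (Sym2 Pt)) (y0 y1 : ℝ) : Prop where
  fin : P.Finite
  tri : IsTriangulation P T
  lt : y0 < y1
  gap : ∀ z ∈ P, z.2 ≤ y0 ∨ y1 ≤ z.2

/-- position on the middle line of the strip -/
noncomputable def mid (y0 y1 : ℝ) (e : Pt × Pt) : ℝ := pos (y0 + 1 / 2 * (y1 - y0)) e

/-- `e'` follows `e` in the left to right order -/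
def Next (T : Set (Sym2 Pt)) (y0 y1 : ℝ) (e e' : Pt × Pt) : Prop :=
  e' ∈ Eup T y0 y1 ∧ mid y0 y1 e < mid y0 y1 e' ∧
    ∀ e'' ∈ Eup T y0 y1, mid y0 y1 e < mid y0 y1 e'' → mid y0 y1 e' ≤ mid y0 y1 e''

namespace IsStrip

variable {y0 y1 : ℝ} (H : IsStrip P T y0 y1)
include H

theorem finite : (Eup T y0 y1).Finite :=
  (H.fin.prod H.fin).subset fun _ he => ⟨H.tri.prop.left he.1, H.tri.prop.right he.1⟩

theorem up {e : Pt × Pt} (he : e ∈ Eup T y0 y1) : e.1.2 < e.2.2 := by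
  have := H.lt; have := he.2.1; have := he.2.2; linarith

theorem notMem {a h : ℝ} (h0 : y0 < h) (h1 : h < y1) : (a, h) ∉ P := by
  intro hz
  rcases H.gap _ hz with h | h <;> simp only at h <;> linarith

theorem inj {e e' : Pt × Pt} (he : e ∈ Eup T y0 y1) (he' : e' ∈ Eup T y0 y1) {h : ℝ}
    (h0 : y0 < h) (h1 : h < y1) (hp : pos h e = pos h e') : e = e' := by
  have m1 := pos_mem (h := h) (H.up he) (by linarith [he.2.1]) (by linarith [he.2.2])
  have m2 := pos_mem (h := h) (H.up he') (by linarith [he'.2.1]) (by linarith [he'.2.2])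
  rw [← hp] at m2
  have := H.tri.prop.eq_of_meet he.1 he'.1 m1 m2 (H.notMem h0 h1)
  rcases Sym2.eq_iff.1 this with ⟨a, b⟩ | ⟨a, b⟩
  · exact Prod.ext a b
  · have h2 := he.2.1; have h3 := he'.2.2; have := H.lt
    rw [a] at h2; linarith

theorem mono {e e' : Pt × Pt} (he : e ∈ Eup T y0 y1) (he' : e' ∈ Eup T y0 y1)
    (h : mid y0 y1 e ≤ mid y0 y1 e') : pos y0 e ≤ pos y0 e' ∧ pos y1 e ≤ pos y1 e' := by
  unfold mid at h
  rw [pos_interp, pos_interp] at h
  have hl := H.lt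
  have key : ∀ s, 0 < s → s < 1 → pos y0 e + s * (pos y1 e - pos y0 e) =
      pos y0 e' + s * (pos y1 e' - pos y0 e') → e = e' := by
    intro s s0 s1 hs
    rw [← pos_interp, ← pos_interp] at hs
    exact H.inj he he' (by nlinarith) (by nlinarith) hs
  set a := pos y0 e - pos y0 e' with ha
  set b := pos y1 e - pos y1 e' with hb
  have hab : a + b ≤ 0 := by linarith
  constructor
  · by_contra hc
    have a0 : 0 < a := by linarith
    have d0 : 0 < a - b := by linarith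
    have := key (a / (a - b)) (div_pos a0 d0) ((div_lt_one d0).2 (by linarith)) (by
      have : a + a / (a - b) * (b - a) = 0 := by field_simp; ring
      linarith)
    rw [this] at ha; linarith
  · by_contra hc
    have b0 : 0 < b := by linarith
    have d0 : 0 < b - a := by linarith
    have := key (-a / (b - a)) (div_pos (by linarith) d0) ((div_lt_one d0).2 (by linarith)) (by
      have : a + -a / (b - a) * (b - a) = 0 := by field_simp; ring
      linarith)
    rw [this] at hb; linarith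

theorem low_eq {e : Pt × Pt} (he : e ∈ Eup T y0 y1) {a : ℝ} (hz : (a, y0) ∈ P)
    (h : pos y0 e = a) : e.1 = (a, y0) := by
  have m1 := pos_mem (h := y0) (H.up he) he.2.1 (by linarith [he.2.2, H.lt])
  rw [h] at m1
  rcases H.tri.prop.prim' he.1 _ hz m1 with e1 | e1
  · exact e1.symm
  · have h2 := he.2.2; have := H.lt
    rw [← e1] at h2; simp only at h2; linarith

theorem high_eq {e : Pt × Pt} (he : e ∈ Eup T y0 y1) {a : ℝ} (hz : (a, y1) ∈ P)
    (h : pos y1 e = a) : e.2 = (a, y1) := by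
  have m1 := pos_mem (h := y1) (H.up he) (by linarith [he.2.1, H.lt]) he.2.2
  rw [h] at m1
  rcases H.tri.prop.prim' he.1 _ hz m1 with e1 | e1
  · have h2 := he.2.1; have := H.lt
    rw [← e1] at h2; simp only at h2; linarith
  · exact e1.symm

theorem pos_low {e : Pt × Pt} (he : e ∈ Eup T y0 y1) {a : ℝ} (h : e.1 = (a, y0)) :
    pos y0 e = a := by
  have := pos_of_mem (H.up he) (left_mem_segment _ _ _)
  rw [h] at this; simpa using this

theorem pos_high {e : Pt × Pt} (he : e ∈ Eup T y0 y1) {a : ℝ} (h : e.2 = (a, y1)) :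
    pos y1 e = a := by
  have := pos_of_mem (H.up he) (right_mem_segment _ _ _)
  rw [h] at this; simpa using this

theorem next_aux {e e' : Pt × Pt} (he : e ∈ Eup T y0 y1) (he' : e' ∈ Eup T y0 y1) {r : Pt}
    (hr : Apex T e.1 e.2 r)
    (hz : ∀ z ∈ segment ℝ e'.1 e'.2, z ∉ P → 0 ≤ bA e.2 e.1 r z ∧ 0 ≤ bB e.2 e.1 r z ∧
      0 < bC e.2 e.1 r z) : Next T y0 y1 e e' := by
  have hl := H.lt
  have hP := H.tri.prop
  set m := y0 + 1 / 2 * (y1 - y0) with hm
  have m0 : y0 < m := by linarith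
  have m1 : m < y1 := by linarith
  have hD' : ori e.2 e.1 r = - ori e.1 e.2 r := by unfold ori; ring
  have hD0 : 0 < ori e.2 e.1 r := by rw [hD']; linarith [hr.right]
  have hD : ori e.2 e.1 r ≠ 0 := hD0.ne'
  have hmem : ∀ f ∈ Eup T y0 y1, (mid y0 y1 f, m) ∈ segment ℝ f.1 f.2 := fun f hf =>
    pos_mem (H.up hf) (by linarith [hf.2.1]) (by linarith [hf.2.2])
  obtain ⟨a1, a2, a3⟩ := hz _ (hmem e' he') (H.notMem m0 m1)
  obtain ⟨t, t0, t1, ht⟩ := param_strict (hP.left he.1) (hP.right he.1) (hmem e he)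
    (H.notMem m0 m1)
  have b1 : 0 < bA e.2 e.1 r (mid y0 y1 e, m) := by rw [ht, isAff_bA, bA_q, bA_p hD]; linarith
  have b2 : 0 < bB e.2 e.1 r (mid y0 y1 e, m) := by rw [ht, isAff_bB, bB_q hD, bB_p]; linarith
  have b3 : bC e.2 e.1 r (mid y0 y1 e, m) = 0 := by rw [ht, isAff_bC, bC_q, bC_p]; ring
  have hlt : mid y0 y1 e < mid y0 y1 e' := by
    unfold bC at a3
    have c1 := (div_pos_iff_of_pos_right hD0).1 a3
    have c2 : ori e.2 e.1 (mid y0 y1 e', m) = - ori e.1 e.2 (mid y0 y1 e', m) := by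
      unfold ori; ring
    rw [c2, ori_pos (H.up he)] at c1
    have c3 : 0 < e.2.2 - e.1.2 := by linarith [H.up he]
    change 0 < -((e.2.2 - e.1.2) * (mid y0 y1 e - mid y0 y1 e')) at c1
    by_contra hh; push Not at hh; nlinarith
  refine ⟨he', hlt, fun f hf h1 => ?_⟩
  by_contra h2
  push Not at h2
  set s := (mid y0 y1 f - mid y0 y1 e) / (mid y0 y1 e' - mid y0 y1 e) with hs
  have s0 : 0 < s := div_pos (by linarith) (by linarith)
  have s1 : s < 1 := (div_lt_one (by linarith)).2 (by linarith)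
  have hy : (mid y0 y1 f, m) = lerp (mid y0 y1 e, m) (mid y0 y1 e', m) s := by
    ext
    · have : mid y0 y1 e' - mid y0 y1 e ≠ 0 := by linarith
      simp only [lerp_fst, hs]; field_simp; ring
    · simp
  refine hr.empty f.1 f.2 _ hf.1 (hmem f hf) ?_ ?_ ?_
  · rw [hy, isAff_bA]; nlinarith
  · rw [hy, isAff_bB]; nlinarith
  · rw [hy, isAff_bC, b3]; nlinarith

theorem next_of_apex {e : Pt × Pt} (he : e ∈ Eup T y0 y1) {r : Pt} (hr : Apex T e.1 e.2 r) :
    (r.2 ≤ y0 ∧ Next T y0 y1 e (r, e.2)) ∨ (y1 ≤ r.2 ∧ Next T y0 y1 e (e.1, r)) := by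
  have hP := H.tri.prop
  have hD' : ori e.2 e.1 r = - ori e.1 e.2 r := by unfold ori; ring
  have hD : ori e.2 e.1 r ≠ 0 := by rw [hD']; linarith [hr.right]
  rcases H.gap r (hP.right hr.qr) with h | h
  · refine Or.inl ⟨h, H.next_aux he ⟨swap_mem hr.pr, h, he.2.2⟩ hr fun z hz hzP => ?_⟩
    obtain ⟨t, t0, t1, rfl⟩ := param_strict (hP.right hr.pr) (hP.left hr.pr) hz hzP
    rw [isAff_bA, isAff_bB, isAff_bC, bA_r, bA_p hD, bB_r, bB_p, bC_r hD, bC_p]
    refine ⟨by linarith, by linarith, by linarith⟩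
  · refine Or.inr ⟨h, H.next_aux he ⟨hr.qr, he.2.1, h⟩ hr fun z hz hzP => ?_⟩
    obtain ⟨t, t0, t1, rfl⟩ := param_strict (hP.left hr.qr) (hP.right hr.qr) hz hzP
    rw [isAff_bA, isAff_bB, isAff_bC, bA_r, bA_q, bB_r, bB_q hD, bC_r hD, bC_q]
    refine ⟨by linarith, by linarith, by linarith⟩

theorem edge_low {a b : ℝ} (hv : (a, y0) ∈ P) (hw : (b, y1) ∈ P) :
    ∃ e ∈ Eup T y0 y1, pos y0 e = a := by
  have hφ : IsAff fun z : Pt => z.2 - y0 := fun _ _ _ => by simp only [lerp_snd]; ring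
  obtain ⟨u, h1, h2⟩ := half_nbr H.fin H.tri hφ hv (by simp) hw (by simpa using H.lt)
  have he : ((a, y0), u) ∈ Eup T y0 y1 :=
    ⟨h1, le_rfl, (H.gap u (H.tri.prop.right h1)).resolve_left (by linarith)⟩
  exact ⟨_, he, H.pos_low he rfl⟩

theorem edge_high {a b : ℝ} (hv : (a, y1) ∈ P) (hw : (b, y0) ∈ P) :
    ∃ e ∈ Eup T y0 y1, pos y1 e = a := by
  have hφ : IsAff fun z : Pt => y1 - z.2 := fun _ _ _ => by simp only [lerp_snd]; ring
  obtain ⟨u, h1, h2⟩ := half_nbr H.fin H.tri hφ hv (by simp) hw (by simpa using H.lt)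
  have he : (u, (a, y1)) ∈ Eup T y0 y1 :=
    ⟨swap_mem h1, (H.gap u (H.tri.prop.right h1)).resolve_right (by linarith), le_rfl⟩
  exact ⟨_, he, H.pos_high he rfl⟩

theorem apex_of {e : Pt × Pt} (he : e ∈ Eup T y0 y1) {a h : ℝ} (hv : (a, h) ∈ P)
    (hlt : pos h e < a) : ∃ r, Apex T e.1 e.2 r := by
  refine exists_apex H.fin H.tri he.1 hv ?_
  rw [ori_pos (H.up he)]
  exact mul_neg_of_pos_of_neg (by linarith [H.up he]) (by simp only; linarith)

/-- the last edge with a given property -/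
theorem last (A : Pt × Pt → Prop) {e0 : Pt × Pt} (h0 : e0 ∈ Eup T y0 y1) (hA : A e0) :
    ∃ e ∈ Eup T y0 y1, A e ∧ (pos y0 e0 ≤ pos y0 e ∧ pos y1 e0 ≤ pos y1 e) ∧
      ∀ e', Next T y0 y1 e e' → ¬ A e' := by
  obtain ⟨e, ⟨h1, h2⟩, hmax⟩ := Set.exists_max_image {e ∈ Eup T y0 y1 | A e} (mid y0 y1)
    (H.finite.subset fun _ h => h.1) ⟨e0, h0, hA⟩
  refine ⟨e, h1, h2, H.mono h0 h1 (hmax e0 ⟨h0, hA⟩), fun e' hn hA' => ?_⟩
  have := hmax e' ⟨hn.1, hA'⟩
  linarith [hn.2.1]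

theorem next_le_low {e e' f : Pt × Pt} (he : e ∈ Eup T y0 y1) (hn : Next T y0 y1 e e')
    (hf : f ∈ Eup T y0 y1) (h : pos y0 e < pos y0 f) : pos y0 e' ≤ pos y0 f := by
  refine (H.mono hn.1 hf (hn.2.2 f hf ?_)).1
  by_contra hh; push Not at hh
  linarith [(H.mono hf he hh).1]

theorem next_le_high {e e' f : Pt × Pt} (he : e ∈ Eup T y0 y1) (hn : Next T y0 y1 e e')
    (hf : f ∈ Eup T y0 y1) (h : pos y1 e < pos y1 f) : pos y1 e' ≤ pos y1 f := by
  refine (H.mono hn.1 hf (hn.2.2 f hf ?_)).2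
  by_contra hh; push Not at hh
  linarith [(H.mono hf he hh).2]

omit H in
/-- a missing horizontal segment is crossed by an edge from below to above -/
theorem blocked_horiz (hT : IsTriangulation P T) {a b h : ℝ} (hab : a < b) (ha : (a, h) ∈ P)
    (hb : (b, h) ∈ P) (hp : ∀ c, a < c → c < b → (c, h) ∉ P) (hn : s((a, h), (b, h)) ∉ T) :
    ∃ e : Pt × Pt, s(e.1, e.2) ∈ T ∧ e.1.2 < h ∧ h < e.2.2 ∧ a < pos h e ∧ pos h e < b := by
  have hprim : Prim P (a, h) (b, h) := by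
    intro z hz hs
    obtain ⟨t, t0, t1, rfl⟩ := mem_seg_iff.1 hs
    by_contra hc
    push Not at hc
    have t0' : 0 < t := lt_of_le_of_ne t0 (by rintro rfl; simp at hc)
    have t1' : t < 1 := lt_of_le_of_ne t1 (by rintro rfl; simp at hc)
    have : lerp (a, h) (b, h) t = (a + t * (b - a), h) := by ext <;> simp
    rw [this] at hz
    exact hp _ (by nlinarith) (by nlinarith) hz
  obtain ⟨g, k, y, he, hy, hy', hyP, o1, o2⟩ :=
    blocked hT (by intro e; simp at e; linarith) ha hb hprim hn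
  obtain ⟨t, t0, t1, ht⟩ := param_strict ha hb hy hyP
  simp only [ori, sub_self, zero_mul, sub_zero] at o1 o2
  have g1 : h < g.2 := by by_contra hh; push Not at hh; nlinarith
  have k1 : k.2 < h := by by_contra hh; push Not at hh; nlinarith
  have e1 := pos_of_mem (e := (k, g)) (by simp only; linarith) (z := y)
    (by rw [segment_symm]; exact hy')
  have y2 : y.2 = h := by rw [ht]; simp
  have y1 : y.1 = a + t * (b - a) := by rw [ht]; simp
  rw [y2, y1] at e1
  exact ⟨(k, g), swap_mem he, k1, g1, by rw [e1]; nlinarith, by rw [e1]; nlinarith⟩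

end IsStrip

end Pool.Agent.MP_2e9a04_lc.H93
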