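import Pool.Agent.MP_2e9a04_lc.H93.Basic

set_option autoImplicit false

namespace Pool.Agent.MP_2e9a04_lc.H93

variable {P : Set Pt} {T : Set (Sym2 Pt)}

theorem IsPlane.left (h : IsPlane P T) {a b : Pt} (e : s(a, b) ∈ T) : a ∈ P :=
  (h.ends _ e).2 a (by simp)

theorem IsPlane.right (h : IsPlane P T) {a b : Pt} (e : s(a, b) ∈ T) : b ∈ P :=
  (h.ends _ e).2 b (by simp)

theorem IsPlane.ne (h : IsPlane P T) {a b : Pt} (e : s(a, b) ∈ T) : a ≠ b := by
  simpa using (h.ends _ e).1

theorem IsPlane.prim' (h : IsPlane P T) {a b : Pt} (e : s(a, b) ∈ T) : Prim P a b := by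
  intro z hz hs
  simpa using h.prim _ e z hz hs

theorem IsPlane.eq_of_meet (h : IsPlane P T) {a b g k y : Pt} (e : s(a, b) ∈ T)
    (e' : s(g, k) ∈ T) (hy : y ∈ segment ℝ a b) (hy' : y ∈ segment ℝ g k) (hyP : y ∉ P) :
    s(a, b) = s(g, k) := by
  by_contra hne
  exact hyP ((h.ends _ e).2 y (h.cross _ e _ e' hne y hy hy').1)

theorem swap_mem {a b : Pt} (e : s(a, b) ∈ T) : s(b, a) ∈ T := by rwa [Sym2.eq_swap]

/-- A primitive segment outside a triangulation is crossed transversally by an edge. -/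
theorem blocked (hT : IsTriangulation P T) {a b : Pt} (hab : a ≠ b) (ha : a ∈ P) (hb : b ∈ P)
    (hp : Prim P a b) (hn : s(a, b) ∉ T) :
    ∃ g h y, s(g, h) ∈ T ∧ y ∈ segment ℝ a b ∧ y ∈ segment ℝ g h ∧ y ∉ P ∧
      0 < ori a b g ∧ ori a b h < 0 := by
  have hP := hT.prop
  have key : ∃ g h y, s(g, h) ∈ T ∧ y ∈ segment ℝ a b ∧ y ∈ segment ℝ g h ∧ y ∉ P := by
    by_contra hcon
    push Not at hcon
    have hnew : IsPlane P (insert s(a, b) T) := by
      have hx : ∀ e ∈ T, ∀ z, z ∈ seg s(a, b) → z ∈ seg e → z ∈ s(a, b) ∧ z ∈ e := by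
        intro e he z hz hz'
        induction e using Sym2.ind with
        | h g h =>
          have hzP := hcon g h z he hz hz'
          exact ⟨by simpa using hp z hzP hz, hP.prim _ he z hzP hz'⟩
      refine ⟨?_, ?_, ?_⟩
      · rintro e (rfl | he)
        · refine ⟨by simpa using hab, fun c hc => ?_⟩
          rcases Sym2.mem_iff.1 hc with rfl | rfl <;> assumption
        · exact hP.ends e he
      · rintro e (rfl | he) z hz hs
        · simpa using hp z hz hs
        · exact hP.prim e he z hz hs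
      · rintro e (rfl | he) e' (rfl | he') hne z hz hz'
        · exact absurd rfl hne
        · exact hx e' he' z hz hz'
        · exact (hx e he z hz' hz).symm
        · exact hP.cross e he e' he' hne z hz hz'
    exact hn (hT.le_of_ge hnew (Set.subset_insert _ _) (Set.mem_insert _ _))
  obtain ⟨g, h, y, he, hy, hy', hyP⟩ := key
  have o0 : ori a b y = 0 :=
    (isAff_ori a b).eq_of_seg hy (by unfold ori; ring) (by unfold ori; ring)
  obtain ⟨t, t0, t1, ht⟩ := param_strict (hP.left he) (hP.right he) hy' hyP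
  have o1 := isAff_ori a b g h t
  rw [← ht, o0] at o1
  rcases lt_trichotomy (ori a b g) 0 with hg | hg | hg
  · exact ⟨h, g, y, swap_mem he, hy, by rwa [segment_symm], hyP, by nlinarith, hg⟩
  · have hh : ori a b h = 0 := by
      rw [hg] at o1
      have : t * ori a b h = 0 := by linarith
      exact (mul_eq_zero.1 this).resolve_left t0.ne'
    have := col hab ha hb (hP.left he) (hP.right he) hp (hP.prim' he) hy hy' hyP hg hh
    exact absurd (this ▸ he) hn
  · exact ⟨g, h, y, he, hy, hy', hyP, hg, by nlinarith⟩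

/-- the nearest point of `P` on a segment -/
theorem exists_prim (hfin : P.Finite) {p w : Pt} (hw : w ∈ P) (hne : w ≠ p) :
    ∃ t, 0 < t ∧ t ≤ 1 ∧ lerp p w t ∈ P ∧ Prim P p (lerp p w t) := by
  have hS : {t : ℝ | 0 < t ∧ t ≤ 1 ∧ lerp p w t ∈ P}.Finite := by
    refine Set.Finite.of_finite_image (f := lerp p w) (hfin.subset ?_) ?_
    · rintro _ ⟨t, ht, rfl⟩; exact ht.2.2
    · intro s _ t _ h; exact lerp_inj hne.symm h
  obtain ⟨t, ⟨t0, t1, tP⟩, hmin⟩ := Set.exists_min_image _ id hS ⟨1, one_pos, le_rfl, by simpa⟩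
  refine ⟨t, t0, t1, tP, fun z hz hs => ?_⟩
  obtain ⟨u, u0, u1, rfl⟩ := mem_seg_iff.1 hs
  have e : lerp p (lerp p w t) u = lerp p w (u * t) := by
    ext <;> simp only [lerp_fst, lerp_snd] <;> ring
  rcases eq_or_lt_of_le u0 with h | h
  · left; rw [← h]; simp
  · right
    have := hmin (u * t) ⟨mul_pos h t0, by nlinarith, e ▸ hz⟩
    simp only [id] at this
    have : u = 1 := by nlinarith
    rw [this]; simp

section Wedge

variable {p q r : Pt}

theorem wedge_int (hP : IsPlane P T) (hD : ori p q r ≠ 0) (hq : s(p, q) ∈ T)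
    (hr : s(p, r) ∈ T)
    (hw : ∀ w, s(p, w) ∈ T → 0 < bB p q r w → 0 < bC p q r w → False)
    {g h y : Pt} (he : s(g, h) ∈ T) (hy : y ∈ segment ℝ g h) (hA : 0 ≤ bA p q r y)
    (hB : 0 < bB p q r y) (hC : 0 < bC p q r y) (hg : 0 < bA p q r g) :
    0 ≤ bB p q r g ∧ 0 ≤ bC p q r g ∧ g ≠ p := by
  have hend : ∀ w, s(p, w) ∈ T → y ∈ segment ℝ p w → False := by
    intro w hpw hyw
    obtain ⟨t, t0, -, rfl⟩ := mem_seg_iff.1 hyw
    rw [isAff_bB, bB_p] at hB
    rw [isAff_bC, bC_p] at hC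
    refine hw w hpw ?_ ?_
    · by_contra hh; push Not at hh; nlinarith
    · by_contra hh; push Not at hh; nlinarith
  have hgp : g ≠ p := by rintro rfl; exact hend h he hy
  have hhp : h ≠ p := by rintro rfl; exact hend g (swap_mem he) (by rwa [segment_symm])
  by_contra hcon
  have h3 : bB p q r g < 0 ∨ bC p q r g < 0 := by
    by_contra h4; push Not at h4; exact hcon ⟨h4.1, h4.2, hgp⟩
  obtain ⟨t, t0, t1, z1, z2, z3⟩ := exit_two isAff_bB isAff_bC hB hC h3
  have hz : lerp y g t ∈ segment ℝ g h :=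
    seg_sub hy (left_mem_segment _ _ _) (lerp_mem t0.le t1)
  have hzA : 0 < bA p q r (lerp y g t) := by rw [isAff_bA]; nlinarith
  have hzP : lerp y g t ∈ P → lerp y g t ≠ p := by
    intro _ e
    rw [e] at hz
    rcases hP.prim' he p (hP.left hq) hz with e' | e'
    · exact hgp e'.symm
    · exact hhp e'.symm
  rcases z3 with z3 | z3
  · have hs := mem_pr hD hzA.le z3 z2
    by_cases hz' : lerp y g t ∈ P
    · rcases hP.prim' hr _ hz' hs with e | e
      · exact hzP hz' e
      · rw [e, bA_r] at hzA; exact lt_irrefl _ hzA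
    · have e := hP.eq_of_meet hr he hs hz hz'
      have : y ∈ segment ℝ p r := by rw [← seg_mk, e]; exact hy
      have := isAff_bB (p := p) (q := q) (r := r) |>.eq_of_seg this bB_p bB_r
      linarith
  · have hs := mem_pq hD hzA.le z1 z3
    by_cases hz' : lerp y g t ∈ P
    · rcases hP.prim' hq _ hz' hs with e | e
      · exact hzP hz' e
      · rw [e, bA_q] at hzA; exact lt_irrefl _ hzA
    · have e := hP.eq_of_meet hq he hs hz hz'
      have : y ∈ segment ℝ p q := by rw [← seg_mk, e]; exact hy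
      have := isAff_bC (p := p) (q := q) (r := r) |>.eq_of_seg this bC_p bC_q
      linarith

theorem wedge_empty (hfin : P.Finite) (hT : IsTriangulation P T) (hD : ori p q r ≠ 0)
    (hq : s(p, q) ∈ T) (hr : s(p, r) ∈ T)
    (hw : ∀ w, s(p, w) ∈ T → 0 < bB p q r w → 0 < bC p q r w → False)
    {w : Pt} (hwP : w ∈ P) (hA : 0 ≤ bA p q r w) (hB : 0 ≤ bB p q r w) (hC : 0 ≤ bC p q r w) :
    w = p ∨ w = q ∨ w = r := by
  have hP := hT.prop
  by_contra hcon
  push Not at hcon
  set W : Set Pt := {w ∈ P | 0 ≤ bA p q r w ∧ 0 ≤ bB p q r w ∧ 0 ≤ bC p q r w ∧ w ≠ p ∧ w ≠ q ∧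
    w ≠ r} with hW
  obtain ⟨u, ⟨uP, uA, uB, uC, up, uq, ur⟩, hmax⟩ :=
    Set.exists_max_image W (bA p q r) (hfin.subset fun _ h => h.1)
      ⟨w, hwP, hA, hB, hC, hcon.1, hcon.2.1, hcon.2.2⟩
  have uB' : 0 < bB p q r u := by
    refine lt_of_le_of_ne uB fun e => ?_
    rcases hP.prim' hr u uP (mem_pr hD uA e.symm uC) with e | e <;> contradiction
  have uC' : 0 < bC p q r u := by
    refine lt_of_le_of_ne uC fun e => ?_
    rcases hP.prim' hq u uP (mem_pq hD uA uB e.symm) with e | e <;> contradiction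
  have us := bary_sum hD u
  have hin : ∀ t, 0 < t → t < 1 → bA p q r u < bA p q r (lerp p u t) ∧
      0 < bB p q r (lerp p u t) ∧ 0 < bC p q r (lerp p u t) := by
    intro t t0 t1
    rw [isAff_bA, isAff_bB, isAff_bC, bA_p hD, bB_p, bC_p]
    refine ⟨by nlinarith, by nlinarith, by nlinarith⟩
  have hmem : ∀ z ∈ P, bA p q r u < bA p q r z → 0 ≤ bB p q r z → 0 ≤ bC p q r z → z ≠ p →
      False := by
    intro z zP zA zB zC zp
    have := hmax z ⟨zP, by linarith, zB, zC, zp, by rintro rfl; rw [bA_q] at zA; linarith,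
      by rintro rfl; rw [bA_r] at zA; linarith⟩
    linarith
  have hprim : Prim P p u := by
    intro z zP hz
    by_contra hc
    push Not at hc
    obtain ⟨t, t0, t1, rfl⟩ := mem_seg_iff.1 hz
    have t0' : 0 < t := lt_of_le_of_ne t0 (by rintro rfl; simp at hc)
    have t1' : t < 1 := lt_of_le_of_ne t1 (by rintro rfl; simp at hc)
    obtain ⟨a1, a2, a3⟩ := hin t t0' t1'
    exact hmem _ zP a1 a2.le a3.le hc.1
  obtain ⟨g, h, y, he, hy, hy', hyP, -, -⟩ :=
    blocked hT up.symm (hP.left hq) uP hprim fun e => hw u e uB' uC'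
  obtain ⟨t, t0, t1, rfl⟩ := param_strict (hP.left hq) uP hy hyP
  obtain ⟨a1, a2, a3⟩ := hin t t0 t1
  rcases (isAff_bA (p := p) (q := q) (r := r)).le_or_le hy' with h1 | h1
  · obtain ⟨b1, b2, b3⟩ := wedge_int hP hD hq hr hw he hy' (by linarith) a2 a3 (by linarith)
    exact hmem g (hP.left he) (by linarith) b1 b2 b3
  · obtain ⟨b1, b2, b3⟩ := wedge_int hP hD hq hr hw (swap_mem he) (by rwa [segment_symm])
      (by linarith) a2 a3 (by linarith)
    exact hmem h (hP.right he) (by linarith) b1 b2 b3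

theorem wedge_far (hfin : P.Finite) (hT : IsTriangulation P T) (hD : ori p q r ≠ 0)
    (hq : s(p, q) ∈ T) (hr : s(p, r) ∈ T)
    (hw : ∀ w, s(p, w) ∈ T → 0 < bB p q r w → 0 < bC p q r w → False)
    {g h y : Pt} (he : s(g, h) ∈ T) (hy : y ∈ segment ℝ g h) (hA : 0 ≤ bA p q r y)
    (hB : 0 < bB p q r y) (hC : 0 < bC p q r y) : bA p q r g ≤ 0 := by
  by_contra hg
  push Not at hg
  obtain ⟨b1, b2, b3⟩ := wedge_int hT.prop hD hq hr hw he hy hA hB hC hg
  rcases wedge_empty hfin hT hD hq hr hw (hT.prop.left he) hg.le b1 b2 with e | e | e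
  · exact b3 e
  · rw [e, bA_q] at hg; exact lt_irrefl _ hg
  · rw [e, bA_r] at hg; exact lt_irrefl _ hg

/-- Two angularly consecutive edges with an angle less than `π` span a triangle of `T`. -/
theorem wedge (hfin : P.Finite) (hT : IsTriangulation P T) (hD : ori p q r ≠ 0)
    (hq : s(p, q) ∈ T) (hr : s(p, r) ∈ T)
    (hw : ∀ w, s(p, w) ∈ T → 0 < bB p q r w → 0 < bC p q r w → False) :
    s(q, r) ∈ T ∧ ∀ g h y, s(g, h) ∈ T → y ∈ segment ℝ g h → 0 < bA p q r y →
      0 < bB p q r y → 0 < bC p q r y → False := by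
  have hP := hT.prop
  constructor
  · by_contra hn
    have hqr : q ≠ r := by
      rintro rfl; apply hD; unfold ori; ring
    have hin : ∀ z ∈ segment ℝ q r, bA p q r z = 0 ∧ 0 ≤ bB p q r z ∧ 0 ≤ bC p q r z :=
      fun z hz => ⟨isAff_bA.eq_of_seg hz bA_q bA_r,
        isAff_bB.nonneg_of_seg hz (by rw [bB_q hD]; norm_num) (by rw [bB_r]),
        isAff_bC.nonneg_of_seg hz (by rw [bC_q]) (by rw [bC_r hD]; norm_num)⟩
    have hprim : Prim P q r := by
      intro z zP hz
      obtain ⟨a1, a2, a3⟩ := hin z hz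
      rcases wedge_empty hfin hT hD hq hr hw zP a1.ge a2 a3 with e | e | e
      · rw [e, bA_p hD] at a1; norm_num at a1
      · exact Or.inl e
      · exact Or.inr e
    obtain ⟨g, h, y, he, hy, hy', hyP, o1, o2⟩ :=
      blocked hT hqr (hP.right hq) (hP.right hr) hprim hn
    obtain ⟨t, t0, t1, ht⟩ := param_strict (hP.right hq) (hP.right hr) hy hyP
    have a1 := (hin y hy).1
    have a2 : 0 < bB p q r y := by rw [ht, isAff_bB, bB_q hD, bB_r]; linarith
    have a3 : 0 < bC p q r y := by rw [ht, isAff_bC, bC_q, bC_r hD]; linarith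
    have b1 := wedge_far hfin hT hD hq hr hw he hy' a1.ge a2 a3
    have b2 := wedge_far hfin hT hD hq hr hw (swap_mem he) (by rwa [segment_symm]) a1.ge a2 a3
    unfold bA at b1 b2
    rcases lt_or_gt_of_ne hD with hD' | hD'
    · have := div_pos_of_neg_of_neg o2 hD'; linarith
    · have := div_pos o1 hD'; linarith
  · intro g h y he hy a1 a2 a3
    have b1 := wedge_far hfin hT hD hq hr hw he hy a1.le a2 a3
    have b2 := wedge_far hfin hT hD hq hr hw (swap_mem he) (by rwa [segment_symm]) a1.le a2 a3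
    rcases (isAff_bA (p := p) (q := q) (r := r)).le_or_le hy with h1 | h1 <;> linarith

end Wedge

end Pool.Agent.MP_2e9a04_lc.H93
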